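import Pool.Agent.Work.MP_5dff62_co.Defs

set_option autoImplicit false

/-!
# Module H: the public definitions and the bridge from `RDn`

Proof of `bridge`: let `f B ∈ C` be a colour of the block `B ∋ x` (choice).  For `y ≠ x` the number of
blocks containing `x` and `y` is `(n-2)/2` (the sets `B \ {x,y}` partition the other `n-2` points
into pairs), they have different colours and `|C| ≤ (n-2)/2`, so every colour of `C` occurs exactly
once at `y`.  The parallel classes are `{B.erase x : x ∈ B ∈ 𝓑, f B = e}`, `e ∈ C`.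
-/

namespace Pool.Agent.MP_5dff62_co

open Finset

/-- `𝓑` is a Steiner quadruple system on the finite point set `V`: a family of 4-element blocks such
that every 3-element set of points lies in exactly one block. -/
def IsSQS {V : Type} [Fintype V] [DecidableEq V] (𝓑 : Finset (Finset V)) : Prop :=
  (∀ B ∈ 𝓑, B.card = 4) ∧ ∀ T : Finset V, T.card = 3 → ∃! B, B ∈ 𝓑 ∧ T ⊆ B

/-- the triples `B \ {x}`, `x ∈ B ∈ 𝓑`, of the derived system at `x` (point set `V \ {x}`). -/
def derived {V : Type} [Fintype V] [DecidableEq V] (𝓑 : Finset (Finset V)) (x : V) :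
    Finset (Finset V) :=
  (𝓑.filter (fun B => x ∈ B)).image (fun B => B.erase x)

/-- a parallel class: a set of subsets of `W` partitioning `W`. -/
def IsParallelClass {V : Type} [DecidableEq V] (W : Finset V) (P : Finset (Finset V)) : Prop :=
  (∀ T ∈ P, T ⊆ W) ∧ ∀ y ∈ W, ∃! T, T ∈ P ∧ y ∈ T

/-- the triple system `𝒯` on the point set `W` is resolvable: `𝒯` can be partitioned into parallel
classes. -/
def IsResolvable {V : Type} [DecidableEq V] (W : Finset V) (𝒯 : Finset (Finset V)) : Prop :=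
  ∃ 𝓡 : Finset (Finset (Finset V)), (∀ P ∈ 𝓡, P ⊆ 𝒯 ∧ IsParallelClass W P) ∧
    ∀ T ∈ 𝒯, ∃! P, P ∈ 𝓡 ∧ T ∈ P

theorem bridge {n : ℕ} (hn : 4 ≤ n) (hn2 : n % 2 = 0) (h : Pool.Agent.RDS.RDn n) :
    ∃ 𝓑 : Finset (Finset (Fin n)), IsSQS 𝓑 ∧
      ∀ x : Fin n, IsResolvable (univ.erase x) (derived 𝓑 x) := by
  classical
  obtain ⟨𝓑, ⟨hB4, hB3⟩, hcol⟩ := h
  refine ⟨𝓑, ⟨fun B hB => (hB4 B hB).2, fun T hT => hB3 T (subset_univ _) hT⟩, ?_⟩
  intro x
  obtain ⟨β, C, P, hC, hP1, hP2⟩ := hcol x (mem_univ x)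
  rw [card_univ, Fintype.card_fin] at hC
  -- a colour of every block through `x`
  have hex : ∀ B : Finset (Fin n), ∃ e : Option β, B ∈ 𝓑 → x ∈ B → ∃ e' ∈ C, e = some e' ∧ P B e' := by
    intro B
    by_cases hb : B ∈ 𝓑 ∧ x ∈ B
    · obtain ⟨e, he, hPe⟩ := hP1 B hb.1 hb.2
      exact ⟨some e, fun _ _ => ⟨e, he, rfl, hPe⟩⟩
    · exact ⟨none, fun h1 h2 => absurd ⟨h1, h2⟩ hb⟩
  choose f hf using hex
  -- two blocks of the same colour with a common point `y ≠ x` are equal
  have hinj : ∀ B ∈ 𝓑, ∀ B' ∈ 𝓑, x ∈ B → x ∈ B' → f B = f B' → ∀ y, y ≠ x → y ∈ B → y ∈ B' →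
      B = B' := by
    intro B hB B' hB' hxB hxB' hff y hy hyB hyB'
    obtain ⟨e, he, h1, h2⟩ := hf B hB hxB
    obtain ⟨e', he', h1', h2'⟩ := hf B' hB' hxB'
    have hee : e = e' := by
      rw [h1, h1'] at hff
      exact Option.some.inj hff
    subst hee
    exact hP2 B hB B' hB' e he y hy hxB hxB' hyB hyB' h2 h2'
  -- every colour occurs at every point
  have hsurj : ∀ y : Fin n, y ≠ x → ∀ e ∈ C, ∃ B ∈ 𝓑, x ∈ B ∧ y ∈ B ∧ f B = some e := by
    intro y hy
    set 𝓑y : Finset (Finset (Fin n)) := 𝓑.filter (fun B => x ∈ B ∧ y ∈ B) with h𝓑y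
    have hcover : (univ : Finset (Fin n)) \ {x, y} ⊆ 𝓑y.biUnion (fun B => B \ {x, y}) := by
      intro z hz
      rw [mem_sdiff, mem_insert, mem_singleton, not_or] at hz
      obtain ⟨-, hzx, hzy⟩ := hz
      have hT : ({x, y, z} : Finset (Fin n)).card = 3 := by
        rw [card_eq_three]
        exact ⟨x, y, z, hy.symm, fun h => hzx h.symm, fun h => hzy h.symm, rfl⟩
      obtain ⟨B, ⟨hB, hTB⟩, -⟩ := hB3 {x, y, z} (subset_univ _) hT
      rw [mem_biUnion]
      refine ⟨B, ?_, ?_⟩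
      · rw [h𝓑y, mem_filter]
        exact ⟨hB, hTB (by simp), hTB (by simp)⟩
      · rw [mem_sdiff, mem_insert, mem_singleton, not_or]
        exact ⟨hTB (by simp), hzx, hzy⟩
    have hcard1 : ((univ : Finset (Fin n)) \ {x, y}).card = n - 2 := by
      rw [card_sdiff_of_subset (subset_univ _), card_univ, Fintype.card_fin, card_pair hy.symm]
    have hcard2 : n - 2 ≤ 𝓑y.card * 2 := by
      rw [← hcard1]
      refine (card_le_card hcover).trans (card_biUnion_le_card_mul _ _ _ ?_)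
      intro B hB
      rw [h𝓑y, mem_filter] at hB
      have hsub : ({x, y} : Finset (Fin n)) ⊆ B := by
        intro z hz
        rw [mem_insert, mem_singleton] at hz
        rcases hz with rfl | rfl
        · exact hB.2.1
        · exact hB.2.2
      rw [card_sdiff_of_subset hsub, (hB4 B hB.1).2, card_pair hy.symm]
    have himg : 𝓑y.image f ⊆ C.image some := by
      intro e he
      rw [mem_image] at he
      obtain ⟨B, hB, rfl⟩ := he
      rw [h𝓑y, mem_filter] at hB
      obtain ⟨e', he', h1, -⟩ := hf B hB.1 hB.2.1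
      rw [h1]
      exact mem_image_of_mem _ he'
    have hcardimg : (𝓑y.image f).card = 𝓑y.card := by
      apply card_image_of_injOn
      intro B hB B' hB' hff
      rw [mem_coe, h𝓑y, mem_filter] at hB hB'
      exact hinj B hB.1 B' hB'.1 hB.2.1 hB'.2.1 hff y hy hB.2.2 hB'.2.2
    have hCc : (C.image (some : β → Option β)).card = C.card :=
      card_image_of_injective _ (Option.some_injective β)
    have heq : 𝓑y.image f = C.image some := by
      apply eq_of_subset_of_card_le himg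
      rw [hcardimg, hCc]
      omega
    intro e he
    have h1 : some e ∈ 𝓑y.image f := by
      rw [heq]; exact mem_image_of_mem _ he
    rw [mem_image] at h1
    obtain ⟨B, hB, hfB⟩ := h1
    rw [h𝓑y, mem_filter] at hB
    exact ⟨B, hB.1, hB.2.1, hB.2.2, hfB⟩
  -- the parallel classes
  set cl : β → Finset (Finset (Fin n)) := fun e =>
    (𝓑.filter (fun B => x ∈ B ∧ f B = some e)).image (fun B => B.erase x) with hcl
  have hmem : ∀ e T, T ∈ cl e ↔ ∃ B ∈ 𝓑, x ∈ B ∧ f B = some e ∧ B.erase x = T := by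
    intro e T
    simp only [hcl, mem_image, mem_filter]
    constructor
    · rintro ⟨B, ⟨h1, h2, h3⟩, h4⟩
      exact ⟨B, h1, h2, h3, h4⟩
    · rintro ⟨B, h1, h2, h3, h4⟩
      exact ⟨B, ⟨h1, h2, h3⟩, h4⟩
  refine ⟨C.image cl, ?_, ?_⟩
  · intro Q hQ
    rw [mem_image] at hQ
    obtain ⟨e, he, rfl⟩ := hQ
    refine ⟨?_, ?_, ?_⟩
    · intro T hT
      obtain ⟨B, h1, h2, -, h4⟩ := (hmem e T).1 hT
      rw [derived, mem_image]
      exact ⟨B, mem_filter.2 ⟨h1, h2⟩, h4⟩
    · intro T hT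
      obtain ⟨B, h1, h2, -, rfl⟩ := (hmem e T).1 hT
      exact erase_subset_erase x (subset_univ B)
    · intro y hy
      have hyx : y ≠ x := (mem_erase.1 hy).1
      obtain ⟨B, h1, h2, h3, h4⟩ := hsurj y hyx e he
      refine ⟨B.erase x, ⟨(hmem e _).2 ⟨B, h1, h2, h4, rfl⟩, mem_erase.2 ⟨hyx, h3⟩⟩, ?_⟩
      rintro T ⟨hT1, hT2⟩
      obtain ⟨B', h1', h2', h3', rfl⟩ := (hmem e T).1 hT1
      have hyB' : y ∈ B' := (mem_erase.1 hT2).2
      rw [hinj B' h1' B h1 h2' h2 (by rw [h3', h4]) y hyx hyB' h3]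
  · intro T hT
    rw [derived, mem_image] at hT
    obtain ⟨B, hB, rfl⟩ := hT
    rw [mem_filter] at hB
    obtain ⟨e, he, h1, -⟩ := hf B hB.1 hB.2
    refine ⟨cl e, ⟨mem_image_of_mem _ he, (hmem e _).2 ⟨B, hB.1, hB.2, h1, rfl⟩⟩, ?_⟩
    rintro Q ⟨hQ1, hQ2⟩
    rw [mem_image] at hQ1
    obtain ⟨e', he', rfl⟩ := hQ1
    obtain ⟨B', h1', h2', h3', h4'⟩ := (hmem e' _).1 hQ2
    have hBB : B' = B := by
      rw [← insert_erase h2', h4', insert_erase hB.2]
    rw [hBB, h1] at h3'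
    rw [Option.some.inj h3']

end Pool.Agent.MP_5dff62_co
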