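import Pool.Agent.Work.MP_5dff62_co.Defs

set_option autoImplicit false

/-!
# Module E: the base systems

`RDn 10` and the pair type Boolean system on 16 points, `PRDn 8`.
-/

namespace Pool.Agent.RDS

open Finset

/-! ### systems given by a fourth point function -/

structure BaseF {α : Type} (F : α → α → α → α) : Prop where
  h0 : ∀ x y z, x ≠ y → x ≠ z → y ≠ z → F x y z ≠ x ∧ F x y z ≠ y ∧ F x y z ≠ z
  h1 : ∀ x y z, x ≠ y → x ≠ z → y ≠ z → F y x z = F x y z
  h2 : ∀ x y z, x ≠ y → x ≠ z → y ≠ z → F x z y = F x y z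
  h3 : ∀ x y z, x ≠ y → x ≠ z → y ≠ z → F x y (F x y z) = z

/-- the blocks: closed sets with four elements -/
def bblk {α : Type} [Fintype α] [DecidableEq α] (F : α → α → α → α) : Finset (Finset α) :=
  univ.filter (fun B => B.card = 4 ∧
    ∀ x ∈ B, ∀ y ∈ B, ∀ z ∈ B, x ≠ y → x ≠ z → y ≠ z → F x y z ∈ B)

set_option linter.unusedSectionVars false
set_option linter.unusedVariables false

section
variable {α : Type} [Fintype α] [DecidableEq α] {F : α → α → α → α}

theorem base_mem_bblk {B : Finset α} : B ∈ bblk F ↔ B.card = 4 ∧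
    ∀ x ∈ B, ∀ y ∈ B, ∀ z ∈ B, x ≠ y → x ≠ z → y ≠ z → F x y z ∈ B := by
  simp [bblk]

theorem base_card4 (hF : BaseF F) {x y z : α} (hxy : x ≠ y) (hxz : x ≠ z) (hyz : y ≠ z) :
    ({x, y, z, F x y z} : Finset α).card = 4 := by
  obtain ⟨h1, h2, h3⟩ := hF.h0 x y z hxy hxz hyz
  rw [card_insert_of_notMem, card_insert_of_notMem, card_insert_of_notMem, card_singleton]
  · simpa using h3.symm
  · simp only [mem_insert, mem_singleton, not_or]; exact ⟨hyz, h2.symm⟩
  · simp only [mem_insert, mem_singleton, not_or]; exact ⟨hxy, hxz, h1.symm⟩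

theorem base_block {B : Finset α} (hF : BaseF F) (hB : B ∈ bblk F) {x y z : α} (hx : x ∈ B)
    (hy : y ∈ B) (hz : z ∈ B) (hxy : x ≠ y) (hxz : x ≠ z) (hyz : y ≠ z) :
    B = {x, y, z, F x y z} := by
  obtain ⟨hc, hcl⟩ := base_mem_bblk.1 hB
  symm
  apply eq_of_subset_of_card_le
  · intro t ht
    simp only [mem_insert, mem_singleton] at ht
    rcases ht with rfl | rfl | rfl | rfl
    · exact hx
    · exact hy
    · exact hz
    · exact hcl x hx y hy z hz hxy hxz hyz
  · rw [hc, base_card4 hF hxy hxz hyz]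

theorem base_exists (hF : BaseF F) {x y z : α} (hxy : x ≠ y) (hxz : x ≠ z) (hyz : y ≠ z) :
    ({x, y, z, F x y z} : Finset α) ∈ bblk F := by
  refine base_mem_bblk.2 ⟨base_card4 hF hxy hxz hyz, ?_⟩
  obtain ⟨hw1, hw2, hw3⟩ := hF.h0 x y z hxy hxz hyz
  have e3 := hF.h3 x y z hxy hxz hyz
  have e1 := hF.h1 x y z hxy hxz hyz
  have e2 := hF.h2 x y z hxy hxz hyz
  set w := F x y z with hw
  -- all values
  have sw : ∀ a b c, a ≠ b → a ≠ c → b ≠ c → F b a c = F a b c := hF.h1
  have sw' : ∀ a b c, a ≠ b → a ≠ c → b ≠ c → F a c b = F a b c := hF.h2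
  have fxyw : F x y w = z := e3
  have fxzw : F x z w = y := by
    have := hF.h3 x z y hxz hxy hyz.symm
    rwa [sw' x y z hxy hxz hyz] at this
  have fyzw : F y z w = x := by
    have h := hF.h3 y z x hyz hxy.symm hxz.symm
    have h2 : F y z x = w := by
      rw [sw' y x z hxy.symm hyz hxz, sw x y z hxy hxz hyz]
    rwa [h2] at h
  have fxyz : F x y z = w := hw.symm
  have key : ∀ a b c d : α, a ≠ b → a ≠ c → b ≠ c → F a b c = d →
      d ∈ ({x, y, z, w} : Finset α) →
      F a b c ∈ ({x, y, z, w} : Finset α) ∧ F a c b ∈ ({x, y, z, w} : Finset α) ∧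
      F b a c ∈ ({x, y, z, w} : Finset α) ∧ F b c a ∈ ({x, y, z, w} : Finset α) ∧
      F c a b ∈ ({x, y, z, w} : Finset α) ∧ F c b a ∈ ({x, y, z, w} : Finset α) := by
    intro a b c d hab hac hbc h hd
    have q1 := sw' a b c hab hac hbc
    have q2 := sw a b c hab hac hbc
    have q3 : F b c a = F b a c := sw' b a c hab.symm hbc hac
    have q4 : F c a b = F a c b := sw a c b hac hab hbc.symm
    have q5 : F c b a = F b c a := sw b c a hbc hab.symm hac.symm
    refine ⟨by rw [h]; exact hd, by rw [q1, h]; exact hd, by rw [q2, h]; exact hd,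
      by rw [q3, q2, h]; exact hd, by rw [q4, q1, h]; exact hd, by rw [q5, q3, q2, h]; exact hd⟩
  obtain ⟨a0, a1, a2, a3, a4, a5⟩ := key x y z w hxy hxz hyz fxyz (by simp)
  obtain ⟨b0, b1, b2, b3, b4, b5⟩ := key x y w z hxy hw1.symm hw2.symm fxyw (by simp)
  obtain ⟨c0, c1, c2, c3, c4, c5⟩ := key x z w y hxz hw1.symm hw3.symm fxzw (by simp)
  obtain ⟨d0, d1, d2, d3, d4, d5⟩ := key y z w x hyz hw2.symm hw3.symm fyzw (by simp)
  clear_value w
  clear key sw sw' fxyw fxzw fyzw fxyz hw1 hw2 hw3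
  have all : ∀ a ∈ ({x, y, z, w} : Finset α), ∀ b ∈ ({x, y, z, w} : Finset α),
      ∀ c ∈ ({x, y, z, w} : Finset α), a ≠ b → a ≠ c → b ≠ c →
      F a b c ∈ ({x, y, z, w} : Finset α) := by
    intro a ha b hb c hc hab hac hbc
    have ha' : a = x ∨ a = y ∨ a = z ∨ a = w := by simpa using ha
    have hb' : b = x ∨ b = y ∨ b = z ∨ b = w := by simpa using hb
    have hc' : c = x ∨ c = y ∨ c = z ∨ c = w := by simpa using hc
    clear ha hb hc
    rcases ha' with ha | ha | ha | ha <;> rcases hb' with hb | hb | hb | hb <;>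
      first
      | exact absurd (ha.trans hb.symm) hab
      | (rcases hc' with hc | hc | hc | hc <;>
          first
          | exact absurd (ha.trans hc.symm) hac
          | exact absurd (hb.trans hc.symm) hbc
          | (rw [ha, hb, hc]; assumption))
  exact all

theorem base_sqs (hF : BaseF F) : SQSOn (univ : Finset α) (bblk F) := by
  refine ⟨fun B hB => ⟨subset_univ _, (base_mem_bblk.1 hB).1⟩, ?_⟩
  intro T _ hT
  obtain ⟨x, y, z, hxy, hxz, hyz, rfl⟩ := card_eq_three.1 hT
  refine ⟨{x, y, z, F x y z}, ⟨base_exists hF hxy hxz hyz, ?_⟩, ?_⟩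
  · intro t ht
    simp only [mem_insert, mem_singleton] at ht ⊢
    tauto
  · rintro B ⟨hB, hTB⟩
    exact base_block hF hB (hTB (by simp)) (hTB (by simp)) (hTB (by simp)) hxy hxz hyz

/-- colour function -/
structure BaseK {β : Type} (F : α → α → α → α) (k : α → α → α → β) : Prop where
  k1 : ∀ x y z, x ≠ y → x ≠ z → y ≠ z → k x z y = k x y z
  k2 : ∀ x y z, x ≠ y → x ≠ z → y ≠ z → k x y (F x y z) = k x y z
  k3 : ∀ x y z z', x ≠ y → x ≠ z → y ≠ z → x ≠ z' → y ≠ z' → k x y z = k x y z' →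
    z' = z ∨ z' = F x y z

/-- the colour relation at `x` -/
def bcol {β : Type} (k : α → α → α → β) (x : α) (B : Finset α) (e : β) : Prop :=
  ∀ y ∈ B, ∀ z ∈ B, x ≠ y → x ≠ z → y ≠ z → k x y z = e

theorem base_col {β : Type} {k : α → α → α → β} (hF : BaseF F) (hk : BaseK F k) {x y z : α}
    (hxy : x ≠ y) (hxz : x ≠ z) (hyz : y ≠ z) :
    bcol k x ({x, y, z, F x y z} : Finset α) (k x y z) := by
  obtain ⟨hw1, hw2, hw3⟩ := hF.h0 x y z hxy hxz hyz
  have a1 := hk.k1 x y z hxy hxz hyz
  have a2 := hk.k2 x y z hxy hxz hyz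
  have a3 : k x z (F x y z) = k x y z := by
    have := hk.k2 x z y hxz hxy hyz.symm
    rwa [hF.h2 x y z hxy hxz hyz, a1] at this
  have a4 := hk.k1 x y (F x y z) hxy hw1.symm hw2.symm
  have a5 := hk.k1 x z (F x y z) hxz hw1.symm hw3.symm
  intro a ha b hb h1 h2 h3
  simp only [mem_insert, mem_singleton] at ha hb
  rcases ha with rfl | rfl | rfl | rfl
  · exact absurd rfl h1
  · rcases hb with rfl | rfl | rfl | rfl
    · exact absurd rfl h2
    · exact absurd rfl h3
    · rfl
    · exact a2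
  · rcases hb with rfl | rfl | rfl | rfl
    · exact absurd rfl h2
    · exact a1
    · exact absurd rfl h3
    · exact a3
  · rcases hb with rfl | rfl | rfl | rfl
    · exact absurd rfl h2
    · rw [a4, a2]
    · rw [a5, a3]
    · exact absurd rfl h3

/-- three points of a block through `x` -/
theorem base_three {B : Finset α} (hF : BaseF F) (hB : B ∈ bblk F) {x y : α} (hx : x ∈ B)
    (hy : y ∈ B) (hxy : x ≠ y) : ∃ z ∈ B, x ≠ z ∧ y ≠ z := by
  have hc := (base_mem_bblk.1 hB).1
  have h : 0 < ((B.erase x).erase y).card := by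
    rw [card_erase_of_mem (mem_erase.2 ⟨hxy.symm, hy⟩), card_erase_of_mem hx, hc]
    norm_num
  obtain ⟨z, hz⟩ := card_pos.1 h
  rw [mem_erase, mem_erase] at hz
  exact ⟨z, hz.2.2, hz.2.1.symm, hz.1.symm⟩

theorem base_two {B : Finset α} (hB : B ∈ bblk F) {x : α} (hx : x ∈ B) : ∃ y ∈ B, x ≠ y := by
  have hc := (base_mem_bblk.1 hB).1
  have h : 0 < (B.erase x).card := by
    rw [card_erase_of_mem hx, hc]
    norm_num
  obtain ⟨y, hy⟩ := card_pos.1 h
  rw [mem_erase] at hy
  exact ⟨y, hy.2, hy.1.symm⟩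

theorem base_col_exists {β : Type} {k : α → α → α → β} (hF : BaseF F) (hk : BaseK F k)
    {B : Finset α} (hB : B ∈ bblk F) {x : α} (hx : x ∈ B) :
    ∃ y z, x ≠ y ∧ x ≠ z ∧ y ≠ z ∧ bcol k x B (k x y z) := by
  obtain ⟨y, hy, hxy⟩ := base_two hB hx
  obtain ⟨z, hz, hxz, hyz⟩ := base_three hF hB hx hy hxy
  refine ⟨y, z, hxy, hxz, hyz, ?_⟩
  have h := base_col hF hk hxy hxz hyz
  rwa [← base_block hF hB hx hy hz hxy hxz hyz] at h

theorem base_col_unique {β : Type} {k : α → α → α → β} (hF : BaseF F) (hk : BaseK F k)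
    {B B' : Finset α} (hB : B ∈ bblk F) (hB' : B' ∈ bblk F) {x y : α} {e : β} (hxy : y ≠ x)
    (hx : x ∈ B) (hx' : x ∈ B') (hy : y ∈ B) (hy' : y ∈ B') (h : bcol k x B e)
    (h' : bcol k x B' e) : B = B' := by
  obtain ⟨z, hz, hxz, hyz⟩ := base_three hF hB hx hy hxy.symm
  obtain ⟨z', hz', hxz', hyz'⟩ := base_three hF hB' hx' hy' hxy.symm
  have e1 := h y hy z hz hxy.symm hxz hyz
  have e2 := h' y hy' z' hz' hxy.symm hxz' hyz'
  have hzB : z' ∈ B := by
    rcases hk.k3 x y z z' hxy.symm hxz hyz hxz' hyz' (e1.trans e2.symm) with r | r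
    · rw [r]; exact hz
    · rw [r]; exact (base_mem_bblk.1 hB).2 x hx y hy z hz hxy.symm hxz hyz
  rw [base_block hF hB hx hy hzB hxy.symm hxz' hyz',
    base_block hF hB' hx' hy' hz' hxy.symm hxz' hyz']

theorem base_rd {m : ℕ} {k : α → α → α → ℕ} (hF : BaseF F) (hk : BaseK F k)
    (hm : ∀ x y z, k x y z < m) (hc : 2 * m + 2 ≤ Fintype.card α) :
    RD (univ : Finset α) (bblk F) := by
  refine ⟨base_sqs hF, fun x _ => ⟨ℕ, range m, bcol k x, ?_, ?_, ?_⟩⟩
  · rw [card_range, card_univ]; exact hc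
  · intro B hB hx
    obtain ⟨y, z, -, -, -, h⟩ := base_col_exists hF hk hB hx
    exact ⟨_, mem_range.2 (hm x y z), h⟩
  · intro B hB B' hB' e _ y hyx hx hx' hy hy' h h'
    exact base_col_unique hF hk hB hB' hyx hx hx' hy hy' h h'

end

/-! ### the cyclic SQS(10) -/

def base_f (u v : Fin 10) : Fin 10 :=
  Fin.ofNat 10 ((44409776152830260653026112651224470498439913514446560761739670022040774287914586815007429870757109146732972787850280960 >>> (4 * (10 * u.val + v.val))) % 16)

def base_k (u v : Fin 10) : ℕ :=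
  (674790093840372854125554020729834141642367625226586537356400831667892454465876401222622845692260980857042962594398208 >>> (4 * (10 * u.val + v.val))) % 4

def base_F (x y z : Fin 10) : Fin 10 := x + base_f (y - x) (z - x)
def base_kk (x y z : Fin 10) : ℕ := base_k (y - x) (z - x)

theorem base_F10 : BaseF base_F where
  h0 := by decide +kernel
  h1 := by decide +kernel
  h2 := by decide +kernel
  h3 := by decide +kernel

theorem base_K10 : BaseK base_F base_kk where
  k1 := by decide +kernel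
  k2 := by decide +kernel
  k3 := by decide +kernel

theorem rdn_ten : RDn 10 :=
  ⟨bblk base_F, base_rd base_F10 base_K10 (m := 4)
    (fun x y z => Nat.mod_lt _ (by norm_num)) (by simp)⟩

/-! ### the Boolean system -/

/-- table of a resolution of the lines of `PG(3,2)` -/
def base_t (u v : ℕ) : ℕ :=
  (5143939401645175043966551300946326714837368623928203555603211897163477328569291501285916995033333767421518323006470226320784928731585784540400140750661078996591951774738611052120086108994288211577900972951382739602096901108535422070004135681826654370625646801812070865819209673019391608386849637759860080640 >>> (4 * (16 * u + v))) % 8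

theorem base_t1 : ∀ u v : Fin 16, base_t u v = base_t v u := by decide +kernel

theorem base_t2 : ∀ u v : Fin 16, u ≠ 0 → v ≠ 0 → u ≠ v →
    base_t u (u ^^^ v : Fin 16) = base_t u v := by decide +kernel

theorem base_t3 : ∀ u v v' : Fin 16, u ≠ 0 → v ≠ 0 → u ≠ v → v' ≠ 0 → u ≠ v' →
    base_t u v = base_t u v' → v' = v ∨ v' = u ^^^ v := by decide +kernel

theorem base_t4 : ∀ u v : Fin 16, u ≠ 0 → v ≠ 0 → u ≠ v → base_t u v ≠ 0 := by decide +kernel

def base_G (x y z : Fin 16) : Fin 16 := x ^^^ y ^^^ z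
def base_g (x y z : Fin 16) : ℕ := base_t (x ^^^ y : Fin 16) (x ^^^ z : Fin 16) - 1

theorem base_x1 : ∀ x y : Fin 16, x ^^^ (x ^^^ y) = y := by decide +kernel
theorem base_x2 : ∀ x y : Fin 16, x ≠ y → x ^^^ y ≠ 0 := by decide +kernel
theorem base_x3 : ∀ x y z : Fin 16, y ≠ z → x ^^^ y ≠ x ^^^ z := by decide +kernel
theorem base_x4 : ∀ x y z : Fin 16, x ^^^ (x ^^^ y ^^^ z) = (x ^^^ y) ^^^ (x ^^^ z) := by
  decide +kernel
theorem base_x5 : ∀ x y z : Fin 16, x ^^^ ((x ^^^ y) ^^^ (x ^^^ z)) = x ^^^ y ^^^ z := by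
  decide +kernel

theorem base_G16 : BaseF base_G where
  h0 := by decide +kernel
  h1 := by decide +kernel
  h2 := by decide +kernel
  h3 := by decide +kernel

theorem base_K16 : BaseK base_G base_g where
  k1 := fun x y z _ _ _ => by
    unfold base_g
    rw [base_t1]
  k2 := fun x y z hxy hxz hyz => by
    unfold base_g base_G
    rw [base_x4, base_t2 _ _ (base_x2 x y hxy) (base_x2 x z hxz) (base_x3 x y z hyz)]
  k3 := fun x y z z' hxy hxz hyz hxz' hyz' h => by
    unfold base_g at h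
    have h1 := base_t4 _ _ (base_x2 x y hxy) (base_x2 x z hxz) (base_x3 x y z hyz)
    have h2 := base_t4 _ _ (base_x2 x y hxy) (base_x2 x z' hxz') (base_x3 x y z' hyz')
    have h3 : base_t (x ^^^ y : Fin 16) (x ^^^ z : Fin 16) =
        base_t (x ^^^ y : Fin 16) (x ^^^ z' : Fin 16) := by omega
    rcases base_t3 _ _ _ (base_x2 x y hxy) (base_x2 x z hxz) (base_x3 x y z hyz)
      (base_x2 x z' hxz') (base_x3 x y z' hyz') h3 with r | r
    · left
      rw [← base_x1 x z', r, base_x1]
    · right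
      rw [← base_x1 x z', r, base_x5]
      rfl

theorem rdn_sixteen : RDn 16 :=
  ⟨bblk base_G, base_rd base_G16 base_K16 (m := 7)
    (fun x y z => by
      have : base_t (x ^^^ y : Fin 16) (x ^^^ z : Fin 16) < 8 := Nat.mod_lt _ (by norm_num)
      unfold base_g
      omega) (by simp)⟩

/-! pair type -/

/-- code of a point -/
def base_c (x : Fin 8 × Bool) : ℕ := 2 * x.1.val + x.2.toNat

def base_H (x y z : Fin 8 × Bool) : Fin 8 × Bool :=
  (x.1 ^^^ y.1 ^^^ z.1, xor x.2 (xor y.2 z.2))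

def base_d (x y : Fin 8 × Bool) : Fin 8 × Bool := (x.1 ^^^ y.1, xor x.2 y.2)

def base_w (u v : Fin 8 × Bool) : Fin 8 := Fin.ofNat 8 (base_t (base_c u) (base_c v))

def base_h (x y z : Fin 8 × Bool) : Fin 8 := x.1 ^^^ base_w (base_d x y) (base_d x z)

theorem base_w1 : ∀ u v : Fin 8 × Bool, base_w u v = base_w v u := by decide +kernel

theorem base_w2 : ∀ u v : Fin 8 × Bool, u ≠ (0, false) → v ≠ (0, false) → u ≠ v →
    base_w u (base_d u v) = base_w u v := by decide +kernel

theorem base_w3' : ∀ u v v' : Fin 8 × Bool, u = (0, false) ∨ v = (0, false) ∨ u = v ∨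
    v' = (0, false) ∨ u = v' ∨ base_w u v ≠ base_w u v' ∨ v' = v ∨ v' = base_d u v := by
  decide +kernel

theorem base_w3 (u v v' : Fin 8 × Bool) (h1 : u ≠ (0, false)) (h2 : v ≠ (0, false)) (h3 : u ≠ v)
    (h4 : v' ≠ (0, false)) (h5 : u ≠ v') (h6 : base_w u v = base_w u v') :
    v' = v ∨ v' = base_d u v := by
  rcases base_w3' u v v' with h | h | h | h | h | h | h | h
  · exact absurd h h1
  · exact absurd h h2
  · exact absurd h h3
  · exact absurd h h4
  · exact absurd h h5
  · exact absurd h6 h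
  · exact Or.inl h
  · exact Or.inr h

theorem base_w4 : ∀ u v : Fin 8 × Bool, u ≠ (0, false) → v ≠ (0, false) → u ≠ v →
    base_w u v ≠ 0 := by decide +kernel

theorem base_y1 : ∀ x y : Fin 8 × Bool, base_d x (base_d x y) = y := by decide +kernel
theorem base_y2 : ∀ x y : Fin 8 × Bool, x ≠ y → base_d x y ≠ (0, false) := by decide +kernel
theorem base_y3 : ∀ x y z : Fin 8 × Bool, y ≠ z → base_d x y ≠ base_d x z := by decide +kernel
theorem base_y4 : ∀ x y z : Fin 8 × Bool,
    base_d x (base_H x y z) = base_d (base_d x y) (base_d x z) := by decide +kernel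
theorem base_y5 : ∀ x y z : Fin 8 × Bool,
    base_d x (base_d (base_d x y) (base_d x z)) = base_H x y z := by decide +kernel
theorem base_y6 : ∀ a b c : Fin 8, a ^^^ b = a ^^^ c → b = c := by decide +kernel
theorem base_y7 : ∀ a b : Fin 8, b ≠ 0 → a ^^^ b ≠ a := by decide +kernel

theorem base_H8 : BaseF base_H where
  h0 := by decide +kernel
  h1 := by decide +kernel
  h2 := by decide +kernel
  h3 := by decide +kernel

theorem base_K8 : BaseK base_H base_h where
  k1 := fun x y z _ _ _ => by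
    unfold base_h
    rw [base_w1]
  k2 := fun x y z hxy hxz hyz => by
    unfold base_h
    rw [base_y4, base_w2 _ _ (base_y2 x y hxy) (base_y2 x z hxz) (base_y3 x y z hyz)]
  k3 := fun x y z z' hxy hxz hyz hxz' hyz' h => by
    unfold base_h at h
    have h3 := base_y6 _ _ _ h
    rcases base_w3 _ _ _ (base_y2 x y hxy) (base_y2 x z hxz) (base_y3 x y z hyz)
      (base_y2 x z' hxz') (base_y3 x y z' hyz') h3 with r | r
    · left
      rw [← base_y1 x z', r, base_y1]
    · right
      rw [← base_y1 x z', r, base_y5]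

/-- elements of a pair block -/
theorem base_mem_pb {a b : Fin 8} {y : Fin 8 × Bool} (hy : y ∈ pb a b) :
    ∃ s j : Bool, y = (cond s b a, j) := by
  obtain ⟨y1, y2⟩ := y
  simp only [pb, mem_product, mem_insert, mem_singleton, mem_univ, and_true] at hy
  rcases hy with h | h
  · exact ⟨false, y2, by simp [h]⟩
  · exact ⟨true, y2, by simp [h]⟩

theorem base_pb_col : ∀ (a b : Fin 8) (i s j t l : Bool), b ≠ a →
    (a, i) ≠ (cond s b a, j) → (a, i) ≠ (cond t b a, l) → (cond s b a, j) ≠ (cond t b a, l) →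
    base_h (a, i) (cond s b a, j) (cond t b a, l) = b := by decide +kernel

theorem base_pb_cl : ∀ (a b : Fin 8) (s i t j u l : Bool),
    (cond s b a, i) ≠ (cond t b a, j) → (cond s b a, i) ≠ (cond u b a, l) →
    (cond t b a, j) ≠ (cond u b a, l) →
    (base_H (cond s b a, i) (cond t b a, j) (cond u b a, l)).1 = a ∨
    (base_H (cond s b a, i) (cond t b a, j) (cond u b a, l)).1 = b := by decide +kernel

theorem base_pb_mem {a b : Fin 8} (hab : a ≠ b) : pb a b ∈ bblk base_H := by
  refine base_mem_bblk.2 ⟨?_, ?_⟩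
  · simp [pb, hab]
  · intro x hx y hy z hz hxy hxz hyz
    obtain ⟨s, i, rfl⟩ := base_mem_pb hx
    obtain ⟨t, j, rfl⟩ := base_mem_pb hy
    obtain ⟨u, l, rfl⟩ := base_mem_pb hz
    have h := base_pb_cl a b s i t j u l hxy hxz hyz
    simp only [pb, mem_product, mem_insert, mem_singleton, mem_univ, and_true]
    exact h

theorem prdn_eight : PRDn 8 := by
  refine ⟨bblk base_H, ?_, fun a _ b _ hab => base_pb_mem hab, ?_⟩
  · have h := base_sqs base_H8
    rwa [univ_product_univ]
  · intro a _ i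
    refine ⟨bcol base_h (a, i), ?_, ?_, ?_⟩
    · intro B hB hx
      obtain ⟨y, z, h1, h2, h3, h⟩ := base_col_exists base_H8 base_K8 hB hx
      refine ⟨_, mem_univ _, ?_, h⟩
      exact base_y7 _ _ (base_w4 _ _ (base_y2 _ _ h1) (base_y2 _ _ h2) (base_y3 _ _ _ h3))
    · intro B hB B' hB' e _ y hyx hx hx' hy hy' h h'
      exact base_col_unique base_H8 base_K8 hB hB' hyx hx hx' hy hy' h h'
    · intro b _ hba y hy z hz h1 h2 h3
      obtain ⟨s, j, rfl⟩ := base_mem_pb hy
      obtain ⟨t, l, rfl⟩ := base_mem_pb hz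
      exact base_pb_col a b i s j t l hba h1 h2 h3

end Pool.Agent.RDS
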