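import Pool.Agent.Work.MP_5dff62_co.Defs

set_option autoImplicit false

/-!
# Module C: transport and the closure theorem

Proof of `closure`.  `V = X ×ˢ univ`.  For `Y ∈ 𝒴` fix `𝓑Y` on `Y ×ˢ univ` with `RD`, for `B ∈ D`
fix `𝓑B` on `B ×ˢ univ` with `PRD`.  Blocks: (i) all members of `𝓑Y`, `Y ∈ 𝒴`; (ii) the members of
`𝓑B`, `B ∈ D`, which are not pair blocks; (iii) `pb a b` for `a ≠ b` in `X` such that no `Y ∈ 𝒴`
contains `{a,b}`.
Facts: a member of `𝓑B` (`B ∈ D`) containing `(a,0)` and `(a,1)` is a pair block (it contains a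
third point `(b,j)`, and `pb a b` contains these three points).
SQS: a 3-set with three different first coordinates lies over a 3-subset of `X`, contained in a
unique member of `𝒴 ∪ D`.  A 3-set `{(a,0),(a,1),(b,j)}`: if `{a,b} ⊆ Y ∈ 𝒴` (unique `Y`), the
block of `𝓑Y`; otherwise `pb a b`.
Colours at `(a,i)`: `β = ℕ`, `C = X.erase a`, `P B' e :=`
`(∃ Y ∈ 𝒴, B' ∈ 𝓑Y ∧ e = φ_Y (a colour of B'))` with `φ_Y` an injection of the colour set of `𝓑Y`
at `(a,i)` into `Y.erase a`, or `(∃ B ∈ D, B' ∈ 𝓑B, B' not a pair block, P_B B' e)`, or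
(`e ∉ all Y ∋ a`, `B' = pb a e`).
-/

namespace Pool.Agent.RDS

open Finset

theorem Closure_SQS_map {α γ : Type} [DecidableEq α] [DecidableEq γ] {V : Finset α}
    {𝓑 : Finset (Finset α)} (f : α → γ) (hf : Set.InjOn f V) (h : SQSOn V 𝓑) :
    SQSOn (V.image f) (𝓑.image (Finset.image f)) := by
  refine ⟨?_, ?_⟩
  · intro B hB
    obtain ⟨B0, hB0, rfl⟩ := Finset.mem_image.1 hB
    obtain ⟨h1, h2⟩ := h.1 B0 hB0
    refine ⟨Finset.image_subset_image h1, ?_⟩
    rw [Finset.card_image_of_injOn (hf.mono (by exact_mod_cast h1)), h2]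
  · intro T hT hT3
    set T0 := V.filter (fun x => f x ∈ T) with hT0
    have himg : T0.image f = T := by
      ext y
      simp only [hT0, Finset.mem_image, Finset.mem_filter]
      constructor
      · rintro ⟨x, ⟨_, hx⟩, rfl⟩; exact hx
      · intro hy
        obtain ⟨x, hx, rfl⟩ := Finset.mem_image.1 (hT hy)
        exact ⟨x, ⟨hx, hy⟩, rfl⟩
    have hsub : T0 ⊆ V := Finset.filter_subset _ _
    have hc : T0.card = 3 := by
      rw [← hT3, ← himg, Finset.card_image_of_injOn (hf.mono (by exact_mod_cast hsub))]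
    obtain ⟨B, ⟨hB, hTB⟩, huniq⟩ := h.2 T0 hsub hc
    refine ⟨B.image f, ⟨Finset.mem_image_of_mem _ hB, ?_⟩, ?_⟩
    · rw [← himg]; exact Finset.image_subset_image hTB
    · rintro B' ⟨hB', hTB'⟩
      obtain ⟨B1, hB1, rfl⟩ := Finset.mem_image.1 hB'
      have : T0 ⊆ B1 := by
        intro x hx
        have hx' := Finset.mem_filter.1 hx
        obtain ⟨y, hy, hyx⟩ := Finset.mem_image.1 (hTB' hx'.2)
        have hyV : y ∈ V := (h.1 B1 hB1).1 hy
        have := hf (by exact_mod_cast hyV) (by exact_mod_cast hx'.1) hyx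
        rwa [← this]
      rw [huniq B1 ⟨hB1, this⟩]

theorem Closure_image_inj {α γ : Type} [DecidableEq α] [DecidableEq γ] {V : Finset α}
    (f : α → γ) (hf : Set.InjOn f V) {B B' : Finset α} (hB : B ⊆ V) (hB' : B' ⊆ V)
    (h : B.image f = B'.image f) : B = B' := by
  have key : ∀ {B B' : Finset α}, B ⊆ V → B' ⊆ V → B.image f = B'.image f → B ⊆ B' := by
    intro B B' hB hB' h x hx
    have h1 : f x ∈ B'.image f := by rw [← h]; exact Finset.mem_image_of_mem _ hx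
    obtain ⟨y, hy, hyx⟩ := Finset.mem_image.1 h1
    have := hf (by exact_mod_cast hB' hy) (by exact_mod_cast hB hx) hyx
    rwa [← this]
  exact Finset.Subset.antisymm (key hB hB' h) (key hB' hB h.symm)

theorem Closure_mem_of_mem_image {α γ : Type} [DecidableEq α] [DecidableEq γ] {V : Finset α}
    (f : α → γ) (hf : Set.InjOn f V) {B : Finset α} (hB : B ⊆ V) {x : α} (hx : x ∈ V)
    (h : f x ∈ B.image f) : x ∈ B := by
  obtain ⟨y, hy, hyx⟩ := Finset.mem_image.1 h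
  have := hf (by exact_mod_cast hB hy) (by exact_mod_cast hx) hyx
  rwa [← this]

theorem Closure_RD_map {α γ : Type} [DecidableEq α] [DecidableEq γ] {V : Finset α}
    {𝓑 : Finset (Finset α)} (f : α → γ) (hf : Set.InjOn f V) (h : RD V 𝓑) :
    RD (V.image f) (𝓑.image (Finset.image f)) := by
  refine ⟨Closure_SQS_map f hf h.1, ?_⟩
  intro z hz
  obtain ⟨x, hx, rfl⟩ := Finset.mem_image.1 hz
  obtain ⟨β, C, P, hC, hP1, hP2⟩ := h.2 x hx
  have hsub : ∀ B ∈ 𝓑, B ⊆ V := fun B hB => (h.1.1 B hB).1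
  refine ⟨β, C, fun B e => ∃ B0 ∈ 𝓑, B = B0.image f ∧ P B0 e, ?_, ?_, ?_⟩
  · rwa [Finset.card_image_of_injOn hf]
  · intro B hB hxB
    obtain ⟨B0, hB0, rfl⟩ := Finset.mem_image.1 hB
    obtain ⟨e, he, hPe⟩ := hP1 B0 hB0 (Closure_mem_of_mem_image f hf (hsub B0 hB0) hx hxB)
    exact ⟨e, he, B0, hB0, rfl, hPe⟩
  · rintro B hB B' hB' e he y hyx hxB hxB' hyB hyB' ⟨B0, hB0, rfl, hPe⟩ ⟨B1, hB1, rfl, hPe'⟩
    obtain ⟨y0, hy0, rfl⟩ := Finset.mem_image.1 hyB
    have hy0V := hsub B0 hB0 hy0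
    rw [hP2 B0 hB0 B1 hB1 e he y0 (fun h => hyx (by rw [h]))
      (Closure_mem_of_mem_image f hf (hsub B0 hB0) hx hxB)
      (Closure_mem_of_mem_image f hf (hsub B1 hB1) hx hxB') hy0
      (Closure_mem_of_mem_image f hf (hsub B1 hB1) hy0V hyB') hPe hPe']

theorem RDn_on {α : Type} [DecidableEq α] {n : ℕ} (h : RDn n) (V : Finset α) (hV : V.card = n) :
    ∃ 𝓑 : Finset (Finset α), RD V 𝓑 := by
  obtain ⟨𝓑, h𝓑⟩ := h
  let e : Fin n ≃ V := (V.equivFinOfCardEq hV).symm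
  have := Closure_RD_map (fun i => (e i : α))
    (fun x _ y _ hxy => e.injective (Subtype.ext hxy)) h𝓑
  have him : (univ : Finset (Fin n)).image (fun i => (e i : α)) = V := by
    ext x
    simp only [Finset.mem_image, Finset.mem_univ, true_and]
    constructor
    · rintro ⟨i, rfl⟩; exact (e i).2
    · intro hx; exact ⟨e.symm ⟨x, hx⟩, by simp⟩
  rw [him] at this
  exact ⟨_, this⟩

theorem RD_RDn {α : Type} [DecidableEq α] {V : Finset α} {𝓑 : Finset (Finset α)} (h : RD V 𝓑) :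
    RDn V.card := by
  rcases V.eq_empty_or_nonempty with hV | hV
  · subst hV
    refine ⟨∅, ⟨⟨fun B hB => absurd hB (Finset.notMem_empty B), ?_⟩, ?_⟩⟩
    · intro T hT hT3
      exfalso
      have h1 := Finset.card_le_univ T
      rw [Fintype.card_fin] at h1
      have h2 : (∅ : Finset α).card = 0 := Finset.card_empty
      omega
    · intro x; exact absurd x.2 (by simp)
  · have hpos : 0 < V.card := hV.card_pos
    let f : α → Fin V.card := fun x => if hx : x ∈ V then V.equivFin ⟨x, hx⟩ else ⟨0, hpos⟩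
    have hf : Set.InjOn f V := by
      intro x hx y hy hxy
      have hx' : x ∈ V := hx
      have hy' : y ∈ V := hy
      simp only [f, dif_pos hx', dif_pos hy'] at hxy
      have := V.equivFin.injective hxy
      exact congrArg Subtype.val this
    have := Closure_RD_map f hf h
    have him : V.image f = univ := by
      apply Finset.eq_univ_of_card
      rw [Finset.card_image_of_injOn hf, Fintype.card_fin]
    rw [him] at this
    exact ⟨_, this⟩

theorem Closure_pb_image {α γ : Type} [DecidableEq α] [DecidableEq γ] (f : α → γ) (a b : α) :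
    (pb a b).image (Prod.map f id) = pb (f a) (f b) := by
  ext ⟨x, i⟩
  simp only [pb, Finset.mem_image, Finset.mem_product, Finset.mem_insert, Finset.mem_singleton,
    Finset.mem_univ, and_true, Prod.exists, Prod.map_apply, id_eq, Prod.mk.injEq]
  constructor
  · rintro ⟨y, j, hy, rfl, rfl⟩
    rcases hy with rfl | rfl
    · exact Or.inl rfl
    · exact Or.inr rfl
  · rintro (rfl | rfl)
    · exact ⟨a, i, Or.inl rfl, rfl, rfl⟩
    · exact ⟨b, i, Or.inr rfl, rfl, rfl⟩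

theorem PRDn_on {α : Type} [DecidableEq α] {k : ℕ} (h : PRDn k) (X : Finset α) (hX : X.card = k) :
    ∃ 𝓑 : Finset (Finset (α × Bool)), PRD X 𝓑 := by
  obtain ⟨𝓑, h1, h2, h3⟩ := h
  let e : Fin k ≃ X := (X.equivFinOfCardEq hX).symm
  set f : Fin k → α := fun i => (e i : α) with hfdef
  have hfi : Function.Injective f := fun x y hxy => e.injective (Subtype.ext hxy)
  have hgi : Function.Injective (Prod.map f (id : Bool → Bool)) :=
    hfi.prodMap Function.injective_id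
  have hfX : ∀ i, f i ∈ X := fun i => (e i).2
  have hfs : ∀ x ∈ X, ∃ i, f i = x := fun x hx => ⟨e.symm ⟨x, hx⟩, by simp [hfdef]⟩
  have him : ((univ : Finset (Fin k)) ×ˢ (univ : Finset Bool)).image (Prod.map f id) =
      X ×ˢ (univ : Finset Bool) := by
    ext ⟨x, i⟩
    simp only [Finset.mem_image, Finset.mem_product, Finset.mem_univ, and_true, true_and,
      Prod.exists, Prod.map_apply, id_eq, Prod.mk.injEq]
    constructor
    · rintro ⟨a, b, rfl, rfl⟩; exact hfX a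
    · intro hx
      obtain ⟨a, rfl⟩ := hfs x hx
      exact ⟨a, i, rfl, rfl⟩
  have hmem : ∀ (B : Finset (Fin k × Bool)) (y : Fin k × Bool),
      Prod.map f id y ∈ B.image (Prod.map f id) ↔ y ∈ B := fun B y =>
    ⟨fun hy => by
      obtain ⟨z, hz, hzy⟩ := Finset.mem_image.1 hy
      rwa [← hgi hzy], fun hy => Finset.mem_image_of_mem _ hy⟩
  refine ⟨𝓑.image (Finset.image (Prod.map f id)), ?_, ?_, ?_⟩
  · have := Closure_SQS_map (Prod.map f id) hgi.injOn h1
    rwa [him] at this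
  · intro a ha b hb hab
    obtain ⟨a, rfl⟩ := hfs a ha
    obtain ⟨b, rfl⟩ := hfs b hb
    rw [← Closure_pb_image]
    exact Finset.mem_image_of_mem _ (h2 a (mem_univ _) b (mem_univ _) (fun h => hab (by rw [h])))
  · intro a ha i
    obtain ⟨a, rfl⟩ := hfs a ha
    obtain ⟨P, hP1, hP2, hP3⟩ := h3 a (mem_univ _) i
    refine ⟨fun B e => ∃ B0 ∈ 𝓑, ∃ e0, B = B0.image (Prod.map f id) ∧ f e0 = e ∧ P B0 e0,
      ?_, ?_, ?_⟩
    · intro B hB haB
      obtain ⟨B0, hB0, rfl⟩ := Finset.mem_image.1 hB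
      obtain ⟨e0, _, he0, hPe⟩ := hP1 B0 hB0 ((hmem B0 (a, i)).1 haB)
      exact ⟨f e0, hfX e0, fun h => he0 (hfi h), B0, hB0, e0, rfl, rfl, hPe⟩
    · rintro B hB B' hB' e he y hyx hxB hxB' hyB hyB' ⟨B0, hB0, e0, rfl, rfl, hPe⟩
        ⟨B1, hB1, e1, rfl, he1, hPe'⟩
      have := hfi he1
      subst this
      obtain ⟨y0, hy0, rfl⟩ := Finset.mem_image.1 hyB
      rw [hP2 B0 hB0 B1 hB1 e1 (mem_univ _) y0 (fun h => hyx (by rw [h]; rfl))
        ((hmem B0 (a, i)).1 hxB) ((hmem B1 (a, i)).1 hxB') hy0 ((hmem B1 y0).1 hyB') hPe hPe']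
    · intro b hb hba
      obtain ⟨b, rfl⟩ := hfs b hb
      have hab : a ≠ b := fun h => hba (by rw [h])
      refine ⟨pb a b, h2 a (mem_univ _) b (mem_univ _) hab, b, (Closure_pb_image f a b).symm, rfl,
        hP3 b (mem_univ _) hab.symm⟩

/-- members of a pair block -/
theorem Closure_mem_pb {α : Type} [DecidableEq α] {a b x : α} {i : Bool} :
    (x, i) ∈ pb a b ↔ x = a ∨ x = b := by
  simp [pb]

theorem Closure_pb_comm {α : Type} [DecidableEq α] (a b : α) : pb a b = pb b a := by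
  ext ⟨x, i⟩
  rw [Closure_mem_pb, Closure_mem_pb, or_comm]

/-- transversal sets. -/
def Tr (B : Finset (ℕ × Bool)) : Prop := ∀ a, ¬ ((a, false) ∈ B ∧ (a, true) ∈ B)

theorem Closure_Tr_ne {B : Finset (ℕ × Bool)} (h : Tr B) {a b : ℕ} {i j : Bool}
    (h1 : (a, i) ∈ B) (h2 : (b, j) ∈ B) (h3 : (b, j) ≠ (a, i)) : b ≠ a := by
  rintro rfl
  cases i <;> cases j
  · exact h3 rfl
  · exact h b ⟨h1, h2⟩
  · exact h b ⟨h2, h1⟩
  · exact h3 rfl

/-- a 3-set is transversal or contains two points over the same first coordinate. -/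
theorem Closure_three (T : Finset (ℕ × Bool)) (hT : T.card = 3) :
    (Tr T ∧ (T.image Prod.fst).card = 3) ∨
    ∃ a b j, a ≠ b ∧ T = {(a, false), (a, true), (b, j)} := by
  by_cases h : Tr T
  · left
    refine ⟨h, ?_⟩
    rw [Finset.card_image_of_injOn, hT]
    rintro ⟨a, i⟩ ha ⟨b, j⟩ hb hab
    simp only at hab
    subst hab
    by_contra hne
    exact Closure_Tr_ne h ha hb (fun h => hne h.symm) rfl
  · right
    unfold Tr at h
    push Not at h
    obtain ⟨a, h1, h2⟩ := h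
    have hsub : ({(a, false), (a, true)} : Finset (ℕ × Bool)) ⊆ T := by
      intro x hx
      simp only [Finset.mem_insert, Finset.mem_singleton] at hx
      rcases hx with rfl | rfl
      · exact h1
      · exact h2
    have hc2 : ({(a, false), (a, true)} : Finset (ℕ × Bool)).card = 2 := by
      rw [Finset.card_pair]; simp
    obtain ⟨⟨b, j⟩, hx, hins⟩ : ∃ x, x ∉ ({(a, false), (a, true)} : Finset (ℕ × Bool)) ∧
        insert x {(a, false), (a, true)} = T := by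
      have := Finset.exists_eq_insert_iff.2 ⟨hsub, by rw [hc2, hT]⟩
      obtain ⟨x, hx, hins⟩ := this
      exact ⟨x, hx, hins⟩
    refine ⟨a, b, j, ?_, ?_⟩
    · rintro rfl
      apply hx
      cases j <;> simp
    · rw [← hins]
      ext x
      simp only [Finset.mem_insert, Finset.mem_singleton]
      tauto

/-- transfer of the colouring to a given set of colours. -/
theorem Closure_col {α : Type} [DecidableEq α] {V : Finset α} {𝓑 : Finset (Finset α)} {x : α}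
    (h : ColAt V 𝓑 x) (S : Finset ℕ) (hS : V.card ≤ 2 * S.card + 2) :
    ∃ P : Finset α → ℕ → Prop, (∀ B ∈ 𝓑, x ∈ B → ∃ e ∈ S, P B e) ∧
      ∀ B ∈ 𝓑, ∀ B' ∈ 𝓑, ∀ e, ∀ y, y ≠ x → x ∈ B → x ∈ B' → y ∈ B → y ∈ B' →
        P B e → P B' e → B = B' := by
  obtain ⟨β, C, P, hC, hP1, hP2⟩ := h
  have hle : Fintype.card C ≤ S.card := by
    rw [Fintype.card_coe]; omega
  obtain ⟨φ, hφ⟩ := Function.Embedding.exists_of_card_le_finset hle
  refine ⟨fun B e => ∃ e0 : C, φ e0 = e ∧ P B e0, ?_, ?_⟩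
  · intro B hB hx
    obtain ⟨e, he, hPe⟩ := hP1 B hB hx
    exact ⟨φ ⟨e, he⟩, hφ ⟨_, rfl⟩, ⟨e, he⟩, rfl, hPe⟩
  · rintro B hB B' hB' e y hy h1 h2 h3 h4 ⟨e0, he0, hPe⟩ ⟨e1, he1, hPe'⟩
    have : e0 = e1 := φ.injective (he0.trans he1.symm)
    subst this
    exact hP2 B hB B' hB' e0 e0.2 y hy h1 h2 h3 h4 hPe hPe'

/-- Closure theorem: `𝒴` are the exceptional members, `D` the regular ones. -/
theorem closure (X : Finset ℕ) (𝒴 D : Finset (Finset ℕ)) (hdis : Disjoint 𝒴 D)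
    (hY : ∀ Y ∈ 𝒴, Y ⊆ X ∧ RDn (2 * Y.card)) (hD : ∀ B ∈ D, B ⊆ X ∧ PRDn B.card)
    (hlin : ∀ Y ∈ 𝒴, ∀ Y' ∈ 𝒴, Y ≠ Y' → (Y ∩ Y').card ≤ 1)
    (hcov : ∀ T : Finset ℕ, T ⊆ X → T.card = 3 → ∃! M, M ∈ 𝒴 ∪ D ∧ T ⊆ M) :
    RDn (2 * X.card) := by
  classical
  have hcardU : (univ : Finset Bool).card = 2 := by simp
  -- choose the ingredients
  have hY1 : ∀ Y : Finset ℕ, ∃ 𝓑 : Finset (Finset (ℕ × Bool)), Y ∈ 𝒴 →
      RD (Y ×ˢ (univ : Finset Bool)) 𝓑 := by
    intro Y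
    by_cases h : Y ∈ 𝒴
    · obtain ⟨𝓑, h𝓑⟩ := RDn_on (hY Y h).2 (Y ×ˢ (univ : Finset Bool))
        (by rw [Finset.card_product, hcardU, mul_comm])
      exact ⟨𝓑, fun _ => h𝓑⟩
    · exact ⟨∅, fun h' => absurd h' h⟩
  choose 𝓑Y h𝓑Y using hY1
  have hD1 : ∀ B : Finset ℕ, ∃ 𝓑 : Finset (Finset (ℕ × Bool)), B ∈ D → PRD B 𝓑 := by
    intro B
    by_cases h : B ∈ D
    · obtain ⟨𝓑, h𝓑⟩ := PRDn_on (hD B h).2 B rfl
      exact ⟨𝓑, fun _ => h𝓑⟩
    · exact ⟨∅, fun h' => absurd h' h⟩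
  choose 𝓑D h𝓑D using hD1
  -- basic facts
  have subY : ∀ Y ∈ 𝒴, ∀ B ∈ 𝓑Y Y, ∀ p ∈ B, p.1 ∈ Y := fun Y hYm B hB p hp =>
    (Finset.mem_product.1 (((h𝓑Y Y hYm).1.1 B hB).1 hp)).1
  have subD : ∀ M ∈ D, ∀ B ∈ 𝓑D M, ∀ p ∈ B, p.1 ∈ M := fun M hM B hB p hp =>
    (Finset.mem_product.1 (((h𝓑D M hM).1.1 B hB).1 hp)).1
  have uniqY : ∀ Y ∈ 𝒴, ∀ Y' ∈ 𝒴, ∀ a b, a ≠ b → a ∈ Y → b ∈ Y → a ∈ Y' → b ∈ Y' → Y = Y' := by
    intro Y hYm Y' hY' a b hab h1 h2 h3 h4
    by_contra hne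
    have := hlin Y hYm Y' hY' hne
    have h5 : ({a, b} : Finset ℕ) ⊆ Y ∩ Y' := by
      intro x hx
      simp only [Finset.mem_insert, Finset.mem_singleton] at hx
      rcases hx with rfl | rfl
      · exact Finset.mem_inter.2 ⟨h1, h3⟩
      · exact Finset.mem_inter.2 ⟨h2, h4⟩
    have h6 := Finset.card_le_card h5
    rw [Finset.card_pair hab] at h6
    omega
  have uniqM : ∀ M ∈ 𝒴 ∪ D, ∀ M' ∈ 𝒴 ∪ D, ∀ a b c, a ≠ b → a ≠ c → b ≠ c → a ∈ M → b ∈ M →
      c ∈ M → a ∈ M' → b ∈ M' → c ∈ M' → M = M' := by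
    intro M hM M' hM' a b c hab hac hbc h1 h2 h3 h4 h5 h6
    have hMX : M ⊆ X := by
      rcases Finset.mem_union.1 hM with h | h
      · exact (hY M h).1
      · exact (hD M h).1
    have hT : ({a, b, c} : Finset ℕ).card = 3 := Finset.card_eq_three.2 ⟨a, b, c, hab, hac, hbc, rfl⟩
    have hsub : ∀ N : Finset ℕ, a ∈ N → b ∈ N → c ∈ N → ({a, b, c} : Finset ℕ) ⊆ N := by
      intro N ha hb hc x hx
      simp only [Finset.mem_insert, Finset.mem_singleton] at hx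
      rcases hx with rfl | rfl | rfl <;> assumption
    exact (hcov {a, b, c} ((hsub M h1 h2 h3).trans hMX) hT).unique ⟨hM, hsub M h1 h2 h3⟩
      ⟨hM', hsub M' h4 h5 h6⟩
  have notYD : ∀ Y ∈ 𝒴, ∀ M ∈ D, Y ≠ M := by
    rintro Y hYm M hM rfl
    exact (Finset.disjoint_left.1 hdis hYm) hM
  -- a member of `𝓑D M` which is not transversal is a pair block
  have pairD : ∀ M ∈ D, ∀ B ∈ 𝓑D M, ¬ Tr B → ∃ a ∈ M, ∃ b ∈ M, a ≠ b ∧ B = pb a b := by
    intro M hM B hB hTr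
    unfold Tr at hTr
    push Not at hTr
    obtain ⟨a, h1, h2⟩ := hTr
    have hB4 := ((h𝓑D M hM).1.1 B hB).2
    obtain ⟨⟨b, j⟩, hb, hb2⟩ : ∃ p ∈ B, p ∉ ({(a, false), (a, true)} : Finset (ℕ × Bool)) := by
      by_contra hcon
      push Not at hcon
      have : B ⊆ ({(a, false), (a, true)} : Finset (ℕ × Bool)) := fun p hp => hcon p hp
      have h3 := Finset.card_le_card this
      have h4 := Finset.card_le_two (a := ((a, false) : ℕ × Bool)) (b := (a, true))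
      omega
    have hab : a ≠ b := by
      rintro rfl
      apply hb2
      cases j <;> simp
    have haM := subD M hM B hB _ h1
    have hbM := subD M hM B hB _ hb
    refine ⟨a, haM, b, hbM, hab, ?_⟩
    have hpb := (h𝓑D M hM).2.1 a haM b hbM hab
    have hT3 : ({(a, false), (a, true), (b, j)} : Finset (ℕ × Bool)).card = 3 := by
      refine Finset.card_eq_three.2 ⟨_, _, _, ?_, ?_, ?_, rfl⟩
      · simp
      · intro h; exact hab (congrArg Prod.fst h)
      · intro h; exact hab (congrArg Prod.fst h)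
    refine ((h𝓑D M hM).1.2 _ ?_ hT3).unique ⟨hB, ?_⟩ ⟨hpb, ?_⟩
    · intro x hx
      simp only [Finset.mem_insert, Finset.mem_singleton] at hx
      rcases hx with rfl | rfl | rfl <;>
        simp [haM, hbM]
    · intro x hx
      simp only [Finset.mem_insert, Finset.mem_singleton] at hx
      rcases hx with rfl | rfl | rfl <;> assumption
    · intro x hx
      simp only [Finset.mem_insert, Finset.mem_singleton] at hx
      rcases hx with rfl | rfl | rfl <;> rw [Closure_mem_pb] <;> simp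
  let noY : ℕ → ℕ → Prop := fun a b => ∀ Y ∈ 𝒴, ¬ (a ∈ Y ∧ b ∈ Y)
  have noYc : ∀ a b, noY a b → noY b a := fun a b h Y hYm hh => h Y hYm ⟨hh.2, hh.1⟩
  let 𝓑 : Finset (Finset (ℕ × Bool)) := 𝒴.biUnion 𝓑Y ∪ D.biUnion (fun M => (𝓑D M).filter Tr) ∪
    ((X ×ˢ X).filter (fun p => p.1 ≠ p.2 ∧ noY p.1 p.2)).image (fun p => pb p.1 p.2)
  have mem𝓑 : ∀ B, B ∈ 𝓑 ↔ (∃ Y ∈ 𝒴, B ∈ 𝓑Y Y) ∨ (∃ M ∈ D, B ∈ 𝓑D M ∧ Tr B) ∨
      (∃ a ∈ X, ∃ b ∈ X, a ≠ b ∧ noY a b ∧ B = pb a b) := by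
    intro B
    simp only [𝓑, Finset.mem_union, Finset.mem_biUnion, Finset.mem_filter, Finset.mem_image,
      Finset.mem_product, Prod.exists]
    constructor
    · rintro ((⟨Y, h1, h2⟩ | ⟨M, h1, h2, h3⟩) | ⟨a, b, ⟨⟨h1, h2⟩, h3, h4⟩, h5⟩)
      · exact Or.inl ⟨Y, h1, h2⟩
      · exact Or.inr (Or.inl ⟨M, h1, h2, h3⟩)
      · exact Or.inr (Or.inr ⟨a, h1, b, h2, h3, h4, h5.symm⟩)
    · rintro (⟨Y, h1, h2⟩ | ⟨M, h1, h2, h3⟩ | ⟨a, h1, b, h2, h3, h4, h5⟩)
      · exact Or.inl (Or.inl ⟨Y, h1, h2⟩)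
      · exact Or.inl (Or.inr ⟨M, h1, h2, h3⟩)
      · exact Or.inr ⟨a, b, ⟨⟨h1, h2⟩, h3, h4⟩, h5.symm⟩
  have hsqs : SQSOn (X ×ˢ (univ : Finset Bool)) 𝓑 := by
    refine ⟨?_, ?_⟩
    · intro B hB
      rcases (mem𝓑 B).1 hB with ⟨Y, h1, h2⟩ | ⟨M, h1, h2, h3⟩ | ⟨a, h1, b, h2, h3, h4, h5⟩
      · obtain ⟨h3, h4⟩ := (h𝓑Y Y h1).1.1 B h2
        exact ⟨h3.trans (Finset.product_subset_product_left (hY Y h1).1), h4⟩
      · obtain ⟨h3, h4⟩ := (h𝓑D M h1).1.1 B h2
        exact ⟨h3.trans (Finset.product_subset_product_left (hD M h1).1), h4⟩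
      · subst h5
        refine ⟨Finset.product_subset_product_left ?_, ?_⟩
        · intro x hx
          simp only [Finset.mem_insert, Finset.mem_singleton] at hx
          rcases hx with rfl | rfl <;> assumption
        · rw [pb, Finset.card_product, Finset.card_pair h3, hcardU]
    · intro T hTV hT3
      have hTX : ∀ p ∈ T, p.1 ∈ X := fun p hp => (Finset.mem_product.1 (hTV hp)).1
      rcases Closure_three T hT3 with ⟨hTr, hc⟩ | ⟨a, b, j, hab, hTe⟩
      · have hTX' : T.image Prod.fst ⊆ X := by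
          intro x hx
          obtain ⟨p, hp, rfl⟩ := Finset.mem_image.1 hx
          exact hTX p hp
        obtain ⟨M, ⟨hM, hTM⟩, huniq⟩ := hcov _ hTX' hc
        have hTMp : T ⊆ M ×ˢ (univ : Finset Bool) := fun p hp =>
          Finset.mem_product.2 ⟨hTM (Finset.mem_image_of_mem _ hp), Finset.mem_univ _⟩
        have hTsub : ∀ N : Finset ℕ, (∀ p ∈ T, p.1 ∈ N) → T.image Prod.fst ⊆ N := by
          intro N hN x hx
          obtain ⟨p, hp, rfl⟩ := Finset.mem_image.1 hx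
          exact hN p hp
        have hnopb : ∀ a b, ¬ T ⊆ pb a b := by
          intro a b hsub
          have h1 : T.image Prod.fst ⊆ {a, b} := hTsub _ (fun p hp => by
            have := Closure_mem_pb.1 (hsub hp)
            simpa using this)
          have h2 := Finset.card_le_card h1
          have h3 := Finset.card_le_two (a := a) (b := b)
          omega
        rcases Finset.mem_union.1 hM with hMY | hMD
        · obtain ⟨B, ⟨hB, hTB⟩, hu⟩ := (h𝓑Y M hMY).1.2 T hTMp hT3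
          refine ⟨B, ⟨(mem𝓑 B).2 (Or.inl ⟨M, hMY, hB⟩), hTB⟩, ?_⟩
          rintro B' ⟨hB', hTB'⟩
          rcases (mem𝓑 B').1 hB' with ⟨Y, h1, h2⟩ | ⟨M', h1, h2, h3⟩ | ⟨a, h1, b, h2, h3, h4, h5⟩
          · have : Y = M := huniq Y ⟨Finset.mem_union_left _ h1,
              hTsub Y (fun p hp => subY Y h1 B' h2 p (hTB' hp))⟩
            subst this
            exact hu B' ⟨h2, hTB'⟩
          · have : M' = M := huniq M' ⟨Finset.mem_union_right _ h1,
              hTsub M' (fun p hp => subD M' h1 B' h2 p (hTB' hp))⟩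
            exact absurd this.symm (notYD M hMY M' h1)
          · rw [h5] at hTB'; exact absurd hTB' (hnopb a b)
        · obtain ⟨B, ⟨hB, hTB⟩, hu⟩ := (h𝓑D M hMD).1.2 T hTMp hT3
          have hBTr : Tr B := by
            by_contra hcon
            obtain ⟨a, _, b, _, _, hBe⟩ := pairD M hMD B hB hcon
            rw [hBe] at hTB
            exact hnopb a b hTB
          refine ⟨B, ⟨(mem𝓑 B).2 (Or.inr (Or.inl ⟨M, hMD, hB, hBTr⟩)), hTB⟩, ?_⟩
          rintro B' ⟨hB', hTB'⟩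
          rcases (mem𝓑 B').1 hB' with ⟨Y, h1, h2⟩ | ⟨M', h1, h2, h3⟩ | ⟨a, h1, b, h2, h3, h4, h5⟩
          · have : Y = M := huniq Y ⟨Finset.mem_union_left _ h1,
              hTsub Y (fun p hp => subY Y h1 B' h2 p (hTB' hp))⟩
            exact absurd this (notYD Y h1 M hMD)
          · have : M' = M := huniq M' ⟨Finset.mem_union_right _ h1,
              hTsub M' (fun p hp => subD M' h1 B' h2 p (hTB' hp))⟩
            subst this
            exact hu B' ⟨h2, hTB'⟩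
          · rw [h5] at hTB'; exact absurd hTB' (hnopb a b)
      · have hTa0 : (a, false) ∈ T := by rw [hTe]; simp
        have hTa1 : (a, true) ∈ T := by rw [hTe]; simp
        have hTb : (b, j) ∈ T := by rw [hTe]; simp
        have haX := hTX _ hTa0
        have hbX := hTX _ hTb
        by_cases hex : ∃ Y ∈ 𝒴, a ∈ Y ∧ b ∈ Y
        · obtain ⟨Y, hYm, haY, hbY⟩ := hex
          have hTY : T ⊆ Y ×ˢ (univ : Finset Bool) := by
            rw [hTe]
            intro x hx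
            simp only [Finset.mem_insert, Finset.mem_singleton] at hx
            rcases hx with rfl | rfl | rfl <;> simp [haY, hbY]
          obtain ⟨B, ⟨hB, hTB⟩, hu⟩ := (h𝓑Y Y hYm).1.2 T hTY hT3
          refine ⟨B, ⟨(mem𝓑 B).2 (Or.inl ⟨Y, hYm, hB⟩), hTB⟩, ?_⟩
          rintro B' ⟨hB', hTB'⟩
          rcases (mem𝓑 B').1 hB' with ⟨Y', h1, h2⟩ | ⟨M', h1, h2, h3⟩ | ⟨c, h1, d, h2, h3, h4, h5⟩
          · have : Y' = Y := uniqY Y' h1 Y hYm a b hab (subY Y' h1 B' h2 _ (hTB' hTa0))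
              (subY Y' h1 B' h2 _ (hTB' hTb)) haY hbY
            subst this
            exact hu B' ⟨h2, hTB'⟩
          · exact absurd ⟨hTB' hTa0, hTB' hTa1⟩ (h3 a)
          · exfalso
            rw [h5] at hTB'
            have e1 := Closure_mem_pb.1 (hTB' hTa0)
            have e2 := Closure_mem_pb.1 (hTB' hTb)
            rcases e1 with rfl | rfl <;> rcases e2 with rfl | rfl
            · exact hab rfl
            · exact h4 Y hYm ⟨haY, hbY⟩
            · exact h4 Y hYm ⟨hbY, haY⟩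
            · exact hab rfl
        · push Not at hex
          have hno : noY a b := fun Y hYm hh => hex Y hYm hh.1 hh.2
          refine ⟨pb a b, ⟨(mem𝓑 _).2 (Or.inr (Or.inr ⟨a, haX, b, hbX, hab, hno, rfl⟩)), ?_⟩, ?_⟩
          · rw [hTe]
            intro x hx
            simp only [Finset.mem_insert, Finset.mem_singleton] at hx
            rcases hx with rfl | rfl | rfl <;> rw [Closure_mem_pb] <;> simp
          · rintro B' ⟨hB', hTB'⟩
            rcases (mem𝓑 B').1 hB' with ⟨Y', h1, h2⟩ | ⟨M', h1, h2, h3⟩ | ⟨c, h1, d, h2, h3, h4, h5⟩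
            · exact absurd ⟨subY Y' h1 B' h2 _ (hTB' hTa0), subY Y' h1 B' h2 _ (hTB' hTb)⟩ (hno Y' h1)
            · exact absurd ⟨hTB' hTa0, hTB' hTa1⟩ (h3 a)
            · rw [h5] at hTB' ⊢
              have e1 := Closure_mem_pb.1 (hTB' hTa0)
              have e2 := Closure_mem_pb.1 (hTB' hTb)
              rcases e1 with rfl | rfl <;> rcases e2 with rfl | rfl
              · exact absurd rfl hab
              · rfl
              · exact Closure_pb_comm _ _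
              · exact absurd rfl hab
  have hfin : RD (X ×ˢ (univ : Finset Bool)) 𝓑 := by
    refine ⟨hsqs, ?_⟩
    rintro ⟨a, i⟩ haV
    have haX : a ∈ X := (Finset.mem_product.1 haV).1
    -- colourings of the ingredients
    have cY : ∀ Y, ∃ P : Finset (ℕ × Bool) → ℕ → Prop, Y ∈ 𝒴 → a ∈ Y →
        (∀ B ∈ 𝓑Y Y, (a, i) ∈ B → ∃ e ∈ Y.erase a, P B e) ∧
        ∀ B ∈ 𝓑Y Y, ∀ B' ∈ 𝓑Y Y, ∀ e, ∀ y, y ≠ (a, i) → (a, i) ∈ B → (a, i) ∈ B' → y ∈ B →
          y ∈ B' → P B e → P B' e → B = B' := by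
      intro Y
      by_cases h : Y ∈ 𝒴 ∧ a ∈ Y
      · obtain ⟨h1, h2⟩ := h
        have hcol := (h𝓑Y Y h1).2 (a, i) (Finset.mem_product.2 ⟨h2, Finset.mem_univ _⟩)
        obtain ⟨P, hP⟩ := Closure_col hcol (Y.erase a) (by
          rw [Finset.card_product, hcardU, Finset.card_erase_of_mem h2]
          have := Finset.card_pos.2 ⟨a, h2⟩
          omega)
        exact ⟨P, fun _ _ => hP⟩
      · exact ⟨fun _ _ => True, fun h1 h2 => absurd ⟨h1, h2⟩ h⟩
    choose PY hPY using cY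
    have cD : ∀ M, ∃ P : Finset (ℕ × Bool) → ℕ → Prop, M ∈ D → a ∈ M →
        (∀ B ∈ 𝓑D M, (a, i) ∈ B → ∃ e ∈ M, e ≠ a ∧ P B e) ∧
        (∀ B ∈ 𝓑D M, ∀ B' ∈ 𝓑D M, ∀ e ∈ M, ∀ y, y ≠ (a, i) → (a, i) ∈ B → (a, i) ∈ B' → y ∈ B →
          y ∈ B' → P B e → P B' e → B = B') ∧ ∀ b ∈ M, b ≠ a → P (pb a b) b := by
      intro M
      by_cases h : M ∈ D ∧ a ∈ M
      · obtain ⟨h1, h2⟩ := h
        obtain ⟨P, hP⟩ := (h𝓑D M h1).2.2 a h2 i
        exact ⟨P, fun _ _ => hP⟩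
      · exact ⟨fun _ _ => True, fun h1 h2 => absurd ⟨h1, h2⟩ h⟩
    choose PD hPD using cD
    -- a transversal block of `𝓑D M` through `(a,i)` and `(b,j)` does not have colour `b`
    have keyD : ∀ M ∈ D, ∀ B ∈ 𝓑D M, Tr B → (a, i) ∈ B → ∀ b j, (b, j) ∈ B → (b, j) ≠ (a, i) →
        b ≠ a ∧ b ∈ M ∧ a ∈ M ∧ ¬ PD M B b := by
      intro M hM B hB hTr hai b j hbj hne
      have hba := Closure_Tr_ne hTr hai hbj hne
      have haM := subD M hM B hB _ hai
      have hbM := subD M hM B hB _ hbj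
      refine ⟨hba, hbM, haM, fun hP => ?_⟩
      obtain ⟨_, h2, h3⟩ := hPD M hM haM
      have hpb := (h𝓑D M hM).2.1 a haM b hbM hba.symm
      have := h2 B hB (pb a b) hpb b hbM (b, j) hne hai (Closure_mem_pb.2 (Or.inl rfl)) hbj
        (Closure_mem_pb.2 (Or.inr rfl)) hP (h3 b hbM hba)
      rw [this] at hTr
      exact hTr a ⟨Closure_mem_pb.2 (Or.inl rfl), Closure_mem_pb.2 (Or.inl rfl)⟩
    let P : Finset (ℕ × Bool) → ℕ → Prop := fun B e =>
      (∃ Y ∈ 𝒴, a ∈ Y ∧ B ∈ 𝓑Y Y ∧ e ∈ Y.erase a ∧ PY Y B e) ∨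
      (∃ M ∈ D, a ∈ M ∧ B ∈ 𝓑D M ∧ Tr B ∧ e ∈ M ∧ e ≠ a ∧ PD M B e) ∨
      (e ∈ X ∧ e ≠ a ∧ noY a e ∧ B = pb a e)
    refine ⟨ℕ, X.erase a, P, ?_, ?_, ?_⟩
    · rw [Finset.card_product, hcardU, Finset.card_erase_of_mem haX]
      have := Finset.card_pos.2 ⟨a, haX⟩
      omega
    · intro B hB hai
      rcases (mem𝓑 B).1 hB with ⟨Y, h1, h2⟩ | ⟨M, h1, h2, h3⟩ | ⟨c, h1, d, h2, h3, h4, h5⟩
      · have haY := subY Y h1 B h2 _ hai
        obtain ⟨e, he, hPe⟩ := (hPY Y h1 haY).1 B h2 hai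
        refine ⟨e, ?_, Or.inl ⟨Y, h1, haY, h2, he, hPe⟩⟩
        exact Finset.mem_erase.2 ⟨(Finset.mem_erase.1 he).1, (hY Y h1).1 (Finset.mem_erase.1 he).2⟩
      · have haM := subD M h1 B h2 _ hai
        obtain ⟨e, he, hea, hPe⟩ := (hPD M h1 haM).1 B h2 hai
        exact ⟨e, Finset.mem_erase.2 ⟨hea, (hD M h1).1 he⟩,
          Or.inr (Or.inl ⟨M, h1, haM, h2, h3, he, hea, hPe⟩)⟩
      · rw [h5] at hai
        rcases Closure_mem_pb.1 hai with rfl | rfl
        · exact ⟨d, Finset.mem_erase.2 ⟨h3.symm, h2⟩, Or.inr (Or.inr ⟨h2, h3.symm, h4, h5⟩)⟩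
        · exact ⟨c, Finset.mem_erase.2 ⟨h3, h1⟩,
            Or.inr (Or.inr ⟨h1, h3, noYc _ _ h4, h5.trans (Closure_pb_comm _ _)⟩)⟩
    · -- properness: first the ordered cases
      have key : ∀ B B' e y, y ≠ (a, i) → (a, i) ∈ B → (a, i) ∈ B' → y ∈ B → y ∈ B' →
          (∀ Y ∈ 𝒴, a ∈ Y → B ∈ 𝓑Y Y → e ∈ Y.erase a → PY Y B e → P B' e → B = B') ∧
          (∀ M ∈ D, a ∈ M → B ∈ 𝓑D M → Tr B → e ∈ M → e ≠ a → PD M B e →
            ((∃ M ∈ D, a ∈ M ∧ B' ∈ 𝓑D M ∧ Tr B' ∧ e ∈ M ∧ e ≠ a ∧ PD M B' e) ∨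
            (e ∈ X ∧ e ≠ a ∧ noY a e ∧ B' = pb a e)) → B = B') := by
        rintro B B' e ⟨b, j⟩ hne haB haB' hbB hbB'
        refine ⟨?_, ?_⟩
        · intro Y hYm haY hB he hPe hP'
          have he' := Finset.mem_erase.1 he
          rcases hP' with ⟨Y', h1, h2, h3, h4, h5⟩ | ⟨M, h1, h2, h3, h4, h5, h6, h7⟩ |
            ⟨h1, h2, h3, h4⟩
          · have : Y' = Y := uniqY Y' h1 Y hYm a e he'.1.symm h2 (Finset.mem_erase.1 h4).2 haY he'.2
            subst this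
            exact (hPY Y' h1 h2).2 B hB B' h3 e (b, j) hne haB haB' hbB hbB' hPe h5
          · exfalso
            obtain ⟨k1, k2, k3, k4⟩ := keyD M h1 B' h3 h4 haB' b j hbB' hne
            have hbe : b ≠ e := by rintro rfl; exact k4 h7
            have hbY := subY Y hYm B hB _ hbB
            exact notYD Y hYm M h1 (uniqM Y (Finset.mem_union_left _ hYm) M
              (Finset.mem_union_right _ h1) a b e k1.symm h6.symm hbe haY hbY he'.2 h2 k2 h5)
          · exact absurd ⟨haY, he'.2⟩ (h3 Y hYm)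
        · intro M hM haM hB hTr he hea hPe hP'
          obtain ⟨k1, k2, k3, k4⟩ := keyD M hM B hB hTr haB b j hbB hne
          have hbe : b ≠ e := by rintro rfl; exact k4 hPe
          rcases hP' with ⟨M', h1, h2, h3, h4, h5, h6, h7⟩ | ⟨h1, h2, h3, h4⟩
          · obtain ⟨l1, l2, l3, l4⟩ := keyD M' h1 B' h3 h4 haB' b j hbB' hne
            have : M = M' := uniqM M (Finset.mem_union_right _ hM) M' (Finset.mem_union_right _ h1)
              a b e k1.symm hea.symm hbe haM k2 he h2 l2 h5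
            subst this
            exact (hPD M hM haM).2.1 B hB B' h3 e he (b, j) hne haB haB' hbB hbB' hPe h7
          · exfalso
            rw [h4] at hbB'
            rcases Closure_mem_pb.1 hbB' with h | h
            · exact k1 h
            · exact hbe h
      intro B hB B' hB' e he y hy haB haB' hyB hyB' hP hP'
      have K1 := key B B' e y hy haB haB' hyB hyB'
      have K2 := key B' B e y hy haB' haB hyB' hyB
      rcases hP with ⟨Y, h1, h2, h3, h4, h5⟩ | hP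
      · exact K1.1 Y h1 h2 h3 h4 h5 hP'
      · rcases hP' with ⟨Y, h1, h2, h3, h4, h5⟩ | hP'
        · exact (K2.1 Y h1 h2 h3 h4 h5 (Or.inr hP)).symm
        · rcases hP with ⟨M, h1, h2, h3, h4, h5, h6, h7⟩ | ⟨h1, h2, h3, h4⟩
          · exact K1.2 M h1 h2 h3 h4 h5 h6 h7 hP'
          · rcases hP' with ⟨M, k1, k2, k3, k4, k5, k6, k7⟩ | ⟨k1, k2, k3, k4⟩
            · exact (K2.2 M k1 k2 k3 k4 k5 k6 k7 (Or.inr ⟨h1, h2, h3, h4⟩)).symm
            · rw [h4, k4]
  have := RD_RDn hfin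
  rwa [Finset.card_product, hcardU, mul_comm] at this

end Pool.Agent.RDS
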