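import Pool.Agent.Designs.Main

set_option autoImplicit false

/-!
# Module A: decomposition of the complement of a sparse set of `r`-sets

Same proof as `design_ext` (`Pool/Agent/Designs/Main.lean`) with `E` in the place of `Ed r P`.
-/

namespace Pool.Agent.Kv

open Finset

theorem decomp_ext {q r : ℕ} (hr : 1 ≤ r) (hrq : r < q) {ε : ℝ} (hε : 0 < ε) :
    ∃ n0 : ℕ, ∀ n ≥ n0, ∀ E : Finset (Finset ℕ), E ⊆ powersetCard r (range n) →
      DegLe (r - 1) E ((n : ℝ) ^ (1 - ε)) →
      ind (powersetCard r (range n) \ E) ∈ Dv q r (powersetCard r (range n)) →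
      ∃ D : Finset (Finset ℕ), (∀ Q ∈ D, Q ⊆ range n ∧ Q.card = q) ∧
        (∀ e ∈ powersetCard r (range n) \ E, ∃! Q, Q ∈ D ∧ e ⊆ Q) ∧
        ∀ Q ∈ D, ∀ e ∈ E, ¬ e ⊆ Q := by
  obtain ⟨C1, n1, hloc⟩ := loc (q := q) (r := r) hr hrq
  obtain ⟨c4, hc4, hnib⟩ := nibapp (q := q) (r := r) hr hrq
  obtain ⟨ε0, hε0, n2, homni⟩ := omni hr hrq C1 (c := c4 / 3) (by positivity)
  obtain ⟨B, hcov⟩ := cover hr hrq C1
  obtain ⟨n3, hcov⟩ := hcov ε hε
  obtain ⟨n4, hnib⟩ := hnib B
  -- largeness
  obtain ⟨δ, hδ, hδ1, hδ2⟩ : ∃ δ : ℝ, 0 < δ ∧ δ ≤ ε0 / 2 ∧ δ ≤ c4 / 3 :=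
    ⟨min (ε0 / 2) (c4 / 3), lt_min (by positivity) (by positivity), min_le_left _ _,
      min_le_right _ _⟩
  obtain ⟨n5, hn5⟩ := Lam_large (Nat.ceil (1 / δ))
  obtain ⟨n6, hn6⟩ := Lam_pow_le_rpow 0 hε (1 / δ)
  refine ⟨n1 + n2 + n3 + n4 + n5 + n6 + 1, fun n hn E hEd hPd hdivE => ?_⟩
  obtain ⟨T, k, U, H, hL, hLU, hLT, hH⟩ := hloc n (by omega)
  have hnpos : (0 : ℝ) < n := by exact_mod_cast (by omega : 0 < n)
  have hLamδ : 1 / δ ≤ (Lam n : ℝ) := by
    have := hn5 n (by omega)
    calc 1 / δ ≤ (Nat.ceil (1 / δ) : ℝ) := Nat.le_ceil _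
      _ ≤ Lam n := by exact_mod_cast this
  have hLampos : (0 : ℝ) < Lam n := lt_of_lt_of_le (by positivity) hLamδ
  have hnLam : ∀ x : ℕ, x * Lam n ≤ n → (x : ℝ) ≤ δ * n := by
    intro x hx
    have h1 : (x : ℝ) * Lam n ≤ n := by exact_mod_cast hx
    have h2 : (x : ℝ) * (1 / δ) ≤ n := le_trans (by gcongr) h1
    rw [mul_one_div, div_le_iff₀ hδ] at h2
    linarith
  have hnε : (n : ℝ) ^ (1 - ε) ≤ δ * n := by
    have h1 := hn6 n (by omega)
    simp only [pow_zero, mul_one] at h1
    rw [Real.rpow_sub hnpos, Real.rpow_one]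
    rw [div_le_iff₀ (by positivity)]
    have h2 : 1 ≤ δ * (n : ℝ) ^ ε := by
      rw [div_le_iff₀ hδ] at h1
      linarith
    nlinarith
  have hTdeg : DegLe (r - 1) T (δ * n) := fun S hS => hnLam _ (hLT S (by omega))
  have hEdeg : DegLe (r - 1) E (δ * n) := DegLe_mono hPd hnε
  obtain ⟨A, hA, hAdis, hAdeg, hAabs⟩ := homni n (by omega) T k U E hL hEd
    (DegLe_mono (DegLe_union hTdeg hEdeg) (by nlinarith))
    (fun S hS => (hnLam _ (hLU S hS)).trans (by nlinarith))
  -- the nibble
  have hFsub : T ∪ E ∪ A ⊆ powersetCard r (range n) :=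
    union_subset (union_subset hL.1 hEd) hA
  obtain ⟨Mt, hMt1, hMt2, hMt3, hMt4⟩ := hnib n (by omega) (T ∪ E ∪ A) hFsub
    (DegLe_mono (DegLe_union (DegLe_union hTdeg hEdeg) hAdeg) (by nlinarith))
  set L0 := (powersetCard r (range n)).filter
    (fun e => e ∉ T ∪ E ∪ A ∧ vec r Mt e = 0) with hL0
  obtain ⟨Cv, T', hCv1, hT', hCv2⟩ := hcov n (by omega) T H E L0 hH hEd hPd
    (filter_subset _ _) (by
      rw [disjoint_left]
      intro e he heT
      exact (mem_filter.mp he).2.1 (mem_union_left _ (mem_union_left _ heT))) hMt4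
  -- the rest
  set X := (T \ E) \ T' with hX
  have hvM : ∀ e, vec r Mt e = 0 ∨ vec r Mt e = 1 := by
    intro e
    have h1 := hMt2 e
    have h2 := vec_nonneg r Mt e
    omega
  have hvMr : ∀ e, e ∉ powersetCard r (range n) → vec r Mt e = 0 := by
    intro e he
    rw [vec_apply]
    apply sum_eq_zero
    intro Q hQ
    unfold K
    rw [if_neg]
    rintro ⟨h1, h2⟩
    exact he (mem_powersetCard.mpr ⟨h1.trans (hMt1 Q hQ).1, h2⟩)
  have hAT : ∀ e ∈ A, e ∉ T ∧ e ∉ E := by
    intro e he
    have := (disjoint_left.mp hAdis) he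
    rw [mem_union, not_or] at this
    exact this
  have hid : ind (powersetCard r (range n)) = ind E + vec r Mt + vec r Cv + (ind X + ind A) := by
    rw [hCv2]
    funext e
    simp only [Pi.add_apply]
    by_cases he : e ∈ powersetCard r (range n)
    · have h1 : ind (powersetCard r (range n)) e = 1 := by simp only [ind, he, if_true]
      rw [h1]
      by_cases heP : e ∈ E
      · have hA0 : e ∉ A := fun h => (hAT e h).2 heP
        have hM0 : vec r Mt e = 0 := hMt3 e (by simp [heP])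
        have hT0 : e ∉ T' := fun h => (mem_sdiff.mp (hT' h)).2 heP
        have hX0 : e ∉ X := fun h => (mem_sdiff.mp (mem_sdiff.mp h).1).2 heP
        have hL00 : e ∉ L0 := fun h => (mem_filter.mp h).2.1 (by simp [heP])
        simp [ind, heP, hA0, hM0, hT0, hX0, hL00]
      · by_cases heT : e ∈ T
        · have hA0 : e ∉ A := fun h => (hAT e h).1 heT
          have hM0 : vec r Mt e = 0 := hMt3 e (by simp [heT])
          have hL00 : e ∉ L0 := fun h => (mem_filter.mp h).2.1 (by simp [heT])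
          by_cases heT' : e ∈ T'
          · have hX0 : e ∉ X := fun h => (mem_sdiff.mp h).2 heT'
            simp [ind, heP, hA0, hM0, heT', hX0, hL00]
          · have hX0 : e ∈ X := mem_sdiff.mpr ⟨mem_sdiff.mpr ⟨heT, heP⟩, heT'⟩
            simp [ind, heP, hA0, hM0, heT', hX0, hL00]
        · have heT' : e ∉ T' := fun h => heT (mem_sdiff.mp (hT' h)).1
          have hX0 : e ∉ X := fun h => heT (mem_sdiff.mp (mem_sdiff.mp h).1).1
          by_cases heA : e ∈ A
          · have hM0 : vec r Mt e = 0 := hMt3 e (by simp [heA])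
            have hL00 : e ∉ L0 := fun h => (mem_filter.mp h).2.1 (by simp [heA])
            simp [ind, heP, heA, hM0, heT', hX0, hL00]
          · rcases hvM e with hM0 | hM1
            · have hL00 : e ∈ L0 := mem_filter.mpr ⟨he, by simp [heP, heA, heT], hM0⟩
              simp [ind, heP, heA, hM0, heT', hX0, hL00]
            · have hL00 : e ∉ L0 := fun h => by
                have := (mem_filter.mp h).2.2
                omega
              simp [ind, heP, heA, hM1, heT', hX0, hL00]
    · have h1 : e ∉ E := fun h => he (hEd h)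
      have h2 : e ∉ A := fun h => he (hA h)
      have h3 : e ∉ T' := fun h => he (hL.1 (mem_sdiff.mp (hT' h)).1)
      have h4 : e ∉ X := fun h => he (hL.1 (mem_sdiff.mp (mem_sdiff.mp h).1).1)
      have h5 : e ∉ L0 := fun h => he (mem_filter.mp h).1
      simp only [ind, he, h1, h2, h3, h4, h5, hvMr e he, if_false]
      norm_num
  have hq_sub : ∀ Q : Finset ℕ, Q ⊆ range n → powersetCard r Q ⊆ powersetCard r (range n) :=
    fun Q h => powersetCard_mono h
  have hEsplit : ind (powersetCard r (range n)) = ind E + ind (powersetCard r (range n) \ E) := by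
    funext e
    simp only [Pi.add_apply, ind, mem_sdiff]
    by_cases h1 : e ∈ E
    · simp [h1, hEd h1]
    · simp [h1]
  -- `ind A` is divisible
  have hAd : ind A ∈ Dv q r (powersetCard r (range n)) := by
    obtain ⟨Q, hQ1, hQ2⟩ := hAabs ∅ (empty_subset _) (by
      have : ind (∅ : Finset (Finset ℕ)) = 0 := by funext e; simp [ind]
      rw [this]; exact AddSubgroup.zero_mem _)
    have h0 : ind (∅ : Finset (Finset ℕ)) = 0 := by funext e; simp [ind]
    rw [h0, zero_add] at hQ2
    rw [← hQ2]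
    exact vec_mem_Dv (fun B hB => ⟨(hQ1 B hB).2, hq_sub B (hQ1 B hB).1⟩)
  have hXd : ind X ∈ Dv q r (powersetCard r (range n)) := by
    have h1 : ind X = ind (powersetCard r (range n) \ E) - vec r Mt - vec r Cv - ind A := by
      have h2 := hid
      rw [hEsplit] at h2
      have h3 : ind (powersetCard r (range n) \ E) = vec r Mt + vec r Cv + (ind X + ind A) := by
        have h4 : ind E + ind (powersetCard r (range n) \ E) =
            ind E + (vec r Mt + vec r Cv + (ind X + ind A)) := by rw [h2]; abel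
        exact add_left_cancel h4
      rw [h3]; abel
    rw [h1]
    refine AddSubgroup.sub_mem _ (AddSubgroup.sub_mem _ (AddSubgroup.sub_mem _ hdivE ?_) ?_) hAd
    · exact vec_mem_Dv (fun B hB => ⟨(hMt1 B hB).2, hq_sub B (hMt1 B hB).1⟩)
    · exact vec_mem_Dv (fun B hB => ⟨(hCv1 B hB).2, hq_sub B (hCv1 B hB).1⟩)
  obtain ⟨Q, hQ1, hQ2⟩ := hAabs X sdiff_subset hXd
  -- merge
  have hsum : vec r Mt + vec r Cv + vec r Q = ind (powersetCard r (range n) \ E) := by
    have h2 := hid
    rw [hEsplit] at h2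
    have h4 : ind E + ind (powersetCard r (range n) \ E) =
        ind E + (vec r Mt + vec r Cv + (ind X + ind A)) := by rw [h2]; abel
    rw [hQ2, ← add_left_cancel h4.symm]
  let F : Fin 3 → Finset (Finset ℕ) := ![Mt, Cv, Q]
  have hF : ∀ i, ∀ B ∈ F i, B ⊆ range n ∧ B.card = q := by
    intro i
    fin_cases i
    · exact hMt1
    · exact hCv1
    · exact hQ1
  have hFs : ∑ i, vec r (F i) = ind (powersetCard r (range n) \ E) := by
    rw [Fin.sum_univ_three]; exact hsum
  have hvD : vec r (univ.biUnion F) = ind (powersetCard r (range n) \ E) := by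
    rw [vec_biUnion (q := q) (by omega) univ F (fun i _ Q hQ => (hF i Q hQ).2), hFs]
    intro e
    have h1 : ∑ i, vec r (F i) e = ind (powersetCard r (range n) \ E) e := by
      rw [← hFs, Finset.sum_apply]
    rw [h1]
    exact ind_le_one _ _
  refine ⟨univ.biUnion F, ?_, ?_, ?_⟩
  · intro B hB
    obtain ⟨i, _, hi⟩ := mem_biUnion.mp hB
    exact hF i B hi
  · intro e he
    have her := (mem_powersetCard.mp (mem_sdiff.mp he).1).2
    have h1 : vec r (univ.biUnion F) e = 1 := by rw [hvD]; simp only [ind, he, if_true]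
    rw [vec_apply] at h1
    have hex : ∃ Q ∈ univ.biUnion F, e ⊆ Q := by
      by_contra hno
      push Not at hno
      have : ∑ Q ∈ univ.biUnion F, K r Q e = 0 := sum_eq_zero (fun Q hQ => by
        unfold K; rw [if_neg]; rintro ⟨h1, _⟩; exact hno Q hQ h1)
      omega
    obtain ⟨Q, hQ, heQ⟩ := hex
    refine ⟨Q, ⟨hQ, heQ⟩, ?_⟩
    rintro Q' ⟨hQ', heQ'⟩
    by_contra hne
    have h2 : ({Q, Q'} : Finset (Finset ℕ)) ⊆ univ.biUnion F := by
      intro x hx
      rcases mem_insert.mp hx with rfl | hx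
      · exact hQ
      · rw [mem_singleton.mp hx]; exact hQ'
    have h3 : ∑ x ∈ ({Q, Q'} : Finset (Finset ℕ)), K r x e ≤ ∑ x ∈ univ.biUnion F, K r x e :=
      sum_le_sum_of_subset_of_nonneg h2 (fun x _ _ => K_nonneg r x e)
    rw [sum_pair (Ne.symm hne)] at h3
    have h4 : K r Q e = 1 := by simp [K, heQ, her]
    have h5 : K r Q' e = 1 := by simp [K, heQ', her]
    omega
  · intro B hB e he heB
    have her := (mem_powersetCard.mp (hEd he)).2
    have h1 := one_le_vec hB heB her
    have h2 : vec r (univ.biUnion F) e = 0 := by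
      rw [hvD]
      have : e ∉ powersetCard r (range n) \ E := fun h => (mem_sdiff.mp h).2 he
      simp only [ind, this, if_false]
    omega

end Pool.Agent.Kv
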