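import Mathlib

set_option autoImplicit false

/-!
# MP_5dff62_co: Steiner quadruple systems with all derived triple systems resolvable

Working definitions.  `RD V 𝓑`: the family `𝓑` is a Steiner quadruple system on the finite set `V`
and the blocks through each point can be properly coloured with `(|V|-2)/2` colours.
-/

namespace Pool.Agent.RDS

open Finset

/-- `𝓑` is a Steiner quadruple system on the finite set `V`. -/
def SQSOn {α : Type} [DecidableEq α] (V : Finset α) (𝓑 : Finset (Finset α)) : Prop :=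
  (∀ B ∈ 𝓑, B ⊆ V ∧ B.card = 4) ∧ ∀ T : Finset α, T ⊆ V → T.card = 3 → ∃! B, B ∈ 𝓑 ∧ T ⊆ B

/-- The blocks of `𝓑` through `x` can be coloured with at most `(|V|-2)/2` colours so that two
different blocks through `x` having another common point `y` get different colours.  The colouring
is a relation `P B e` (`e` is a colour of `B`), `C` is the set of colours. -/
def ColAt {α : Type} [DecidableEq α] (V : Finset α) (𝓑 : Finset (Finset α)) (x : α) : Prop :=
  ∃ (β : Type) (C : Finset β) (P : Finset α → β → Prop), 2 * C.card + 2 ≤ V.card ∧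
    (∀ B ∈ 𝓑, x ∈ B → ∃ e ∈ C, P B e) ∧
    ∀ B ∈ 𝓑, ∀ B' ∈ 𝓑, ∀ e ∈ C, ∀ y, y ≠ x → x ∈ B → x ∈ B' → y ∈ B → y ∈ B' →
      P B e → P B' e → B = B'

/-- Steiner quadruple system on `V`, all of whose derived systems are resolvable. -/
def RD {α : Type} [DecidableEq α] (V : Finset α) (𝓑 : Finset (Finset α)) : Prop :=
  SQSOn V 𝓑 ∧ ∀ x ∈ V, ColAt V 𝓑 x

/-- there is an `SQS(n)` with all derived systems resolvable. -/
def RDn (n : ℕ) : Prop := ∃ 𝓑 : Finset (Finset (Fin n)), RD univ 𝓑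

/-- the pair block `{a0, a1, b0, b1}`. -/
def pb {α : Type} [DecidableEq α] (a b : α) : Finset (α × Bool) := ({a, b} : Finset α) ×ˢ univ

/-- Pair type: Steiner quadruple system on `X × {0,1}` containing all pair blocks; at each point
`(a,i)` the colours are the elements of `X - a`, and the pair block `{a0,a1,b0,b1}` has
colour `b`. -/
def PRD {α : Type} [DecidableEq α] (X : Finset α) (𝓑 : Finset (Finset (α × Bool))) : Prop :=
  SQSOn (X ×ˢ (univ : Finset Bool)) 𝓑 ∧
  (∀ a ∈ X, ∀ b ∈ X, a ≠ b → pb a b ∈ 𝓑) ∧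
  ∀ a ∈ X, ∀ i : Bool, ∃ P : Finset (α × Bool) → α → Prop,
    (∀ B ∈ 𝓑, (a, i) ∈ B → ∃ e ∈ X, e ≠ a ∧ P B e) ∧
    (∀ B ∈ 𝓑, ∀ B' ∈ 𝓑, ∀ e ∈ X, ∀ y, y ≠ (a, i) → (a, i) ∈ B → (a, i) ∈ B' → y ∈ B → y ∈ B' →
      P B e → P B' e → B = B') ∧
    ∀ b ∈ X, b ≠ a → P (pb a b) b

/-- there is a pair type system on `k` pairs. -/
def PRDn (k : ℕ) : Prop := ∃ 𝓑 : Finset (Finset (Fin k × Bool)), PRD univ 𝓑

end Pool.Agent.RDS
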