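import Pool.Agent.Work.MP_5dff62_co.Defs
import Pool.Agent.Designs.Defs

set_option autoImplicit false

/-!
# Module F: divisibility

(F1) `n = 6t+2`, `P` linear family of 68-sets, degrees `≡ 4t(6t+1) mod 14`, size
`≡ 13 (6t+1) (t(3t+1)/2) mod 14`: the triples in no member of `P` form a `K_8`-divisible 3-graph.
(F2) `n = 6t+5`, `P` linear family of 23-sets, degrees `≡ (3t+2)(45t+56) mod 140`, size
`≡ 67 (6t+5)(3t+2)(45t+56) mod 140`: the pairs in no member of `P` form a `K_5`-divisible graph.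
(F3) `P` as in (F2), `D` a family of 5-sets such that every pair of points is in exactly one member
of `P ∪ D`: the triples in no member of `P ∪ D` form a `K_8`-divisible 3-graph.
Degrees (F3): pair: `n - |Y|`; point: `C(n-1,2) - 6 r5 - 231 r23`, `4 r5 + 22 r23 = n-1`;
total: `C(n,3) - 10 b5 - 1771 b23`, `10 b5 + 253 b23 = C(n,2)`.
-/

namespace Pool.Agent.RDS

open Finset Pool.Agent.Kv

/-! ### general lemmas -/

lemma Divis_vec {r : ℕ} {F : Finset (Finset ℕ)}
    (h : ∀ Q ∈ F, ∀ Q' ∈ F, Q ≠ Q' → (Q ∩ Q').card < r) : vec r F = ind (Ed r F) := by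
  funext e
  rw [vec_apply]
  by_cases he : e ∈ Ed r F
  · obtain ⟨Q, hQ, heQ⟩ := mem_biUnion.mp he
    rw [mem_powersetCard] at heQ
    rw [sum_eq_single_of_mem Q hQ, K_apply, if_pos heQ, ind, if_pos he]
    intro Q' hQ' hne
    rw [K_apply, if_neg]
    rintro ⟨h1, h2⟩
    have h3 := h Q hQ Q' hQ' (Ne.symm hne)
    have h4 : e.card ≤ (Q ∩ Q').card := card_le_card (subset_inter heQ.1 h1)
    omega
  · rw [ind, if_neg he]
    apply sum_eq_zero
    intro Q hQ
    rw [K_apply, if_neg]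
    rintro ⟨h1, h2⟩
    exact he (mem_biUnion.mpr ⟨Q, hQ, mem_powersetCard.mpr ⟨h1, h2⟩⟩)

lemma Divis_ind {r n : ℕ} {F : Finset (Finset ℕ)} (hsub : ∀ Q ∈ F, Q ⊆ range n)
    (h : ∀ Q ∈ F, ∀ Q' ∈ F, Q ≠ Q' → (Q ∩ Q').card < r) :
    ind (powersetCard r (range n) \ Ed r F) = K r (range n) - vec r F := by
  have hEd : Ed r F ⊆ powersetCard r (range n) := by
    intro e he
    obtain ⟨Q, hQ, heQ⟩ := mem_biUnion.mp he
    rw [mem_powersetCard] at heQ ⊢
    exact ⟨heQ.1.trans (hsub Q hQ), heQ.2⟩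
  rw [Divis_vec h, K_eq_ind]
  funext e
  simp only [ind, Pi.sub_apply, mem_sdiff]
  by_cases h1 : e ∈ Ed r F
  · have h2 := hEd h1
    simp [h1, h2]
  · by_cases h2 : e ∈ powersetCard r (range n)
    · simp [h1, h2]
    · simp [h1, h2]

lemma Divis_dg {r n : ℕ} {F : Finset (Finset ℕ)} (hsub : ∀ Q ∈ F, Q ⊆ range n)
    (h : ∀ Q ∈ F, ∀ Q' ∈ F, Q ≠ Q' → (Q ∩ Q').card < r) {S : Finset ℕ} (hS : S ⊆ range n)
    (hSr : S.card ≤ r) :
    dg (powersetCard r (range n)) (ind (powersetCard r (range n) \ Ed r F)) S =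
      ((n - S.card).choose (r - S.card) : ℕ) -
        ∑ Q ∈ F.filter (fun Q => S ⊆ Q), ((Q.card - S.card).choose (r - S.card) : ℤ) := by
  rw [Divis_ind hsub h]
  have h1 : dg (powersetCard r (range n)) (K r (range n) - vec r F) S =
      dg (powersetCard r (range n)) (K r (range n)) S -
        ∑ Q ∈ F, dg (powersetCard r (range n)) (K r Q) S := by
    simp only [dg, Pi.sub_apply, sum_sub_distrib, vec_apply]
    congr 1
    rw [sum_comm]
  rw [h1, dg_K (q := n) (card_range n) (le_refl _) hSr, if_pos hS, sum_filter]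
  congr 1
  apply sum_congr rfl
  intro Q hQ
  have h2 : powersetCard r Q ⊆ powersetCard r (range n) := powersetCard_mono (hsub Q hQ)
  rw [dg_K (q := Q.card) rfl h2 hSr]

lemma Divis_mem {q r n : ℕ} {F : Finset (Finset ℕ)} (hsub : ∀ Q ∈ F, Q ⊆ range n)
    (h : ∀ Q ∈ F, ∀ Q' ∈ F, Q ≠ Q' → (Q ∩ Q').card < r)
    (hd : ∀ S ⊆ range n, S.card ≤ r → (((q - S.card).choose (r - S.card) : ℕ) : ℤ) ∣
      ((n - S.card).choose (r - S.card) : ℕ) -
        ∑ Q ∈ F.filter (fun Q => S ⊆ Q), ((Q.card - S.card).choose (r - S.card) : ℤ)) :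
    ind (powersetCard r (range n) \ Ed r F) ∈ Dv q r (powersetCard r (range n)) := by
  refine ⟨fun e he => ?_, fun S hS => ?_⟩
  · rw [ind, if_neg]
    intro h1
    exact he (mem_sdiff.mp h1).1
  · by_cases hSn : S ⊆ range n
    · rw [Divis_dg hsub h hSn hS]
      exact hd S hSn hS
    · have h1 : dg (powersetCard r (range n)) (ind (powersetCard r (range n) \ Ed r F)) S = 0 := by
        unfold dg
        rw [filter_eq_empty_iff.mpr, sum_empty]
        intro e he hSe
        exact hSn (hSe.trans (mem_powersetCard.mp he).1)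
      rw [h1]
      exact dvd_zero _

/-- the counting identities when all `r`-sets are covered. -/
lemma Divis_count {r n : ℕ} {F : Finset (Finset ℕ)} (hsub : ∀ Q ∈ F, Q ⊆ range n)
    (h : ∀ Q ∈ F, ∀ Q' ∈ F, Q ≠ Q' → (Q ∩ Q').card < r)
    (hcov : ∀ e ∈ powersetCard r (range n), ∃ Q ∈ F, e ⊆ Q) {S : Finset ℕ} (hS : S ⊆ range n)
    (hSr : S.card ≤ r) :
    ∑ Q ∈ F.filter (fun Q => S ⊆ Q), ((Q.card - S.card).choose (r - S.card) : ℤ) =
      ((n - S.card).choose (r - S.card) : ℕ) := by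
  have h1 := Divis_dg hsub h hS hSr
  have h2 : powersetCard r (range n) \ Ed r F = ∅ := by
    rw [sdiff_eq_empty_iff_subset]
    intro e he
    obtain ⟨Q, hQ, heQ⟩ := hcov e he
    exact mem_biUnion.mpr ⟨Q, hQ, mem_powersetCard.mpr ⟨heQ, (mem_powersetCard.mp he).2⟩⟩
  rw [h2] at h1
  have h3 : dg (powersetCard r (range n)) (ind ∅) S = 0 := by
    unfold dg
    apply sum_eq_zero
    intro e _
    simp [ind]
  rw [h3] at h1
  linarith

lemma Divis_choose3 (n : ℕ) : 6 * ((n + 2).choose 3 : ℤ) = (n + 2) * (n + 1) * n := by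
  have h := Nat.descFactorial_eq_factorial_mul_choose (n + 2) 3
  have h1 : (n + 2).descFactorial 3 = (n + 2) * (n + 1) * n := by
    simp [Nat.descFactorial]
    ring
  rw [h1] at h
  have h2 : Nat.factorial 3 = 6 := rfl
  rw [h2] at h
  have h3 : ((6 * (n + 2).choose 3 : ℕ) : ℤ) = (((n + 2) * (n + 1) * n : ℕ) : ℤ) := by rw [← h]
  push_cast at h3
  linarith

lemma Divis_choose2 (n : ℕ) : 2 * ((n + 1).choose 2 : ℤ) = (n + 1) * n := by
  have h := Nat.descFactorial_eq_factorial_mul_choose (n + 1) 2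
  have h1 : (n + 1).descFactorial 2 = (n + 1) * n := by
    simp [Nat.descFactorial]
    ring
  rw [h1] at h
  have h2 : Nat.factorial 2 = 2 := rfl
  rw [h2] at h
  have h3 : ((2 * (n + 1).choose 2 : ℕ) : ℤ) = (((n + 1) * n : ℕ) : ℤ) := by rw [← h]
  push_cast at h3
  linarith

lemma Divis_card1 {S : Finset ℕ} {n : ℕ} (hS : S ⊆ range n)
    (h1 : S.card = 1) : ∃ x < n, S = {x} := by
  obtain ⟨x, rfl⟩ := card_eq_one.mp h1
  exact ⟨x, mem_range.mp (hS (mem_singleton_self x)), rfl⟩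

/-- existence of the parameters, `n = 6t+2`. -/
theorem compat_even (t : ℕ) : (∑ _x ∈ range (6 * t + 2), 4 * t * (6 * t + 1)) ≡
    68 * (13 * (6 * t + 1) * (t * (3 * t + 1) / 2)) [MOD 14] := by
  rw [sum_const, card_range, smul_eq_mul]
  have h2 : 2 ∣ t * (3 * t + 1) := by
    rcases Nat.even_or_odd t with h | h
    · exact (even_iff_two_dvd.mp h).mul_right _
    · have : Even (3 * t + 1) := by
        obtain ⟨k, hk⟩ := h
        exact ⟨3 * k + 2, by omega⟩
      exact (even_iff_two_dvd.mp this).mul_left _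
  obtain ⟨k, hk⟩ := h2
  have h3 : t * (3 * t + 1) / 2 = k := by omega
  rw [h3]
  have h4 : (6 * t + 2) * (4 * t * (6 * t + 1)) = 16 * ((6 * t + 1) * k) := by
    have : (6 * t + 2) * (4 * t * (6 * t + 1)) = 8 * (6 * t + 1) * (t * (3 * t + 1)) := by ring
    rw [this, hk]; ring
  have h5 : 68 * (13 * (6 * t + 1) * k) = 16 * ((6 * t + 1) * k) + 14 * (62 * ((6 * t + 1) * k)) := by
    ring
  rw [h4, h5]
  exact (Nat.ModEq.symm (by simp [Nat.ModEq]))

/-- existence of the parameters, `n = 6t+5`. -/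
theorem compat_odd (t : ℕ) : (∑ _x ∈ range (6 * t + 5), (3 * t + 2) * (45 * t + 56)) ≡
    23 * (67 * (6 * t + 5) * ((3 * t + 2) * (45 * t + 56))) [MOD 140] := by
  rw [sum_const, card_range, smul_eq_mul]
  have h5 : 23 * (67 * (6 * t + 5) * ((3 * t + 2) * (45 * t + 56))) =
      (6 * t + 5) * ((3 * t + 2) * (45 * t + 56)) +
        140 * (11 * ((6 * t + 5) * ((3 * t + 2) * (45 * t + 56)))) := by ring
  rw [h5]
  exact (Nat.ModEq.symm (by simp [Nat.ModEq]))

theorem div_even (t : ℕ) (P : Finset (Finset ℕ)) (hP : IsPartial 2 68 (6 * t + 2) P)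
    (hdeg : ∀ x < 6 * t + 2, (P.filter (fun Q => x ∈ Q)).card ≡ 4 * t * (6 * t + 1) [MOD 14])
    (hcard : P.card ≡ 13 * (6 * t + 1) * (t * (3 * t + 1) / 2) [MOD 14]) :
    ind (powersetCard 3 (range (6 * t + 2)) \ Ed 3 P) ∈
      Dv 8 3 (powersetCard 3 (range (6 * t + 2))) := by
  apply Divis_mem (fun Q hQ => (hP.1 Q hQ).1)
    (fun Q hQ Q' hQ' hne => (hP.2 Q hQ Q' hQ' hne).trans (by norm_num))
  intro S hSn hS
  have hsum : ∑ Q ∈ P.filter (fun Q => S ⊆ Q), ((Q.card - S.card).choose (3 - S.card) : ℤ) =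
      ((P.filter (fun Q => S ⊆ Q)).card : ℤ) * ((68 - S.card).choose (3 - S.card) : ℕ) := by
    rw [sum_congr rfl (fun Q hQ => by rw [(hP.1 Q (mem_filter.mp hQ).1).2]), sum_const,
      nsmul_eq_mul]
  rw [hsum]
  have h2 : 2 ∣ t * (3 * t + 1) := by
    rcases Nat.even_or_odd t with h | h
    · exact (even_iff_two_dvd.mp h).mul_right _
    · have : Even (3 * t + 1) := by
        obtain ⟨k, hk⟩ := h
        exact ⟨3 * k + 2, by omega⟩
      exact (even_iff_two_dvd.mp this).mul_left _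
  obtain ⟨k, hk⟩ := h2
  have h3 : t * (3 * t + 1) / 2 = k := by omega
  rw [h3] at hcard
  have hkZ : (t : ℤ) * (3 * t + 1) = 2 * k := by exact_mod_cast hk
  have hcase : S.card = 0 ∨ S.card = 1 ∨ S.card = 2 ∨ S.card = 3 := by omega
  rcases hcase with h0 | h1 | h2 | h3
  · rw [h0]
    have hS0 : S = ∅ := card_eq_zero.mp h0
    have hfil : P.filter (fun Q => S ⊆ Q) = P := by
      rw [hS0]; simp
    rw [hfil]
    obtain ⟨c, hc⟩ := (Nat.modEq_iff_dvd.mp hcard)
    push_cast at hc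
    have hch := Divis_choose3 (6 * t)
    have e1 : (8 - 0).choose (3 - 0) = 56 := by decide
    have e2 : (68 - 0).choose (3 - 0) = 50116 := by
      norm_num [Nat.choose]
    rw [e1, e2]
    have e3 : ((6 * t + 2 - 0).choose (3 - 0) : ℤ) = 4 * (6 * t + 1) * k := by
      have : (6 * (((6 * t + 2 - 0).choose (3 - 0) : ℕ) : ℤ)) = 6 * (4 * (6 * t + 1) * k) := by
        simp only [Nat.sub_zero]
        push_cast at hch
        linear_combination hch + 12 * (6 * (t : ℤ) + 1) * hkZ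
      linarith
    rw [e3]
    push_cast
    refine ⟨-11634 * ((6 * t + 1) * k) + 12529 * c, ?_⟩
    linear_combination (50116 : ℤ) * hc
  · rw [h1]
    obtain ⟨x, hx, hSx⟩ := Divis_card1 hSn h1
    have hfil : P.filter (fun Q => S ⊆ Q) = P.filter (fun Q => x ∈ Q) := by
      rw [hSx]; simp
    rw [hfil]
    obtain ⟨c, hc⟩ := (Nat.modEq_iff_dvd.mp (hdeg x hx))
    push_cast at hc
    have hch := Divis_choose2 (6 * t)
    have e1 : (8 - 1).choose (3 - 1) = 21 := by decide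
    have e2 : (68 - 1).choose (3 - 1) = 2211 := by
      norm_num [Nat.choose]
    rw [e1, e2]
    have e3 : ((6 * t + 2 - 1).choose (3 - 1) : ℤ) = 3 * t * (6 * t + 1) := by
      have : (2 * (((6 * t + 2 - 1).choose (3 - 1) : ℕ) : ℤ)) = 2 * (3 * t * (6 * t + 1)) := by
        have h5 : 6 * t + 2 - 1 = 6 * t + 1 := by omega
        rw [h5]
        push_cast at hch
        linear_combination hch
      linarith
    rw [e3]
    push_cast
    refine ⟨-421 * (t * (6 * t + 1)) + 1474 * c, ?_⟩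
    linear_combination (2211 : ℤ) * hc
  · rw [h2]
    have e1 : (8 - 2).choose (3 - 2) = 6 := by decide
    have e2 : (68 - 2).choose (3 - 2) = 66 := by decide
    have e3 : (6 * t + 2 - 2).choose (3 - 2) = 6 * t := by simp
    rw [e1, e2, e3]
    push_cast
    refine ⟨t - 11 * ((P.filter (fun Q => S ⊆ Q)).card : ℤ), ?_⟩
    ring
  · rw [h3]
    simp

theorem div_odd2 (t : ℕ) (P : Finset (Finset ℕ)) (hP : IsPartial 2 23 (6 * t + 5) P)
    (hdeg : ∀ x < 6 * t + 5, (P.filter (fun Q => x ∈ Q)).card ≡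
      (3 * t + 2) * (45 * t + 56) [MOD 140])
    (hcard : P.card ≡ 67 * (6 * t + 5) * ((3 * t + 2) * (45 * t + 56)) [MOD 140]) :
    ind (powersetCard 2 (range (6 * t + 5)) \ Ed 2 P) ∈
      Dv 5 2 (powersetCard 2 (range (6 * t + 5))) := by
  apply Divis_mem (fun Q hQ => (hP.1 Q hQ).1) hP.2
  intro S hSn hS
  have hsum : ∑ Q ∈ P.filter (fun Q => S ⊆ Q), ((Q.card - S.card).choose (2 - S.card) : ℤ) =
      ((P.filter (fun Q => S ⊆ Q)).card : ℤ) * ((23 - S.card).choose (2 - S.card) : ℕ) := by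
    rw [sum_congr rfl (fun Q hQ => by rw [(hP.1 Q (mem_filter.mp hQ).1).2]), sum_const,
      nsmul_eq_mul]
  rw [hsum]
  -- parity facts
  obtain ⟨k, hk⟩ : (2 : ℤ) ∣ (t : ℤ) * (t + 1) := even_iff_two_dvd.mp (Int.even_mul_succ_self t)
  have hcase : S.card = 0 ∨ S.card = 1 ∨ S.card = 2 := by omega
  rcases hcase with h0 | h1 | h2
  · rw [h0]
    have hS0 : S = ∅ := card_eq_zero.mp h0
    have hfil : P.filter (fun Q => S ⊆ Q) = P := by
      rw [hS0]; simp
    rw [hfil]
    obtain ⟨c, hc⟩ := (Nat.modEq_iff_dvd.mp hcard)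
    push_cast at hc
    have hch := Divis_choose2 (6 * t + 4)
    have e1 : (5 - 0).choose (2 - 0) = 10 := by decide
    have e2 : (23 - 0).choose (2 - 0) = 253 := by decide
    rw [e1, e2]
    have e3 : ((6 * t + 5 - 0).choose (2 - 0) : ℤ) = (6 * t + 5) * (3 * t + 2) := by
      have : (2 * (((6 * t + 5 - 0).choose (2 - 0) : ℕ) : ℤ)) = 2 * ((6 * t + 5) * (3 * t + 2)) := by
        simp only [Nat.sub_zero]
        push_cast at hch
        linear_combination hch
      linarith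
    rw [e3]
    push_cast
    -- (6t+5)(3t+2) - 253 |P|, |P| = 67 (6t+5)(3t+2)(45t+56) - 140 c
    have key : (10 : ℤ) ∣ (6 * t + 5) * ((3 * t + 2) * (9 * t + 11)) * 5 := by
      have h2 : (2 : ℤ) ∣ (3 * t + 2) * (9 * t + 11) := by
        refine ⟨27 * k + 12 * t + 11, ?_⟩
        linear_combination 27 * hk
      obtain ⟨m, hm⟩ := h2
      exact ⟨(6 * t + 5) * m, by rw [hm]; ring⟩
    obtain ⟨m, hm⟩ := key
    refine ⟨-m - 1695 * ((6 * t + 5) * ((3 * t + 2) * (45 * t + 56))) + 3542 * c, ?_⟩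
    linear_combination (253 : ℤ) * hc - hm
  · rw [h1]
    obtain ⟨x, hx, hSx⟩ := Divis_card1 hSn h1
    have hfil : P.filter (fun Q => S ⊆ Q) = P.filter (fun Q => x ∈ Q) := by
      rw [hSx]; simp
    rw [hfil]
    obtain ⟨c, hc⟩ := (Nat.modEq_iff_dvd.mp (hdeg x hx))
    push_cast at hc
    have e1 : (5 - 1).choose (2 - 1) = 4 := by decide
    have e2 : (23 - 1).choose (2 - 1) = 22 := by decide
    have e3 : (6 * t + 5 - 1).choose (2 - 1) = 6 * t + 4 := by
      have : 6 * t + 5 - 1 = 6 * t + 4 := by omega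
      rw [this]; simp
    rw [e1, e2, e3]
    push_cast
    refine ⟨-1485 * k - 675 * t - 615 + 770 * c, ?_⟩
    linear_combination (22 : ℤ) * hc - 2970 * hk
  · rw [h2]
    simp

theorem div_odd3 (t : ℕ) (P D : Finset (Finset ℕ)) (hP : IsPartial 2 23 (6 * t + 5) P)
    (hdeg : ∀ x < 6 * t + 5, (P.filter (fun Q => x ∈ Q)).card ≡
      (3 * t + 2) * (45 * t + 56) [MOD 140])
    (hcard : P.card ≡ 67 * (6 * t + 5) * ((3 * t + 2) * (45 * t + 56)) [MOD 140])
    (hD : ∀ Q ∈ D, Q ⊆ range (6 * t + 5) ∧ Q.card = 5)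
    (hcov : ∀ e ∈ powersetCard 2 (range (6 * t + 5)), ∃! Q, Q ∈ P ∪ D ∧ e ⊆ Q) :
    ind (powersetCard 3 (range (6 * t + 5)) \ Ed 3 (P ∪ D)) ∈
      Dv 8 3 (powersetCard 3 (range (6 * t + 5))) := by
  have hsub : ∀ Q ∈ P ∪ D, Q ⊆ range (6 * t + 5) := by
    intro Q hQ
    rcases mem_union.mp hQ with h | h
    · exact (hP.1 Q h).1
    · exact (hD Q h).1
  have hpair : ∀ Q ∈ P ∪ D, ∀ Q' ∈ P ∪ D, Q ≠ Q' → (Q ∩ Q').card < 2 := by
    intro Q hQ Q' hQ' hne
    by_contra hcon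
    push Not at hcon
    obtain ⟨e, he, hecard⟩ := exists_subset_card_eq hcon
    have heQ : e ⊆ Q := he.trans inter_subset_left
    have heQ' : e ⊆ Q' := he.trans inter_subset_right
    obtain ⟨Z, -, hZ⟩ := hcov e (mem_powersetCard.mpr ⟨heQ.trans (hsub Q hQ), hecard⟩)
    exact hne ((hZ Q ⟨hQ, heQ⟩).trans (hZ Q' ⟨hQ', heQ'⟩).symm)
  have hcount : ∀ S ⊆ range (6 * t + 5), S.card ≤ 2 →
      ∑ Q ∈ (P ∪ D).filter (fun Q => S ⊆ Q), ((Q.card - S.card).choose (2 - S.card) : ℤ) =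
      ((6 * t + 5 - S.card).choose (2 - S.card) : ℕ) := fun S hS hS2 =>
    Divis_count hsub hpair (fun e he => by
      obtain ⟨Q, hQ, -⟩ := hcov e he
      exact ⟨Q, hQ.1, hQ.2⟩) hS hS2
  have hdisj : Disjoint P D := by
    rw [disjoint_left]
    intro Q h1 h2
    have h3 := (hP.1 Q h1).2
    have h4 := (hD Q h2).2
    omega
  have hsum : ∀ (r : ℕ) (S : Finset ℕ),
      ∑ Q ∈ (P ∪ D).filter (fun Q => S ⊆ Q), ((Q.card - S.card).choose (r - S.card) : ℤ) =
      ((P.filter (fun Q => S ⊆ Q)).card : ℤ) * ((23 - S.card).choose (r - S.card) : ℕ) +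
      ((D.filter (fun Q => S ⊆ Q)).card : ℤ) * ((5 - S.card).choose (r - S.card) : ℕ) := by
    intro r S
    rw [filter_union, sum_union (disjoint_filter_filter hdisj)]
    congr 1
    · rw [sum_congr rfl (fun Q hQ => by rw [(hP.1 Q (mem_filter.mp hQ).1).2]), sum_const,
        nsmul_eq_mul]
    · rw [sum_congr rfl (fun Q hQ => by rw [(hD Q (mem_filter.mp hQ).1).2]), sum_const,
        nsmul_eq_mul]
  apply Divis_mem hsub (fun Q hQ Q' hQ' hne => (hpair Q hQ Q' hQ' hne).trans (by norm_num))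
  intro S hSn hS
  rw [hsum]
  have hcase : S.card = 0 ∨ S.card = 1 ∨ S.card = 2 ∨ S.card = 3 := by omega
  rcases hcase with h0 | h1 | h2 | h3
  · have hcnt := hcount S hSn (by omega)
    rw [hsum, h0] at hcnt
    rw [h0]
    have hS0 : S = ∅ := card_eq_zero.mp h0
    have hfil : P.filter (fun Q => S ⊆ Q) = P := by
      rw [hS0]; simp
    rw [hfil] at hcnt ⊢
    set d : ℤ := ((D.filter (fun Q => S ⊆ Q)).card : ℤ) with hd
    obtain ⟨c, hc⟩ := (Nat.modEq_iff_dvd.mp hcard)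
    push_cast at hc
    have hch := Divis_choose3 (6 * t + 3)
    have hch2 := Divis_choose2 (6 * t + 4)
    have e1 : (8 - 0).choose (3 - 0) = 56 := by decide
    have e2 : (23 - 0).choose (3 - 0) = 1771 := by
      norm_num [Nat.choose]
    have e4 : (5 - 0).choose (3 - 0) = 10 := by decide
    have e5 : (23 - 0).choose (2 - 0) = 253 := by decide
    have e6 : (5 - 0).choose (2 - 0) = 10 := by decide
    rw [e1, e2, e4]
    rw [e5, e6] at hcnt
    have e3 : ((6 * t + 5 - 0).choose (3 - 0) : ℤ) = (6 * t + 5) * (3 * t + 2) * (2 * t + 1) := by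
      have : (6 * (((6 * t + 5 - 0).choose (3 - 0) : ℕ) : ℤ)) =
          6 * ((6 * t + 5) * (3 * t + 2) * (2 * t + 1)) := by
        simp only [Nat.sub_zero]
        push_cast at hch
        linear_combination hch
      linarith
    have e7 : ((6 * t + 5 - 0).choose (2 - 0) : ℤ) = (6 * t + 5) * (3 * t + 2) := by
      have : (2 * (((6 * t + 5 - 0).choose (2 - 0) : ℕ) : ℤ)) = 2 * ((6 * t + 5) * (3 * t + 2)) := by
        simp only [Nat.sub_zero]
        push_cast at hch2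
        linear_combination hch2
      linarith
    rw [e3]
    rw [e7] at hcnt
    push_cast at hcnt ⊢
    refine ⟨-((6 * t + 5) * (3 * t + 2) * (81728 * t + 101706)) + 3795 * c, ?_⟩
    linear_combination (1518 : ℤ) * hc - hcnt
  · have hcnt := hcount S hSn (by omega)
    rw [hsum, h1] at hcnt
    rw [h1]
    obtain ⟨x, hx, hSx⟩ := Divis_card1 hSn h1
    have hfil : P.filter (fun Q => S ⊆ Q) = P.filter (fun Q => x ∈ Q) := by
      rw [hSx]; simp
    rw [hfil] at hcnt ⊢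
    set d : ℤ := ((D.filter (fun Q => S ⊆ Q)).card : ℤ) with hd
    obtain ⟨c, hc⟩ := (Nat.modEq_iff_dvd.mp (hdeg x hx))
    push_cast at hc
    have hch2 := Divis_choose2 (6 * t + 3)
    have e1 : (8 - 1).choose (3 - 1) = 21 := by decide
    have e2 : (23 - 1).choose (3 - 1) = 231 := by decide
    have e4 : (5 - 1).choose (3 - 1) = 6 := by decide
    have e5 : (23 - 1).choose (2 - 1) = 22 := by decide
    have e6 : (5 - 1).choose (2 - 1) = 4 := by decide
    have h5 : 6 * t + 5 - 1 = 6 * t + 4 := by omega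
    rw [e1, e2, e4, h5]
    rw [e5, e6, h5] at hcnt
    have e3 : ((6 * t + 4).choose (3 - 1) : ℤ) = (3 * t + 2) * (6 * t + 3) := by
      have : (2 * (((6 * t + 4).choose (3 - 1) : ℕ) : ℤ)) = 2 * ((3 * t + 2) * (6 * t + 3)) := by
        push_cast at hch2
        linear_combination hch2
      linarith
    have e7 : (6 * t + 4).choose (2 - 1) = 6 * t + 4 := by simp
    rw [e3]
    rw [e7] at hcnt
    push_cast at hcnt ⊢
    have hcnt2 : 11 * ((P.filter (fun Q => x ∈ Q)).card : ℤ) + 2 * d = 3 * t + 2 := by linarith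
    refine ⟨-((3 * t + 2) * (424 * t + 528)) + 1320 * c, ?_⟩
    linear_combination (198 : ℤ) * hc - 3 * hcnt2
  · have hcnt := hcount S hSn (by omega)
    rw [hsum, h2] at hcnt
    rw [h2]
    have h5 : 6 * t + 5 - 2 = 6 * t + 3 := by omega
    have e1 : (8 - 2).choose (3 - 2) = 6 := by decide
    have e2 : (23 - 2).choose (3 - 2) = 21 := by decide
    have e4 : (5 - 2).choose (3 - 2) = 3 := by decide
    have e3 : (6 * t + 3).choose (3 - 2) = 6 * t + 3 := by simp
    rw [e1, e2, e4, h5, e3]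
    simp only [Nat.sub_self, Nat.choose_zero_right] at hcnt
    push_cast at hcnt ⊢
    refine ⟨t - 3 * ((P.filter (fun Q => S ⊆ Q)).card : ℤ), ?_⟩
    linear_combination (-3 : ℤ) * hcnt
  · rw [h3]
    simp

end Pool.Agent.RDS
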