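import Mathlib

set_option autoImplicit false

/-!
# Module B, part 1: the transfer gadget

`k` columns `× F_p`, lines `w = s i + b`, `s < M`; every vertex has degree `M`; the vertex `(0,0)`
is split into `x` (the line `s = 0`) and `y` (the other `M - 1` lines through `(0,0)`).
-/

namespace Pool.Agent.RDS

open Finset

section

variable {k p : ℕ} (v0 : Fin k × ZMod p) (x y : ℕ)
  (e : {v : Fin k × ZMod p // v ≠ v0} → ℕ)

/-- the vertex map -/
noncomputable def gad_g (s : ℕ) (v : Fin k × ZMod p) : ℕ :=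
  open Classical in
  if h : v = v0 then (if s = 0 then x else y) else e ⟨v, h⟩

/-- the lines -/
noncomputable def gad_b (s : ℕ) (b : ZMod p) : Finset ℕ :=
  univ.image (fun i : Fin k => gad_g v0 x y e s (i, (s : ZMod p) * (i : ℕ) + b))

variable {v0 x y e}

lemma gad_g_v0 (s : ℕ) : gad_g v0 x y e s v0 = if s = 0 then x else y := by
  simp [gad_g]

lemma gad_g_ne (s : ℕ) {v : Fin k × ZMod p} (h : v ≠ v0) : gad_g v0 x y e s v = e ⟨v, h⟩ := by
  simp [gad_g, h]

lemma gad_g_inj (hxy : x ≠ y) (he : Function.Injective e) (hx : ∀ v, e v ≠ x) (hy : ∀ v, e v ≠ y)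
    {s s' : ℕ} {v w : Fin k × ZMod p} (h : gad_g v0 x y e s v = gad_g v0 x y e s' w) :
    v = w ∧ (v = v0 → (s = 0 ↔ s' = 0)) := by
  by_cases hv : v = v0
  · by_cases hw : w = v0
    · subst hv
      subst hw
      rw [gad_g_v0, gad_g_v0] at h
      refine ⟨rfl, fun _ => ?_⟩
      split_ifs at h with h1 h2 h2
      · simp [h1, h2]
      · exact absurd h hxy
      · exact absurd h.symm hxy
      · simp [h1, h2]
    · rw [hv, gad_g_v0, gad_g_ne _ hw] at h
      split_ifs at h
      · exact absurd h.symm (hx _)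
      · exact absurd h.symm (hy _)
  · by_cases hw : w = v0
    · rw [hw, gad_g_v0, gad_g_ne _ hv] at h
      split_ifs at h
      · exact absurd h (hx _)
      · exact absurd h (hy _)
    · rw [gad_g_ne _ hv, gad_g_ne _ hw] at h
      have := he h
      exact ⟨by simpa using this, fun h => absurd h hv⟩

lemma mem_gad_b {s : ℕ} {b : ZMod p} {u : ℕ} : u ∈ gad_b v0 x y e s b ↔
    ∃ i : Fin k, gad_g v0 x y e s (i, (s : ZMod p) * (i : ℕ) + b) = u := by
  simp [gad_b]

end

lemma gad_cast_inj {p : ℕ} {a b : ℕ} (ha : a < p) (hb : b < p) (h : (a : ZMod p) = (b : ZMod p)) :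
    a = b := by
  rw [ZMod.natCast_eq_natCast_iff] at h
  exact Nat.ModEq.eq_of_lt_of_lt h ha hb

lemma gadget (k M : ℕ) (hk : 2 ≤ k) (hM : 1 ≤ M) : ∃ c N : ℕ, 1 ≤ c ∧ M ∣ N ∧
    ∀ (x y : ℕ) (Z : Finset ℕ), x ≠ y → x ∉ Z → y ∉ Z → Z.card = c →
      ∃ G : Finset (Finset ℕ),
        (∀ Q ∈ G, Q ⊆ insert x (insert y Z) ∧ Q.card = k ∧ ¬ (x ∈ Q ∧ y ∈ Q)) ∧
        (∀ Q ∈ G, ∀ Q' ∈ G, Q ≠ Q' → (Q ∩ Q').card < 2) ∧ G.card = N ∧
        (G.filter (fun Q => x ∈ Q)).card = 1 ∧
        (G.filter (fun Q => y ∈ Q)).card = M - 1 ∧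
        ∀ z ∈ Z, (G.filter (fun Q => z ∈ Q)).card = M := by
  classical
  obtain ⟨p, hp1, hp⟩ := Nat.exists_infinite_primes (k + M)
  haveI := Fact.mk hp
  have hk0 : 0 < k := by omega
  set v0 : Fin k × ZMod p := (⟨0, hk0⟩, 0) with hv0
  refine ⟨k * p - 1, M * p, ?_, Dvd.intro _ rfl, ?_⟩
  · have : 2 * 2 ≤ k * p := Nat.mul_le_mul hk hp.two_le
    omega
  intro x y Z hxy hxZ hyZ hZ
  have hcard : Fintype.card {v : Fin k × ZMod p // v ≠ v0} = Fintype.card {z // z ∈ Z} := by
    rw [Fintype.card_coe, hZ]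
    have h1 : Fintype.card {v : Fin k × ZMod p // v ≠ v0} =
        Fintype.card (Fin k × ZMod p) - 1 := by
      rw [Fintype.card_subtype_compl (fun v => v = v0), Fintype.card_subtype_eq]
    rw [h1, Fintype.card_prod, Fintype.card_fin, ZMod.card]
  let E := Fintype.equivOfCardEq hcard
  set e : {v : Fin k × ZMod p // v ≠ v0} → ℕ := fun v => (E v : ℕ) with he_def
  have heZ : ∀ v, e v ∈ Z := fun v => (E v).2
  have he : Function.Injective e := fun a b h => E.injective (Subtype.ext h)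
  have hx : ∀ v, e v ≠ x := fun v h => hxZ (h ▸ heZ v)
  have hy : ∀ v, e v ≠ y := fun v h => hyZ (h ▸ heZ v)
  have hsur : ∀ z ∈ Z, ∃ v, e v = z := by
    intro z hz
    refine ⟨E.symm ⟨z, hz⟩, ?_⟩
    simp [he_def]
  set g := gad_g v0 x y e with hg
  set bl := gad_b v0 x y e with hbl
  have hmem : ∀ {s : ℕ} {b : ZMod p} {u : ℕ}, u ∈ bl s b ↔
      ∃ i : Fin k, g s (i, (s : ZMod p) * (i : ℕ) + b) = u := mem_gad_b
  have hginj : ∀ {s s' : ℕ} {v w : Fin k × ZMod p}, g s v = g s' w →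
      v = w ∧ (v = v0 → (s = 0 ↔ s' = 0)) := fun h => gad_g_inj hxy he hx hy h
  have hiinj : ∀ {i j : Fin k}, ((i : ℕ) : ZMod p) = ((j : ℕ) : ZMod p) → i = j := by
    intro i j h
    exact Fin.ext (gad_cast_inj (by have := i.2; omega) (by have := j.2; omega) h)
  -- common points
  have hcommon : ∀ {s s' : ℕ} {b b' : ZMod p} {u : ℕ}, u ∈ bl s b → u ∈ bl s' b' →
      ∃ i : Fin k, g s (i, (s : ZMod p) * (i : ℕ) + b) = u ∧
        (s : ZMod p) * (i : ℕ) + b = (s' : ZMod p) * (i : ℕ) + b' := by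
    intro s s' b b' u h1 h2
    obtain ⟨i, hi⟩ := hmem.mp h1
    obtain ⟨j, hj⟩ := hmem.mp h2
    have h3 := (hginj (hi.trans hj.symm)).1
    have h4 := (Prod.ext_iff.mp h3).1
    have h5 := (Prod.ext_iff.mp h3).2
    simp only at h4 h5
    subst h4
    exact ⟨i, hi, h5⟩
  have hlin : ∀ s < M, ∀ s' < M, ∀ b b' : ZMod p, (s, b) ≠ (s', b') →
      (bl s b ∩ bl s' b').card < 2 := by
    intro s hs s' hs' b b' hne
    by_contra hcon
    obtain ⟨u, hu, w, hw, huw⟩ := one_lt_card.mp (show 1 < (bl s b ∩ bl s' b').card by omega)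
    obtain ⟨hu1, hu2⟩ := mem_inter.mp hu
    obtain ⟨hw1, hw2⟩ := mem_inter.mp hw
    obtain ⟨i, hi, hi2⟩ := hcommon hu1 hu2
    obtain ⟨j, hj, hj2⟩ := hcommon hw1 hw2
    have hij : i ≠ j := by
      rintro rfl
      exact huw (hi.symm.trans hj)
    have h6 : ((s : ZMod p) - s') * (((i : ℕ) : ZMod p) - ((j : ℕ) : ZMod p)) = 0 := by
      linear_combination hi2 - hj2
    rcases mul_eq_zero.mp h6 with h7 | h7
    · have h8 : s = s' := gad_cast_inj (by omega) (by omega) (sub_eq_zero.mp h7)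
      subst h8
      have h9 : b = b' := by linear_combination hi2
      exact hne (by rw [h9])
    · exact hij (hiinj (sub_eq_zero.mp h7))
  have hcardb : ∀ s b, (bl s b).card = k := by
    intro s b
    have : bl s b = univ.image (fun i : Fin k => g s (i, (s : ZMod p) * (i : ℕ) + b)) := rfl
    rw [this, card_image_of_injective, card_univ, Fintype.card_fin]
    intro i j h
    have := (hginj h).1
    exact (Prod.ext_iff.mp this).1
  have hinj : Set.InjOn (fun sb : ℕ × ZMod p => bl sb.1 sb.2)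
      (range M ×ˢ (univ : Finset (ZMod p)) : Finset (ℕ × ZMod p)) := by
    rintro ⟨s, b⟩ h1 ⟨s', b'⟩ h2 h3
    by_contra hne
    simp only [coe_product, Set.mem_prod, mem_coe, mem_range] at h1 h2
    have h4 := hlin s h1.1 s' h2.1 b b' hne
    simp only at h3
    rw [h3, inter_self, hcardb] at h4
    omega
  have hfilt : ∀ u : ℕ, (((range M ×ˢ (univ : Finset (ZMod p))).image
      (fun sb : ℕ × ZMod p => bl sb.1 sb.2)).filter (fun Q => u ∈ Q)).card =
      ((range M ×ˢ (univ : Finset (ZMod p))).filter (fun sb => u ∈ bl sb.1 sb.2)).card := by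
    intro u
    rw [filter_image, card_image_of_injOn]
    exact hinj.mono (by
      intro a ha
      exact (mem_filter.mp ha).1)
  refine ⟨(range M ×ˢ (univ : Finset (ZMod p))).image (fun sb : ℕ × ZMod p => bl sb.1 sb.2),
    ?_, ?_, ?_, ?_, ?_, ?_⟩
  · intro Q hQ
    obtain ⟨⟨s, b⟩, hsb, rfl⟩ := mem_image.mp hQ
    refine ⟨?_, hcardb s b, ?_⟩
    · intro u hu
      obtain ⟨i, hi⟩ := hmem.mp hu
      by_cases h0 : (i, (s : ZMod p) * (i : ℕ) + b) = v0
      · rw [h0] at hi
        rw [hg, gad_g_v0] at hi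
        split_ifs at hi
        · rw [← hi]; simp
        · rw [← hi]; simp
      · rw [hg, gad_g_ne _ h0] at hi
        rw [← hi]
        exact mem_insert_of_mem (mem_insert_of_mem (heZ _))
    · rintro ⟨h1, h2⟩
      obtain ⟨i, hi⟩ := hmem.mp h1
      obtain ⟨j, hj⟩ := hmem.mp h2
      have hi0 : (i, (s : ZMod p) * (i : ℕ) + b) = v0 := by
        by_contra h0
        rw [hg, gad_g_ne _ h0] at hi
        exact hx _ hi
      have hj0 : (j, (s : ZMod p) * (j : ℕ) + b) = v0 := by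
        by_contra h0
        rw [hg, gad_g_ne _ h0] at hj
        exact hy _ hj
      rw [hi0] at hi
      rw [hj0] at hj
      exact hxy (hi.symm.trans hj)
  · intro Q hQ Q' hQ' hne
    obtain ⟨⟨s, b⟩, hsb, rfl⟩ := mem_image.mp hQ
    obtain ⟨⟨s', b'⟩, hsb', rfl⟩ := mem_image.mp hQ'
    refine hlin s (mem_range.mp (mem_product.mp hsb).1) s' (mem_range.mp (mem_product.mp hsb').1)
      b b' ?_
    rintro h
    rw [Prod.mk.injEq] at h
    exact hne (by rw [h.1, h.2])
  · rw [card_image_of_injOn hinj, card_product, card_range, card_univ, ZMod.card]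
  · rw [hfilt, card_eq_one]
    refine ⟨(0, 0), ?_⟩
    ext ⟨s, b⟩
    simp only [mem_filter, mem_product, mem_range, mem_univ, and_true, mem_singleton,
      Prod.mk.injEq]
    constructor
    · rintro ⟨hs, hx1⟩
      obtain ⟨i, hi⟩ := hmem.mp hx1
      have hi0 : (i, (s : ZMod p) * (i : ℕ) + b) = v0 := by
        by_contra h0
        rw [hg, gad_g_ne _ h0] at hi
        exact hx _ hi
      rw [hi0, hg, gad_g_v0] at hi
      have hs0 : s = 0 := by
        by_contra hs0
        rw [if_neg hs0] at hi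
        exact hxy hi.symm
      rw [hv0, Prod.mk.injEq] at hi0
      refine ⟨hs0, ?_⟩
      have := hi0.2
      rw [hs0] at this
      simpa using this
    · rintro ⟨rfl, rfl⟩
      refine ⟨by omega, hmem.mpr ⟨⟨0, hk0⟩, ?_⟩⟩
      have : ((⟨0, hk0⟩ : Fin k), ((0 : ℕ) : ZMod p) * (((⟨0, hk0⟩ : Fin k) : ℕ) : ZMod p) + 0) =
          v0 := by simp [hv0]
      rw [this, hg, gad_g_v0]
      simp
  · rw [hfilt]
    have : ((range M ×ˢ (univ : Finset (ZMod p))).filter (fun sb => y ∈ bl sb.1 sb.2)) =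
        ((range M).erase 0).image (fun s => (s, (0 : ZMod p))) := by
      ext ⟨s, b⟩
      simp only [mem_filter, mem_product, mem_range, mem_univ, and_true, mem_image, mem_erase,
        Prod.mk.injEq]
      constructor
      · rintro ⟨hs, hx1⟩
        obtain ⟨i, hi⟩ := hmem.mp hx1
        have hi0 : (i, (s : ZMod p) * (i : ℕ) + b) = v0 := by
          by_contra h0
          rw [hg, gad_g_ne _ h0] at hi
          exact hy _ hi
        rw [hi0, hg, gad_g_v0] at hi
        have hs0 : s ≠ 0 := by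
          intro hs0
          rw [if_pos hs0] at hi
          exact hxy hi
        rw [hv0, Prod.mk.injEq] at hi0
        refine ⟨s, ⟨hs0, hs⟩, rfl, ?_⟩
        have h1 := hi0.2
        have h2 : (i : ℕ) = 0 := by rw [hi0.1]
        rw [h2] at h1
        simpa using h1.symm
      · rintro ⟨s', ⟨hs0, hs⟩, rfl, rfl⟩
        refine ⟨hs, hmem.mpr ⟨⟨0, hk0⟩, ?_⟩⟩
        have : ((⟨0, hk0⟩ : Fin k), ((s' : ℕ) : ZMod p) * (((⟨0, hk0⟩ : Fin k) : ℕ) : ZMod p) + 0) =
            v0 := by simp [hv0]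
        rw [this, hg, gad_g_v0, if_neg hs0]
    rw [this, card_image_of_injective _ (fun a b h => (Prod.mk.inj h).1),
      card_erase_of_mem (mem_range.mpr (by omega)), card_range]
  · intro z hz
    rw [hfilt]
    obtain ⟨⟨⟨i, w⟩, hv⟩, rfl⟩ := hsur z hz
    have : ((range M ×ˢ (univ : Finset (ZMod p))).filter
        (fun sb => e ⟨(i, w), hv⟩ ∈ bl sb.1 sb.2)) =
        (range M).image (fun s : ℕ => (s, w - (s : ZMod p) * (i : ℕ))) := by
      ext ⟨s, b⟩
      simp only [mem_filter, mem_product, mem_range, mem_univ, and_true, mem_image,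
        Prod.mk.injEq]
      constructor
      · rintro ⟨hs, hx1⟩
        obtain ⟨j, hj⟩ := hmem.mp hx1
        have h1 : g s (i, w) = e ⟨(i, w), hv⟩ := gad_g_ne _ hv
        have h2 := (hginj (hj.trans h1.symm)).1
        rw [Prod.mk.injEq] at h2
        refine ⟨s, hs, rfl, ?_⟩
        rw [← h2.2, h2.1]
        ring
      · rintro ⟨s', hs, rfl, rfl⟩
        refine ⟨hs, hmem.mpr ⟨i, ?_⟩⟩
        have : (s' : ZMod p) * (i : ℕ) + (w - (s' : ZMod p) * (i : ℕ)) = w := by ring
        rw [this]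
        exact gad_g_ne _ hv
    rw [this, card_image_of_injective _ (fun a b h => (Prod.mk.inj h).1), card_range]

end Pool.Agent.RDS
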