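import Pool.Agent.Designs.Emb
import Pool.Agent.Work.MP_5dff62_co.Gadget

set_option autoImplicit false

/-!
# Module B: sparse linear families with prescribed degrees modulo `M`
-/

namespace Pool.Agent.RDS

open Finset Pool.Agent.Kv

lemma ed_deg {r m : ℕ} {F : Finset (Finset ℕ)} (hr : 1 ≤ r) (hm : ∀ Y ∈ F, Y.card ≤ m)
    (hlin : ∀ Y ∈ F, ∀ Y' ∈ F, Y ≠ Y' → (Y ∩ Y').card < r - 1) {S : Finset ℕ}
    (hS : S.card = r - 1) : ((Ed r F).filter (fun e => S ⊆ e)).card ≤ m := by
  by_cases hex : ∃ Y ∈ F, S ⊆ Y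
  · obtain ⟨Y, hY, hSY⟩ := hex
    have hsub : (Ed r F).filter (fun e => S ⊆ e) ⊆ Y.image (fun y => insert y S) := by
      intro e he
      obtain ⟨he1, he2⟩ := mem_filter.mp he
      obtain ⟨Y', hY', he3⟩ := mem_biUnion.mp he1
      obtain ⟨he4, he5⟩ := mem_powersetCard.mp he3
      have hYY : Y' = Y := by
        by_contra hne
        have := hlin Y' hY' Y hY hne
        have h2 : S ⊆ Y' ∩ Y := subset_inter (he2.trans he4) hSY
        have h3 := card_le_card h2
        omega
      subst hYY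
      have h6 : (e \ S).card = 1 := by
        rw [card_sdiff_of_subset he2]; omega
      obtain ⟨y, hy⟩ := card_eq_one.mp h6
      have hye : y ∈ e := by
        have : y ∈ e \ S := by rw [hy]; exact mem_singleton_self y
        exact (mem_sdiff.mp this).1
      refine mem_image.mpr ⟨y, he4 hye, ?_⟩
      have : e = (e \ S) ∪ S := (sdiff_union_of_subset he2).symm
      rw [this, hy, ← insert_eq]
    exact (card_le_card hsub).trans (card_image_le.trans (hm Y hY))
  · have : (Ed r F).filter (fun e => S ⊆ e) = ∅ := by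
      rw [filter_eq_empty_iff]
      intro e he hSe
      obtain ⟨Y', hY', he3⟩ := mem_biUnion.mp he
      exact hex ⟨Y', hY', hSe.trans (mem_powersetCard.mp he3).1⟩
    rw [this]; simp

theorem lemmaG (k M : ℕ) (hk : 2 ≤ k) (hM : 1 ≤ M) : ∃ n0 : ℕ, ∀ n ≥ n0, ∀ (ρ : ℕ → ℕ) (β : ℕ),
    (∑ x ∈ range n, ρ x) ≡ k * β [MOD M] →
    ∃ P : Finset (Finset ℕ), IsPartial 2 k n P ∧
      DegLe 1 (Ed 2 P) ((n : ℝ) ^ (1 - (1 / 4 : ℝ))) ∧
      (∀ x < n, (P.filter (fun Q => x ∈ Q)).card ≡ ρ x [MOD M]) ∧ P.card ≡ β [MOD M] := by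
  classical
  obtain ⟨c, N, hc, hMN, hgad⟩ := gadget k M hk hM
  obtain ⟨Kc, hKc, hemb⟩ := emb 2 c 2 0 (by norm_num) hc
  obtain ⟨A, hA⟩ := exists_nat_ge (k + 16 * Kc + 2 * M + 4 : ℝ)
  refine ⟨A ^ 4 + M * k + 4, fun n hn ρ β hsum => ?_⟩
  have hkR : (2 : ℝ) ≤ k := by exact_mod_cast hk
  have hMR : (1 : ℝ) ≤ M := by exact_mod_cast hM
  -- the real parameter
  obtain ⟨w, hwn, hw34, hwA⟩ : ∃ w : ℝ, w ^ 4 = n ∧ (n : ℝ) ^ (1 - (1 / 4 : ℝ)) = w ^ 3 ∧
      (k + 16 * Kc + 2 * M + 4 : ℝ) ≤ w := by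
    refine ⟨(n : ℝ) ^ (1 / 4 : ℝ), ?_, ?_, ?_⟩
    · rw [← Real.rpow_natCast, ← Real.rpow_mul (Nat.cast_nonneg n)]; norm_num
    · rw [← Real.rpow_natCast, ← Real.rpow_mul (Nat.cast_nonneg n)]; norm_num
    · refine hA.trans ?_
      have h3 : ((A : ℝ) ^ (4 : ℕ)) ≤ n := by exact_mod_cast (by omega : A ^ 4 ≤ n)
      have hm0 : (0 : ℝ) ≤ A := Nat.cast_nonneg A
      calc (A : ℝ) = (((A : ℝ) ^ (4 : ℕ))) ^ (1 / 4 : ℝ) := by
            rw [← Real.rpow_natCast, ← Real.rpow_mul hm0]; norm_num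
        _ ≤ (n : ℝ) ^ (1 / 4 : ℝ) := Real.rpow_le_rpow (by positivity) h3 (by norm_num)
  have hw4 : (4 : ℝ) ≤ w := by linarith
  have hw0 : (0 : ℝ) < w := by linarith
  have hkw : (k : ℝ) ≤ w := by linarith
  have hKw : 16 * Kc ≤ w := by linarith
  have hMw : 2 * (M : ℝ) ≤ w := by linarith
  set ε : ℝ := 1 / w ^ 2 with hε
  have hεn : ε * n = w ^ 2 := by rw [hε, ← hwn]; field_simp
  have hn4 : 4 ≤ n := by omega
  -- single blocks
  set b0 := β % M with hb0
  have hb0M : b0 < M := Nat.mod_lt _ (by omega)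
  set S : ℕ → Finset ℕ := fun j => (range k).image (fun i => j * k + i) with hSdef
  have hmemS : ∀ j v, v ∈ S j ↔ ∃ i < k, j * k + i = v := by
    intro j v; simp [hSdef]
  have hScard : ∀ j, (S j).card = k := by
    intro j
    rw [hSdef]
    simp only
    rw [card_image_of_injective _ (fun a b h => by simpa using h), card_range]
  have hSdisj : ∀ j j' v, v ∈ S j → v ∈ S j' → j = j' := by
    intro j j' v h1 h2
    obtain ⟨i, hi, rfl⟩ := (hmemS j v).mp h1
    obtain ⟨i', hi', h3⟩ := (hmemS j' _).mp h2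
    rcases lt_trichotomy j j' with h | h | h
    · have : (j + 1) * k ≤ j' * k := Nat.mul_le_mul_right k h
      rw [add_mul] at this
      omega
    · exact h
    · have : (j' + 1) * k ≤ j * k := Nat.mul_le_mul_right k h
      rw [add_mul] at this
      omega
  set F0 : Finset (Finset ℕ) := (range b0).image S with hF0
  have hSinj : Function.Injective S := by
    intro a b hab
    have h1 : a * k + 0 ∈ S a := (hmemS a _).mpr ⟨0, by omega, rfl⟩
    exact hSdisj a b _ h1 (hab ▸ h1)
  have hF0card : F0.card = b0 := by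
    rw [hF0, card_image_of_injective _ hSinj, card_range]
  have hF0k : ∀ Q ∈ F0, Q.card = k := by
    intro Q hQ
    obtain ⟨j, _, rfl⟩ := mem_image.mp hQ
    exact hScard j
  have hF0n : ∀ Q ∈ F0, Q ⊆ range n := by
    intro Q hQ
    obtain ⟨j, hj, rfl⟩ := mem_image.mp hQ
    intro v hv
    obtain ⟨i, hi, rfl⟩ := (hmemS j v).mp hv
    have h1 := mem_range.mp hj
    have h2 : (j + 1) * k ≤ M * k := Nat.mul_le_mul_right k (by omega)
    rw [add_mul] at h2
    rw [mem_range]
    omega
  have hF0dis : ∀ Q ∈ F0, ∀ Q' ∈ F0, Q ≠ Q' → (Q ∩ Q').card < 2 - 1 := by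
    intro Q hQ Q' hQ' hne
    obtain ⟨j, hj, rfl⟩ := mem_image.mp hQ
    obtain ⟨j', hj', rfl⟩ := mem_image.mp hQ'
    have : S j ∩ S j' = ∅ := by
      rw [eq_empty_iff_forall_notMem]
      intro v hv
      obtain ⟨h1, h2⟩ := mem_inter.mp hv
      exact hne (by rw [hSdisj j j' v h1 h2])
    rw [this]; simp
  set F : Finset (Finset ℕ) := Ed 2 F0 with hF
  have hFdeg : ∀ v : Finset ℕ, v.card = 1 → ((F.filter (fun e => v ⊆ e)).card : ℝ) ≤ k := by
    intro v hv
    exact_mod_cast ed_deg (r := 2) (by norm_num) (fun Y hY => (hF0k Y hY).le) hF0dis hv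
  -- residues
  set σ : ℕ → ℕ := fun v => (F0.filter (fun Q => v ∈ Q)).card with hσ
  set ρ' : ℕ → ℕ := fun v => ρ v + (M - 1) * σ v with hρ'
  set s : ℕ → ℕ := fun v => (∑ j ∈ range (v + 1), ρ' j) % M with hs
  have hMcast : ((M : ℕ) : ZMod M) = 0 := ZMod.natCast_self M
  have hM1cast : ((M - 1 : ℕ) : ZMod M) = -1 := by
    rw [Nat.cast_sub hM, hMcast]; simp
  have hσsum : ∑ v ∈ range n, σ v = k * b0 := by
    have h1 : ∀ v, σ v = ∑ Q ∈ F0, if v ∈ Q then 1 else 0 := by
      intro v
      rw [hσ]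
      simp only
      rw [card_filter]
    simp_rw [h1]
    rw [sum_comm]
    have h2 : ∀ Q ∈ F0, (∑ v ∈ range n, if v ∈ Q then 1 else 0) = k := by
      intro Q hQ
      rw [← card_filter, ← hF0k Q hQ]
      congr 1
      ext v
      simp only [mem_filter]
      exact ⟨fun h => h.2, fun h => ⟨hF0n Q hQ h, h⟩⟩
    rw [sum_congr rfl h2, sum_const, smul_eq_mul, hF0card, mul_comm]
  have hb0cast : ((b0 : ℕ) : ZMod M) = (β : ZMod M) := by
    rw [hb0, ZMod.natCast_mod]
  have hsn : s (n - 1) = 0 := by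
    have h1 : n - 1 + 1 = n := by omega
    rw [hs]
    simp only [h1]
    rw [← Nat.dvd_iff_mod_eq_zero, ← ZMod.natCast_eq_zero_iff]
    have h2 := (ZMod.natCast_eq_natCast_iff _ _ _).mpr hsum
    rw [hρ', sum_add_distrib, ← mul_sum, hσsum]
    push_cast
    push_cast at h2
    rw [h2, hM1cast, hb0cast]
    ring
  have hsM : ∀ v, s v < M := fun v => Nat.mod_lt _ (by omega)
  have hs0 : ((s 0 : ℕ) : ZMod M) = (ρ' 0 : ZMod M) := by
    rw [hs]
    simp only
    rw [ZMod.natCast_mod]
    simp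
  have hsS : ∀ v, ((s (v + 1) : ℕ) : ZMod M) = (s v : ZMod M) + (ρ' (v + 1) : ZMod M) := by
    intro v
    rw [hs]
    simp only
    rw [ZMod.natCast_mod, ZMod.natCast_mod, sum_range_succ]
    push_cast
    ring
  -- tasks
  set T : Finset (ℕ × ℕ) := (range n ×ˢ range M).filter (fun t => t.2 < s t.1) with hT
  have hTlt : ∀ t ∈ T, t.1 + 1 < n := by
    intro t ht
    obtain ⟨h1, h2⟩ := mem_filter.mp ht
    have h3 := mem_range.mp (mem_product.mp h1).1
    by_contra hcon
    have : t.1 = n - 1 := by omega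
    rw [this, hsn] at h2
    omega
  set Y : ℕ × ℕ → Finset ℕ := fun t => {t.1, t.1 + 1} with hY
  set X : ℕ × ℕ → Finset ℕ := fun t => range n \ Y t with hX
  have hYcard : ∀ t, (Y t).card = 2 := by
    intro t
    rw [hY]
    exact card_pair (by simp)
  have hYn : ∀ t ∈ T, Y t ⊆ range n := by
    intro t ht v hv
    have := hTlt t ht
    simp only [hY, mem_insert, mem_singleton] at hv
    rw [mem_range]
    omega
  have hTcard : (T.card : ℝ) ≤ n * M := by
    have : T.card ≤ n * M := by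
      refine (card_filter_le _ _).trans ?_
      rw [card_product, card_range, card_range]
    exact_mod_cast this
  have hwsq : w ≤ w ^ 2 := by nlinarith
  obtain ⟨Z, hZ1, hZ2, hZ3, hZ4, _⟩ := hemb n (ℕ × ℕ) ℕ T Y X ∅ (fun _ => (0, 0)) (fun _ => ∅) F
    2 ε (by norm_num) (by positivity)
    (by
      rw [hε]
      rw [mul_one_div, div_le_one (by positivity)]
      norm_num
      nlinarith)
    (by
      rw [hεn]
      have hw1 : (1 : ℝ) ≤ (n : ℝ) := by exact_mod_cast (by omega : 1 ≤ n)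
      have h1 : Real.log ((n : ℝ) + 1) ≤ ((n : ℝ) + 1) ^ (1 / 4 : ℝ) / (1 / 4) :=
        Real.log_le_rpow_div (by positivity) (by norm_num)
      have h2 : ((n : ℝ) + 1) ^ (1 / 4 : ℝ) ≤ 2 * w := by
        have h3 : (n : ℝ) + 1 ≤ (2 * w) ^ 4 := by
          rw [mul_pow, hwn]; linarith
        calc ((n : ℝ) + 1) ^ (1 / 4 : ℝ) ≤ ((2 * w) ^ 4) ^ (1 / 4 : ℝ) :=
              Real.rpow_le_rpow (by positivity) h3 (by norm_num)
          _ = 2 * w := by
              rw [← Real.rpow_natCast, ← Real.rpow_mul (by positivity)]; norm_num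
      have h4 : Real.log ((n : ℝ) + 1) ≤ 8 * w := by
        refine h1.trans ?_
        rw [div_le_iff₀ (by norm_num)]
        linarith
      calc Kc * Real.log ((n : ℝ) + 1) ≤ Kc * (8 * w) := by
            exact mul_le_mul_of_nonneg_left h4 (by linarith)
        _ ≤ w ^ 2 := by nlinarith)
    (fun t ht => ⟨hYn t ht, (hYcard t).le, sdiff_subset, sdiff_disjoint, by
      rw [hX]
      simp only
      rw [card_sdiff_of_subset (hYn t ht), card_range, hYcard, Nat.cast_sub (by omega)]
      have : (4 : ℝ) ≤ n := by exact_mod_cast hn4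
      push_cast
      linarith⟩)
    (by simp)
    (by simp)
    (by
      intro e he
      obtain ⟨Q, hQ, heQ⟩ := mem_biUnion.mp he
      have := mem_powersetCard.mp heQ
      exact mem_powersetCard.mpr ⟨this.1.trans (hF0n Q hQ), this.2⟩)
    (by
      intro v hv
      rw [hεn]
      exact (hFdeg v hv).trans (hkw.trans hwsq))
    (by
      intro h hh
      rcases Nat.eq_zero_or_pos h.card with h0 | h0
      · have h1 : ((T.filter (fun t => h ⊆ Y t)).card : ℝ) ≤ T.card := by
          exact_mod_cast card_filter_le _ _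
        rw [h0, Nat.sub_zero]
        refine h1.trans (hTcard.trans ?_)
        have : ε * (n : ℝ) ^ 2 = w ^ 2 * n := by
          rw [pow_two, ← mul_assoc, hεn]
        rw [this]
        have : (M : ℝ) ≤ w ^ 2 := by linarith
        have hn0 : (0 : ℝ) ≤ n := Nat.cast_nonneg n
        nlinarith
      · have h1 : h.card = 1 := by omega
        obtain ⟨v, hv⟩ := card_eq_one.mp h1
        rw [h1]
        have h2 : (2 - 1 : ℕ) = 1 := rfl
        rw [h2, pow_one, hεn]
        have h3 : T.filter (fun t => h ⊆ Y t) ⊆ ({v, v - 1} : Finset ℕ) ×ˢ range M := by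
          intro t ht
          obtain ⟨ht1, ht2⟩ := mem_filter.mp ht
          rw [hv, singleton_subset_iff] at ht2
          simp only [hY, mem_insert, mem_singleton] at ht2
          rw [mem_product]
          refine ⟨?_, (mem_product.mp (mem_filter.mp ht1).1).2⟩
          simp only [mem_insert, mem_singleton]
          omega
        have h4 : (T.filter (fun t => h ⊆ Y t)).card ≤ 2 * M := by
          refine (card_le_card h3).trans ?_
          rw [card_product, card_range]
          exact Nat.mul_le_mul_right M card_le_two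
        calc ((T.filter (fun t => h ⊆ Y t)).card : ℝ) ≤ 2 * M := by exact_mod_cast h4
          _ ≤ w ^ 2 := by linarith)
    (by
      intro h hh
      simp only [filter_empty, card_empty, Nat.cast_zero]
      positivity)
  -- the gadgets
  have hgadT : ∀ t ∈ T, ∃ G : Finset (Finset ℕ),
        (∀ Q ∈ G, Q ⊆ insert t.1 (insert (t.1 + 1) (Z t)) ∧ Q.card = k ∧
          ¬ (t.1 ∈ Q ∧ t.1 + 1 ∈ Q)) ∧
        (∀ Q ∈ G, ∀ Q' ∈ G, Q ≠ Q' → (Q ∩ Q').card < 2) ∧ G.card = N ∧
        (G.filter (fun Q => t.1 ∈ Q)).card = 1 ∧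
        (G.filter (fun Q => t.1 + 1 ∈ Q)).card = M - 1 ∧
        ∀ z ∈ Z t, (G.filter (fun Q => z ∈ Q)).card = M := by
    intro t ht
    obtain ⟨h1, h2⟩ := hZ1 t ht
    refine hgad t.1 (t.1 + 1) (Z t) (by omega) ?_ ?_ h2
    · intro h3
      have := (mem_sdiff.mp (h1 h3)).2
      exact this (by simp [hY])
    · intro h3
      have := (mem_sdiff.mp (h1 h3)).2
      exact this (by simp [hY])
  choose! G hG1 hG2 hG3 hG4 hG5 hG6 using hgadT
  have hpairG : ∀ t ∈ T, ∀ Q ∈ G t, ∀ e : Finset ℕ, e ⊆ Q → e.card = 2 →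
      e ∈ claim 2 (Y t) (Z t) := by
    intro t ht Q hQ e he he2
    obtain ⟨h1, h2, h3⟩ := hG1 t ht Q hQ
    refine mem_claim.mpr ⟨?_, he2, ?_⟩
    · intro v hv
      have := h1 (he hv)
      simp only [mem_insert] at this
      simp only [hY, mem_union, mem_insert, mem_singleton]
      tauto
    · intro hdis
      have h4 : e ⊆ Y t := by
        intro v hv
        have := h1 (he hv)
        simp only [mem_insert] at this
        simp only [hY, mem_insert, mem_singleton]
        have h5 := (disjoint_left.mp hdis) hv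
        tauto
      have h5 : e = Y t := eq_of_subset_of_card_le h4 (by rw [hYcard, he2])
      apply h3
      constructor
      · apply he; rw [h5]; simp [hY]
      · apply he; rw [h5]; simp [hY]
  have hcross : ∀ t ∈ T, ∀ t' ∈ T, t ≠ t' → ∀ Q ∈ G t, ∀ Q' ∈ G t', (Q ∩ Q').card < 2 := by
    intro t ht t' ht' hne Q hQ Q' hQ'
    by_contra hcon
    obtain ⟨e, he1, he2⟩ := exists_subset_card_eq (n := 2) (s := Q ∩ Q') (by omega)
    have h1 := hpairG t ht Q hQ e (he1.trans inter_subset_left) he2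
    have h2 := hpairG t' ht' Q' hQ' e (he1.trans inter_subset_right) he2
    exact (disjoint_left.mp (hZ3 t ht t' ht' hne)) h1 h2
  have hcrossF : ∀ t ∈ T, ∀ Q ∈ G t, ∀ Q' ∈ F0, (Q ∩ Q').card < 2 := by
    intro t ht Q hQ Q' hQ'
    by_contra hcon
    obtain ⟨e, he1, he2⟩ := exists_subset_card_eq (n := 2) (s := Q ∩ Q') (by omega)
    have h1 := hpairG t ht Q hQ e (he1.trans inter_subset_left) he2
    have h2 : e ∈ F := mem_biUnion.mpr ⟨Q', hQ',
      mem_powersetCard.mpr ⟨he1.trans inter_subset_right, he2⟩⟩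
    exact (disjoint_left.mp (hZ2 t ht)) h1 h2
  have hGk : ∀ t ∈ T, ∀ Q ∈ G t, Q.card = k := fun t ht Q hQ => (hG1 t ht Q hQ).2.1
  have hGn : ∀ t ∈ T, ∀ Q ∈ G t, Q ⊆ range n := by
    intro t ht Q hQ
    refine (hG1 t ht Q hQ).1.trans ?_
    intro v hv
    simp only [mem_insert] at hv
    have h1 := hTlt t ht
    rcases hv with rfl | rfl | hv
    · rw [mem_range]; omega
    · rw [mem_range]; omega
    · exact (mem_sdiff.mp ((hZ1 t ht).1 hv)).1
  set P : Finset (Finset ℕ) := F0 ∪ T.biUnion G with hP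
  have hdisFG : Disjoint F0 (T.biUnion G) := by
    rw [disjoint_left]
    intro Q hQ hQ2
    obtain ⟨t, ht, hQt⟩ := mem_biUnion.mp hQ2
    have := hcrossF t ht Q hQt Q hQ
    rw [inter_self, hF0k Q hQ] at this
    omega
  have hdisGG : ∀ t ∈ T, ∀ t' ∈ T, t ≠ t' → Disjoint (G t) (G t') := by
    intro t ht t' ht' hne
    rw [disjoint_left]
    intro Q hQ hQ2
    have := hcross t ht t' ht' hne Q hQ Q hQ2
    rw [inter_self, hGk t ht Q hQ] at this
    omega
  refine ⟨P, ⟨?_, ?_⟩, ?_, ?_, ?_⟩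
  · intro Q hQ
    rcases mem_union.mp hQ with h | h
    · exact ⟨hF0n Q h, hF0k Q h⟩
    · obtain ⟨t, ht, hQt⟩ := mem_biUnion.mp h
      exact ⟨hGn t ht Q hQt, hGk t ht Q hQt⟩
  · intro Q hQ Q' hQ' hne
    rcases mem_union.mp hQ with h | h
    · rcases mem_union.mp hQ' with h' | h'
      · have := hF0dis Q h Q' h' hne
        omega
      · obtain ⟨t, ht, hQt⟩ := mem_biUnion.mp h'
        rw [inter_comm]
        exact hcrossF t ht Q' hQt Q h
    · obtain ⟨t, ht, hQt⟩ := mem_biUnion.mp h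
      rcases mem_union.mp hQ' with h' | h'
      · exact hcrossF t ht Q hQt Q' h'
      · obtain ⟨t', ht', hQt'⟩ := mem_biUnion.mp h'
        by_cases htt : t = t'
        · subst htt
          exact hG2 t ht Q hQt Q' hQt' hne
        · exact hcross t ht t' ht' htt Q hQt Q' hQt'
  · -- degrees of the pairs
    intro v hv
    rw [hw34]
    have hsub : Ed 2 P ⊆ F ∪ T.biUnion (fun t => claim 2 (Y t) (Z t)) := by
      intro e he
      obtain ⟨Q, hQ, heQ⟩ := mem_biUnion.mp he
      have heQ' := mem_powersetCard.mp heQ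
      rcases mem_union.mp hQ with h | h
      · exact mem_union_left _ (mem_biUnion.mpr ⟨Q, h, heQ⟩)
      · obtain ⟨t, ht, hQt⟩ := mem_biUnion.mp h
        exact mem_union_right _ (mem_biUnion.mpr ⟨t, ht, hpairG t ht Q hQt e heQ'.1 heQ'.2⟩)
    have h1 : ((Ed 2 P).filter (fun e => v ⊆ e)).card ≤
        (F.filter (fun e => v ⊆ e)).card +
        ((T.biUnion (fun t => claim 2 (Y t) (Z t))).filter (fun e => v ⊆ e)).card := by
      refine (card_le_card (filter_subset_filter _ hsub)).trans ?_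
      rw [filter_union]
      exact card_union_le _ _
    have h2 := hFdeg v hv
    have h3 := hZ4 v hv
    have h4 : (((Ed 2 P).filter (fun e => v ⊆ e)).card : ℝ) ≤
        ((F.filter (fun e => v ⊆ e)).card : ℝ) +
        ((T.biUnion (fun t => claim 2 (Y t) (Z t))).filter (fun e => v ⊆ e)).card := by
      exact_mod_cast h1
    have h5 : Kc * 2 ^ 2 * ε * n = 4 * Kc * w ^ 2 := by
      rw [mul_assoc (Kc * 2 ^ 2), hεn]; ring
    rw [h5] at h3
    have h6 : (1 : ℝ) ≤ w ^ 2 := by nlinarith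
    calc (((Ed 2 P).filter (fun e => v ⊆ e)).card : ℝ) ≤ k + 4 * Kc * w ^ 2 := by linarith
      _ ≤ k * w ^ 2 + 4 * Kc * w ^ 2 := by nlinarith
      _ = (k + 4 * Kc) * w ^ 2 := by ring
      _ ≤ w * w ^ 2 := by
          apply mul_le_mul_of_nonneg_right _ (by positivity)
          linarith
      _ = w ^ 3 := by ring
  · intro v hv
    rw [← ZMod.natCast_eq_natCast_iff]
    have h1 : (P.filter (fun Q => v ∈ Q)).card = σ v + ∑ t ∈ T, ((G t).filter (fun Q => v ∈ Q)).card := by
      rw [hP, filter_union, card_union_of_disjoint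
        (hdisFG.mono (filter_subset _ _) (filter_subset _ _)), filter_biUnion, card_biUnion]
      intro t ht t' ht' hne
      exact (hdisGG t ht t' ht' hne).mono (filter_subset _ _) (filter_subset _ _)
    have h2 : ∀ t ∈ T, ((((G t).filter (fun Q => v ∈ Q)).card : ℕ) : ZMod M) =
        (if t.1 = v then 1 else 0) + (if t.1 + 1 = v then -1 else 0) := by
      intro t ht
      by_cases hv1 : t.1 = v
      · have : ¬ (t.1 + 1 = v) := by omega
        rw [if_pos hv1, if_neg this, ← hv1, hG4 t ht]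
        simp
      · by_cases hv2 : t.1 + 1 = v
        · rw [if_neg hv1, if_pos hv2, ← hv2, hG5 t ht, hM1cast]
          simp
        · rw [if_neg hv1, if_neg hv2]
          by_cases hv3 : v ∈ Z t
          · rw [hG6 t ht v hv3, hMcast]; simp
          · have : (G t).filter (fun Q => v ∈ Q) = ∅ := by
              rw [filter_eq_empty_iff]
              intro Q hQ hvQ
              have := (hG1 t ht Q hQ).1 hvQ
              simp only [mem_insert] at this
              rcases this with h | h | h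
              · exact hv1 h.symm
              · exact hv2 h.symm
              · exact hv3 h
            rw [this]; simp
    have hcount : ∀ u < n, ∑ t ∈ T, (if t.1 = u then (1 : ZMod M) else 0) = (s u : ZMod M) := by
      intro u hu
      rw [← sum_filter, sum_const, nsmul_eq_mul, mul_one]
      congr 1
      have : T.filter (fun t => t.1 = u) = (range (s u)).image (fun l => (u, l)) := by
        ext ⟨a, l⟩
        simp only [hT, mem_filter, mem_product, mem_range, mem_image, Prod.mk.injEq]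
        constructor
        · rintro ⟨⟨⟨h1, h2⟩, h3⟩, rfl⟩
          exact ⟨l, h3, rfl, rfl⟩
        · rintro ⟨l', h3, rfl, rfl⟩
          exact ⟨⟨⟨hu, h3.trans (hsM u)⟩, h3⟩, rfl⟩
      rw [this, card_image_of_injective _ (fun a b h => (Prod.mk.inj h).2), card_range]
    rw [h1]
    push_cast
    rw [sum_congr rfl h2, sum_add_distrib, hcount v hv]
    rcases Nat.eq_zero_or_pos v with h0 | h0
    · subst h0
      have : ∑ t ∈ T, (if t.1 + 1 = 0 then (-1 : ZMod M) else 0) = 0 := by
        apply sum_eq_zero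
        intro t _
        rw [if_neg (by omega)]
      rw [this, hs0, hρ']
      push_cast
      rw [hM1cast]
      ring
    · obtain ⟨u, rfl⟩ : ∃ u, v = u + 1 := ⟨v - 1, by omega⟩
      have : ∑ t ∈ T, (if t.1 + 1 = u + 1 then (-1 : ZMod M) else 0) = - (s u : ZMod M) := by
        rw [← hcount u (by omega), ← sum_neg_distrib]
        apply sum_congr rfl
        intro t _
        by_cases h : t.1 = u
        · rw [if_pos (by omega), if_pos h]
        · rw [if_neg (by omega), if_neg h]; simp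
      rw [this, hsS u, hρ']
      push_cast
      rw [hM1cast]
      ring
  · rw [hP, card_union_of_disjoint hdisFG, hF0card, card_biUnion hdisGG]
    rw [sum_congr rfl (fun t ht => hG3 t ht), sum_const, smul_eq_mul,
      ← ZMod.natCast_eq_natCast_iff]
    obtain ⟨N', rfl⟩ := hMN
    push_cast
    rw [hMcast, hb0cast]
    ring

end Pool.Agent.RDS
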