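import Pool.Agent.Work.MP_5dff62_co.TripFin

set_option autoImplicit false

/-!
# Module D, part 5: the colouring at a finite point is proper
-/

namespace Pool.Agent.RDS

open Finset

namespace TSkein

variable {W : Type} [LinearOrder W] (S : TSkein (Option W)) {β : Type}

section facts

variable {C : Finset β} {F : Option W → Option W → β} {a : W}

theorem some_ne {b : W} (h : b ≠ a) : (some b : Option W) ≠ some a :=
  fun e => h (Option.some.inj e)

theorem hF1 (h : S.FunCol (some a) C F) {b : W} (hb : b ≠ a) : F none (some b) ∈ C :=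
  h.1 _ _ (by simp) (some_ne hb) (by simp)

theorem hF3 (h : S.FunCol (some a) C F) {b : W} (hb : b ≠ a) :
    F none (some b) = F none (some (S.th a b)) := by
  rw [h.2.2.1 none (some b) (by simp) (some_ne hb) (by simp), S.s1, S.q_none hb.symm]

theorem hF4 (h : S.FunCol (some a) C F) {b b' : W} (hb : b ≠ a) (hb' : b' ≠ a)
    (he : F none (some b) = F none (some b')) : b' = b ∨ b' = S.th a b := by
  have h1 := h.2.2.2 none (some b) (some b') (by simp) (some_ne hb) (by simp) (some_ne hb')
    (by simp) he
  rw [S.s1, S.q_none hb.symm] at h1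
  rcases h1 with h1 | h1
  · exact Or.inl (Option.some.inj h1)
  · exact Or.inr (Option.some.inj h1)

theorem hF6 (h : S.FunCol (some a) C F) {b d : W} (hb : b ≠ a) (hd : d ≠ a) (hdb : d ≠ b)
    (hd2 : d ≠ S.th a b) : F none (some b) ≠ F (some b) (some d) := by
  intro he
  rw [h.2.1 none (some b) (by simp) (some_ne hb) (by simp)] at he
  have h1 := h.2.2.2 (some b) none (some d) (some_ne hb) (by simp) (by simp) (some_ne hd)
    (some_ne hdb).symm he
  rw [S.s2, S.s1, S.q_none hb.symm] at h1
  rcases h1 with h1 | h1
  · simp at h1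
  · exact hd2 (Option.some.inj h1)

theorem hF7 (h : S.FunCol (some a) C F) {b d : W} (hb : b ≠ a) (hd : d ≠ a) (hdb : d ≠ b)
    (hd2 : d ≠ S.th a b) : F (some b) (some d) = F (some b) (some (S.fo a b d)) := by
  rw [h.2.2.1 (some b) (some d) (some_ne hb) (some_ne hd) (some_ne hdb).symm, S.q_fo hb.symm hd2]

theorem hF8 (h : S.FunCol (some a) C F) {b d d' : W} (hb : b ≠ a) (hd : d ≠ a) (hdb : d ≠ b)
    (hd2 : d ≠ S.th a b) (hd' : d' ≠ a) (hdb' : d' ≠ b)
    (he : F (some b) (some d) = F (some b) (some d')) : d' = d ∨ d' = S.fo a b d := by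
  have h1 := h.2.2.2 (some b) (some d) (some d') (some_ne hb) (some_ne hd) (some_ne hdb).symm
    (some_ne hd') (some_ne hdb').symm he
  rw [S.q_fo hb.symm hd2] at h1
  rcases h1 with h1 | h1
  · exact Or.inl (Option.some.inj h1)
  · exact Or.inr (Option.some.inj h1)

theorem th_eq_swap {b c : W} (h : a ≠ b) (e : c = S.th a b) : b = S.th a c := by
  rw [e, S.th_th h]

/-- clause 3 at `(b,j)`, `b ≠ a` -/
theorem c3_main (h : S.FunCol (some a) C F) {b : W} (hb : b ≠ a) (i j : ZMod 3)
    (z : Option (W × ZMod 3)) (hz : z ≠ some (a, i)) (hyz : some (b, j) ≠ z) :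
    S.GFin F a i (some (b, j)) z =
      S.GFin F a i (some (b, j)) (S.Q3 (some (a, i)) (some (b, j)) z) := by
  rcases S.loc_cases a b z with ⟨t, rfl⟩ | ⟨d, k, h1, h2, h3, rfl⟩
  · rw [S.loc_q hb.symm, S.loc_G F hb, S.loc_G F hb, K0_Q0]
    · rintro rfl; exact hz rfl
    · rintro rfl; exact hyz rfl
  · rw [S.q_other hb.symm h1 h2 h3, S.G_other F hb h1 h2 h3,
      S.G_other F hb (S.fo_ne1 hb.symm h2.symm h3) (S.fo_ne2 hb.symm h1.symm h3)
        (S.fo_ne4 hb.symm h3), S.fo_fo hb.symm h3, ← S.hF7 h hb h1 h2 h3, lin_s2,
      show 0 - i - j - k = -i - j - k by ring, show 0 - i - j - (-i - j - k) = k by ring]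

theorem c4_other {b : W} (hb : b ≠ a) (i j : ZMod 3) {d : W} (h1 : d ≠ a) (h2 : d ≠ b)
    (h3 : d ≠ S.th a b) {k k' : ZMod 3}
    (he : S.GFin F a i (some (b, j)) (some (d, k)) = S.GFin F a i (some (b, j)) (some (d, k'))) :
    k = k' := by
  rw [S.G_other F hb h1 h2 h3, S.G_other F hb h1 h2 h3] at he
  simp only [Option.some.injEq, Prod.mk.injEq, true_and] at he
  exact lin_inj h2.symm (S.fo_ne2 hb.symm h1.symm h3).symm (S.fo_ne3 hb.symm h3).symm he

/-- clause 4 at `(b,j)`, `b ≠ a` -/
theorem c4_main (h : S.FunCol (some a) C F) {b : W} (hb : b ≠ a) (i j : ZMod 3)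
    (z z' : Option (W × ZMod 3)) (hz : z ≠ some (a, i)) (hyz : some (b, j) ≠ z)
    (hz' : z' ≠ some (a, i)) (hyz' : some (b, j) ≠ z')
    (he : S.GFin F a i (some (b, j)) z = S.GFin F a i (some (b, j)) z') :
    z' = z ∨ z' = S.Q3 (some (a, i)) (some (b, j)) z := by
  rcases S.loc_cases a b z with ⟨t, rfl⟩ | ⟨d, k, h1, h2, h3, rfl⟩ <;>
    rcases S.loc_cases a b z' with ⟨t', rfl⟩ | ⟨d', k', h1', h2', h3', rfl⟩
  · rw [S.loc_G F hb, S.loc_G F hb] at he
    rw [S.loc_q hb.symm]
    have h5 := K0_inj_aux (dl b (S.th a b)) i j t t' ⟨dl_ne _ _, by rintro rfl; exact hz rfl,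
      by rintro rfl; exact hyz rfl, by rintro rfl; exact hz' rfl, by rintro rfl; exact hyz' rfl,
      cb_inj he⟩
    rcases h5 with h5 | h5
    · left; rw [h5]
    · right; rw [h5]
  · exfalso
    rw [S.loc_G F hb, S.G_other F hb h1' h2' h3'] at he
    obtain ⟨o, ho⟩ : ∃ o, o = K0 (dl b (S.th a b)) i j t := ⟨_, rfl⟩
    rw [← ho] at he
    cases o with
    | none => simp [cb] at he
    | some u =>
      simp only [cb, Option.map_some, Option.some.injEq, Prod.mk.injEq] at he
      exact S.hF6 h hb h1' h2' h3' he.1
  · exfalso
    rw [S.loc_G F hb, S.G_other F hb h1 h2 h3] at he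
    obtain ⟨o, ho⟩ : ∃ o, o = K0 (dl b (S.th a b)) i j t' := ⟨_, rfl⟩
    rw [← ho] at he
    cases o with
    | none => simp [cb] at he
    | some u =>
      simp only [cb, Option.map_some, Option.some.injEq, Prod.mk.injEq] at he
      exact S.hF6 h hb h1 h2 h3 he.1.symm
  · have he2 := he
    rw [S.G_other F hb h1 h2 h3, S.G_other F hb h1' h2' h3'] at he2
    simp only [Option.some.injEq, Prod.mk.injEq] at he2
    rcases S.hF8 h hb h1 h2 h3 h1' h2' he2.1 with h5 | h5
    · left
      subst h5
      rw [S.c4_other hb i j h1 h2 h3 he]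
    · right
      subst h5
      rw [S.c3_main h hb i j _ hz hyz, S.q_other hb.symm h1 h2 h3] at he
      rw [S.q_other hb.symm h1 h2 h3, S.c4_other hb i j h1' h2' h3' he]

end facts

theorem G_inf (F : Option W → Option W → β) {a b : W} (hba : b ≠ a) (i j : ZMod 3) :
    S.GFin F a i none (some (b, j)) =
      cb (F none (some b)) (K0 (dl b (S.th a b)) i j none) := by
  simp only [GFin, if_neg hba]

theorem G_a (F : Option W → Option W → β) {a b : W} (hba : b ≠ a) (i j k : ZMod 3) :
    S.GFin F a i (some (a, j)) (some (b, k)) =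
      cb (F none (some b)) (K0 (dl b (S.th a b)) i k (some (0, j))) := by
  simp only [GFin, if_neg hba, if_true]

theorem G_comm {C : Finset β} {F : Option W → Option W → β} {a : W} (h : S.FunCol (some a) C F)
    (i : ZMod 3) (y z : Option (W × ZMod 3)) :
    S.GFin F a i y z = S.GFin F a i z y := by
  rcases y with _ | ⟨b, j⟩ <;> rcases z with _ | ⟨c, k⟩
  · rfl
  · simp only [GFin]
  · simp only [GFin]
  · by_cases h1 : b = a
    · subst h1
      by_cases h2 : c = b
      · subst h2
        simp only [GFin, if_true]
      · simp only [GFin, if_true, if_neg h2]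
    · by_cases h2 : c = a
      · subst h2
        simp only [GFin, if_true, if_neg h1]
      · by_cases h3 : c = b
        · subst h3
          simp only [GFin, if_true, if_neg h2]
          rw [K0_s1]
        · by_cases h4 : c = S.th a b
          · have h5 := S.th_eq_swap (Ne.symm h1) h4
            have h6 : F none (some b) = F none (some c) := by rw [h4, S.hF3 h h1]
            simp only [GFin, if_neg h1, if_neg h2, if_neg h3, if_pos h4, if_neg (Ne.symm h3),
              if_pos h5]
            rw [h6, K0_s2, ← h4, ← h5, ← dl_swap (Ne.symm h3)]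
          · have h5 : b ≠ S.th a c := fun e => h4 (S.th_eq_swap (Ne.symm h2) e)
            simp only [GFin, if_neg h1, if_neg h2, if_neg h3, if_neg h4, if_neg (Ne.symm h3),
              if_neg h5]
            rw [h.2.1 (some b) (some c) (some_ne h1) (some_ne h2) (some_ne h3).symm,
              S.fo_s1 (Ne.symm h1) (Ne.symm h2) h4, lin_s1, show 0 - i - j - k = 0 - i - k - j by ring]

theorem G_mem {C : Finset β} {F : Option W → Option W → β} {a : W} (h : S.FunCol (some a) C F)
    (i : ZMod 3) (y z : Option (W × ZMod 3)) :
    S.GFin F a i y z ∈ insertNone (C ×ˢ (univ : Finset (ZMod 3))) := by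
  have key : ∀ b j z, b ≠ a → S.GFin F a i (some (b, j)) z ∈
      insertNone (C ×ˢ (univ : Finset (ZMod 3))) := by
    intro b j z hb
    rcases S.loc_cases a b z with ⟨t, rfl⟩ | ⟨d, k, h1, h2, h3, rfl⟩
    · rw [S.loc_G F hb]
      exact cb_mem (S.hF1 h hb) _
    · rw [S.G_other F hb h1 h2 h3]
      simp only [some_mem_insertNone, mem_product, mem_univ, and_true]
      exact h.1 _ _ (some_ne hb) (some_ne h1) (some_ne h2).symm
  rcases y with _ | ⟨b, j⟩
  · rcases z with _ | ⟨c, k⟩
    · simp [GFin]
    · by_cases hc : c = a
      · simp [GFin, hc]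
      · rw [S.G_comm h]
        exact key c k _ hc
  · by_cases hb : b = a
    · rcases z with _ | ⟨c, k⟩
      · simp [GFin, hb]
      · by_cases hc : c = a
        · simp [GFin, hb, hc]
        · rw [S.G_comm h]
          exact key c k _ hc
    · exact key b j z hb

theorem c3_inf {C : Finset β} {F : Option W → Option W → β} {a b : W}
    (h : S.FunCol (some a) C F) (hb : b ≠ a) (i j : ZMod 3) :
    S.GFin F a i none (some (b, j)) = S.GFin F a i none (some (S.th a b, -i - j)) := by
  rw [S.G_inf F hb, S.G_inf F (S.th_ne1 hb.symm), S.th_th hb.symm, ← S.hF3 h hb, K0_i2,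
    ← dl_swap (S.th_ne2 hb.symm).symm]

theorem c3_a {C : Finset β} {F : Option W → Option W → β} {a b : W}
    (h : S.FunCol (some a) C F) (hb : b ≠ a) (i j k : ZMod 3) (hij : i ≠ j) :
    S.GFin F a i (some (a, j)) (some (b, k)) = S.GFin F a i (some (a, j))
      (S.Q3 (some (a, i)) (some (a, j)) (some (b, k))) := by
  have h5 := K0_i5 (dl b (S.th a b)) i j k hij
  simp only [Q3, U3, if_true, if_neg hij, if_neg hb.symm]
  split_ifs with g1 g2
  · rw [S.G_a F hb, S.G_a F hb, h5.1 g1]
  · rw [S.G_a F hb, S.G_a F hb, h5.2.1 g2]
  · rw [S.G_a F hb, S.G_a F (S.th_ne1 hb.symm), S.th_th hb.symm, ← S.hF3 h hb, h5.2.2 g1 g2,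
      ← dl_swap (S.th_ne2 hb.symm).symm]

theorem funCol_fin {C : Finset β} {F : Option W → Option W → β} {a : W}
    (h : S.FunCol (some a) C F) (i : ZMod 3) :
    S.trip.FunCol (some (a, i)) (insertNone (C ×ˢ (univ : Finset (ZMod 3)))) (S.GFin F a i) := by
  refine ⟨fun y z _ _ _ => S.G_mem h i y z, fun y z _ _ _ => S.G_comm h i y z, ?_, ?_⟩
  · intro y z hy hz hyz
    show _ = S.GFin F a i y (S.Q3 (some (a, i)) y z)
    rcases y with _ | ⟨b, j⟩
    · rcases z with _ | ⟨c, k⟩
      · exact absurd rfl hyz
      · by_cases hc : c = a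
        · subst hc
          have hik : i ≠ k := fun e => hz (by rw [e])
          simp only [Q3, T3, if_true, if_neg hik, GFin]
        · rw [S.c3_inf h hc]
          simp only [Q3, T3, if_neg (Ne.symm hc)]
    · by_cases hb : b = a
      · subst hb
        have hij : i ≠ j := fun e => hy (by rw [e])
        rcases z with _ | ⟨c, k⟩
        · simp only [Q3, T3, if_true, if_neg hij, GFin]
        · by_cases hc : c = b
          · subst hc
            have hik : k ≠ i := fun e => hz (by rw [e])
            have hjk : k ≠ j := fun e => hyz (by rw [e])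
            simp only [Q3, U3, if_true, if_neg hij, if_neg hik, if_neg hjk, GFin]
          · exact S.c3_a h hc i j k hij
      · exact S.c3_main h hb i j z hz hyz
  · intro y z z' hy hz hyz hz' hyz' he
    show _ ∨ z' = S.Q3 (some (a, i)) y z
    rcases y with _ | ⟨b, j⟩
    · rcases z with _ | ⟨c, k⟩
      · exact absurd rfl hyz
      · rcases z' with _ | ⟨c', k'⟩
        · exact absurd rfl hyz'
        · by_cases hc : c = a
          · subst hc
            have hik : i ≠ k := fun e => hz (by rw [e])
            by_cases hc' : c' = c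
            · subst hc'
              have hik' : i ≠ k' := fun e => hz' (by rw [e])
              simp only [Q3, T3, if_true, if_neg hik, Option.some.injEq, Prod.mk.injEq, true_and]
              clear he hyz hyz' hz' hz hy h
              revert hik hik'
              revert i k k'
              decide
            · exfalso
              rw [S.G_inf F hc'] at he
              simp [GFin, cb, K0] at he
          · by_cases hc' : c' = a
            · exfalso
              subst hc'
              rw [S.G_inf F hc] at he
              simp [GFin, cb, K0] at he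
            · have he2 := he
              rw [S.G_inf F hc, S.G_inf F hc'] at he2
              have h5 := cb_inj2 (f := F none (some c)) (f' := F none (some c')) he2
              rcases S.hF4 h hc hc' h5.1 with h6 | h6
              · subst h6
                left
                rw [K0_i1 _ i k k' (dl_ne _ _) (cb_inj he2)]
              · subst h6
                right
                rw [S.c3_inf h hc, S.G_inf F hc', S.G_inf F hc'] at he
                simp only [Q3, T3, if_neg (Ne.symm hc)]
                rw [K0_i1 _ i _ k' (dl_ne _ _) (cb_inj he)]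
    · by_cases hb : b = a
      · subst hb
        have hij : i ≠ j := fun e => hy (by rw [e])
        have special : ∀ w : Option (W × ZMod 3), w ≠ some (b, i) → some (b, j) ≠ w →
            (w = none ∨ w = some (b, -i - j)) ∨ ∃ c k, c ≠ b ∧ w = some (c, k) := by
          intro w hw hjw
          rcases w with _ | ⟨c, k⟩
          · exact Or.inl (Or.inl rfl)
          · by_cases hc : c = b
            · subst hc
              have hik : k ≠ i := fun e => hw (by rw [e])
              have hjk : k ≠ j := fun e => hjw (by rw [e])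
              left; right
              have : k = -i - j := by
                clear he hyz hyz' hz' hz hy h hw hjw
                revert i j k
                decide
              rw [this]
            · exact Or.inr ⟨c, k, hc, rfl⟩
        have q1 : S.Q3 (some (b, i)) (some (b, j)) none = some (b, -i - j) := by
          simp only [Q3, T3, if_true, if_neg hij]
        have q2 : S.Q3 (some (b, i)) (some (b, j)) (some (b, -i - j)) = none := by
          rw [← q1, S.Q3_inv]
        have gs : ∀ w : Option (W × ZMod 3), w = none ∨ w = some (b, -i - j) →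
            S.GFin F b i (some (b, j)) w = none := by
          rintro w (rfl | rfl) <;> simp [GFin]
        have gn : ∀ c k, c ≠ b → S.GFin F b i (some (b, j)) (some (c, k)) ≠ none := by
          intro c k hc
          rw [S.G_a F hc]
          simp [cb, K0]
        rcases special z hz hyz with h1 | ⟨c, k, hc, rfl⟩
        · rcases special z' hz' hyz' with h2 | ⟨c', k', hc', rfl⟩
          · rcases h1 with rfl | rfl <;> rcases h2 with rfl | rfl
            · exact Or.inl rfl
            · exact Or.inr q1.symm
            · exact Or.inr q2.symm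
            · exact Or.inl rfl
          · rw [gs z h1] at he
            exact absurd he.symm (gn c' k' hc')
        · rcases special z' hz' hyz' with h2 | ⟨c', k', hc', rfl⟩
          · rw [gs z' h2] at he
            exact absurd he (gn c k hc)
          · have he2 := he
            rw [S.G_a F hc, S.G_a F hc'] at he2
            have h5 := cb_inj2 (f := F none (some c)) (f' := F none (some c')) he2
            rcases S.hF4 h hc hc' h5.1 with h6 | h6
            · subst h6
              rcases K0_i3 _ i j k k' (dl_ne _ _) hij (cb_inj he2) with h7 | ⟨h7, h8⟩ | ⟨h7, h8⟩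
              · left; rw [h7]
              · right
                simp only [Q3, U3, if_true, if_neg hij, if_neg (Ne.symm hc), if_pos h7, h8]
              · right
                have h9 : k ≠ i := by rw [h7]; exact hij.symm
                simp only [Q3, U3, if_true, if_neg hij, if_neg (Ne.symm hc), if_neg h9, if_pos h7,
                  h8]
            · subst h6
              right
              rw [S.th_th (Ne.symm hc), ← S.hF3 h hc, dl_swap (S.th_ne2 (Ne.symm hc)).symm] at he2
              obtain ⟨h7, h8, h9⟩ := K0_i4 _ i j k k' (dl_ne _ _) hij (cb_inj he2)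
              simp only [Q3, U3, if_true, if_neg hij, if_neg (Ne.symm hc), if_neg h7, if_neg h8, h9]
      · exact S.c4_main h hb i j z z' hz hyz hz' hyz' he

end TSkein

end Pool.Agent.RDS
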