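import Pool.Agent.Work.MP_5dff62_co.Closure
import Pool.Agent.Work.MP_5dff62_co.TripCol

set_option autoImplicit false

/-!
# Module D: tripling

`n = w+1`, old points `Option (Fin w)` (`∞ = none`), new points `Option (Fin w × ZMod 3)`.
Blocks (checked by computer for 10 → 28, 16 → 46 → 136):
(1) `{∞, a_0, a_1, a_2}`
(2) `{∞, a_i, b_j, c_k}`, `i+j+k = 0`, for `{∞,a,b,c}` an old block
(3) `{a_i, a_j, b_i, b_j}` for all `a ≠ b`, `i ≠ j`
(4) `{a_i, a_j, b_m, c_m}`, `{i,j,m} = Z_3`, for `{∞,a,b,c}` an old block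
(5) `{a_i, b_j, c_k, d_l}`, `i+j+k+l = 0`, for `{a,b,c,d}` an old block.
Colours at `∞`: special for (1); `(σ_∞{∞,a,b,c}, j-i)` for (2) with `a<b<c` (order of `Fin w`).
Colours at `a_i` (`σ` = old colour at `a`; for an old block `{∞,a,b,c}` with `b<c` say):
(1) special; (2) `(σ, j-i)` where `b_j` is the point over the first of the two, `b<c`;
(3) `{a_i,a_j,b_i,b_j}`: `(σ{∞,a,b,c}, i-j)` if `b` is the first of `b,c`, `(σ, j-i)` if `b` is the
second; (4) with `a` the doubled point: `(σ, 0)`; with `b` doubled: special;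
(5) `(σ{a,b,c,d}, j-k)` where `b<c` are the two smallest of the other three.
-/

namespace Pool.Agent.RDS

open Finset

theorem tripling {n : ℕ} (hn : 4 ≤ n) (_hn2 : n % 2 = 0) (h : RDn n) : RDn (3 * n - 2) := by
  obtain ⟨w, rfl⟩ : ∃ w, n = w + 1 := ⟨n - 1, by omega⟩
  obtain ⟨𝓑, hS, hC⟩ := RDn_on h (univ : Finset (Option (Fin w))) (by simp)
  obtain ⟨S, rfl⟩ := exists_skein hS
  have hcard : ∀ {β : Type} (C : Finset β), 2 * C.card + 2 ≤ Fintype.card (Option (Fin w)) →
      2 * (insertNone (C ×ˢ (univ : Finset (ZMod 3)))).card + 2 ≤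
        Fintype.card (Option (Fin w × ZMod 3)) := by
    intro β C h
    rw [card_insertNone, card_product, card_univ, ZMod.card]
    rw [Fintype.card_option, Fintype.card_fin] at h
    rw [Fintype.card_option, Fintype.card_prod, Fintype.card_fin, ZMod.card]
    omega
  have hRD : RD (univ : Finset (Option (Fin w × ZMod 3))) S.trip.blocks := by
    refine ⟨S.trip.sqs, ?_⟩
    rintro (_ | ⟨a, i⟩) -
    · obtain ⟨β, C, F, h1, h2⟩ := S.funCol_of_colAt (hC none (mem_univ _))
      exact S.trip.colAt_of_funCol (hcard C h1) (S.funCol_inf h2)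
    · obtain ⟨β, C, F, h1, h2⟩ := S.funCol_of_colAt (hC (some a) (mem_univ _))
      exact S.trip.colAt_of_funCol (hcard C h1) (S.funCol_fin h2 i)
  have h3 := RD_RDn hRD
  have h4 : (univ : Finset (Option (Fin w × ZMod 3))).card = 3 * (w + 1) - 2 := by
    rw [card_univ, Fintype.card_option, Fintype.card_prod, Fintype.card_fin, ZMod.card]
    omega
  rw [h4] at h3
  exact h3

end Pool.Agent.RDS
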