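import Pool.Agent.Work.MP_5dff62_co.Closure
import Pool.Agent.Work.MP_5dff62_co.Tripling
import Pool.Agent.Work.MP_5dff62_co.Base
import Pool.Agent.Work.MP_5dff62_co.DecompExt
import Pool.Agent.Work.MP_5dff62_co.LemmaG
import Pool.Agent.Work.MP_5dff62_co.Divis

set_option autoImplicit false

/-!
# Assembly
-/

namespace Pool.Agent.RDS

open Finset Pool.Agent.Kv

/-- a linear family with members of size at most `m` covers few triples at each pair. -/
lemma final_deg {n m : ℕ} {F : Finset (Finset ℕ)} (hm : ∀ Y ∈ F, Y.card ≤ m)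
    (hlin : ∀ Y ∈ F, ∀ Y' ∈ F, Y ≠ Y' → (Y ∩ Y').card < 2) (hn : m ^ 4 ≤ n) (hm1 : 1 ≤ m) :
    DegLe (3 - 1) (Ed 3 F) ((n : ℝ) ^ (1 - (1 / 4 : ℝ))) := by
  intro S hS
  have hS2 : S.card = 2 := hS
  -- the number is at most `m`
  have h1 : ((Ed 3 F).filter (fun e => S ⊆ e)).card ≤ m := by
    by_cases hex : ∃ Y ∈ F, S ⊆ Y
    · obtain ⟨Y, hY, hSY⟩ := hex
      have hsub : (Ed 3 F).filter (fun e => S ⊆ e) ⊆ Y.image (fun y => insert y S) := by
        intro e he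
        obtain ⟨he1, he2⟩ := mem_filter.mp he
        obtain ⟨Y', hY', he3⟩ := mem_biUnion.mp he1
        obtain ⟨he4, he5⟩ := mem_powersetCard.mp he3
        have hYY : Y' = Y := by
          by_contra hne
          have := hlin Y' hY' Y hY hne
          have h2 : S ⊆ Y' ∩ Y := subset_inter (he2.trans he4) hSY
          have h3 := card_le_card h2
          omega
        subst hYY
        have h6 : (e \ S).card = 1 := by
          rw [card_sdiff_of_subset he2]; omega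
        obtain ⟨y, hy⟩ := card_eq_one.mp h6
        have hye : y ∈ e := by
          have : y ∈ e \ S := by rw [hy]; exact mem_singleton_self y
          exact (mem_sdiff.mp this).1
        refine mem_image.mpr ⟨y, he4 hye, ?_⟩
        have : e = (e \ S) ∪ S := (sdiff_union_of_subset he2).symm
        rw [this, hy, ← insert_eq]
      exact (card_le_card hsub).trans (card_image_le.trans (hm Y hY))
    · have : (Ed 3 F).filter (fun e => S ⊆ e) = ∅ := by
        rw [filter_eq_empty_iff]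
        intro e he hSe
        obtain ⟨Y', hY', he3⟩ := mem_biUnion.mp he
        exact hex ⟨Y', hY', hSe.trans (mem_powersetCard.mp he3).1⟩
      rw [this]; simp
  have h2 : (m : ℝ) ≤ (n : ℝ) ^ (1 - (1 / 4 : ℝ)) := by
    have h3 : ((m : ℝ) ^ (4 : ℕ)) ≤ n := by exact_mod_cast hn
    have hm0 : (0 : ℝ) ≤ m := Nat.cast_nonneg m
    have h4 : (m : ℝ) ≤ (n : ℝ) ^ (1 / 4 : ℝ) := by
      calc (m : ℝ) = (((m : ℝ) ^ (4 : ℕ))) ^ (1 / 4 : ℝ) := by
            rw [← Real.rpow_natCast, ← Real.rpow_mul hm0]; norm_num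
        _ ≤ (n : ℝ) ^ (1 / 4 : ℝ) := Real.rpow_le_rpow (by positivity) h3 (by norm_num)
    refine h4.trans (Real.rpow_le_rpow_of_exponent_le ?_ (by norm_num))
    have : 1 ≤ m ^ 4 := Nat.one_le_pow _ _ hm1
    exact_mod_cast this.trans hn
  exact le_trans (by exact_mod_cast h1) h2

lemma Ed_sub {r n : ℕ} {F : Finset (Finset ℕ)} (h : ∀ Y ∈ F, Y ⊆ range n) :
    Ed r F ⊆ powersetCard r (range n) := by
  intro e he
  obtain ⟨Q, hQ, heQ⟩ := mem_biUnion.mp he
  have := mem_powersetCard.mp heQ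
  exact mem_powersetCard.mpr ⟨this.1.trans (h Q hQ), this.2⟩

/-- every 3-set is in exactly one member -/
lemma final_cov {n : ℕ} {F D : Finset (Finset ℕ)}
    (hlin : ∀ Y ∈ F, ∀ Y' ∈ F, Y ≠ Y' → (Y ∩ Y').card < 2)
    (hD1 : ∀ e ∈ powersetCard 3 (range n) \ Ed 3 F, ∃! Q, Q ∈ D ∧ e ⊆ Q)
    (hD2 : ∀ Q ∈ D, ∀ e ∈ Ed 3 F, ¬ e ⊆ Q) :
    ∀ T : Finset ℕ, T ⊆ range n → T.card = 3 → ∃! M, M ∈ F ∪ D ∧ T ⊆ M := by
  intro T hT hT3
  have hTp : T ∈ powersetCard 3 (range n) := mem_powersetCard.mpr ⟨hT, hT3⟩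
  by_cases hE : T ∈ Ed 3 F
  · obtain ⟨Y, hY, hTY⟩ := mem_biUnion.mp hE
    have hTY' := (mem_powersetCard.mp hTY).1
    refine ⟨Y, ⟨mem_union_left _ hY, hTY'⟩, ?_⟩
    rintro M ⟨hM, hTM⟩
    rcases mem_union.mp hM with hM | hM
    · by_contra hne
      have := hlin M hM Y hY hne
      have h3 := card_le_card (subset_inter hTM hTY')
      omega
    · exact absurd hTM (hD2 M hM T hE)
  · obtain ⟨Q, ⟨hQ, hTQ⟩, hQu⟩ := hD1 T (mem_sdiff.mpr ⟨hTp, hE⟩)
    refine ⟨Q, ⟨mem_union_right _ hQ, hTQ⟩, ?_⟩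
    rintro M ⟨hM, hTM⟩
    rcases mem_union.mp hM with hM | hM
    · exact absurd (mem_biUnion.mpr ⟨M, hM, mem_powersetCard.mpr ⟨hTM, hT3⟩⟩) hE
    · exact hQu M ⟨hM, hTM⟩

theorem rdn_46 : RDn 46 := tripling (n := 16) (by norm_num) (by norm_num) rdn_sixteen

theorem rdn_136 : RDn 136 := tripling (n := 46) (by norm_num) (by norm_num) rdn_46

theorem large_even : ∃ t0 : ℕ, ∀ t ≥ t0, RDn (2 * (6 * t + 2)) := by
  obtain ⟨n1, h1⟩ := lemmaG 68 14 (by norm_num) (by norm_num)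
  obtain ⟨n2, h2⟩ := decomp_ext (q := 8) (r := 3) (by norm_num) (by norm_num)
    (ε := 1 / 4) (by norm_num)
  refine ⟨n1 + n2 + 68 ^ 4, fun t ht => ?_⟩
  obtain ⟨P, hP, _, hPx, hPc⟩ := h1 (6 * t + 2) (by omega) (fun _ => 4 * t * (6 * t + 1))
    (13 * (6 * t + 1) * (t * (3 * t + 1) / 2)) (compat_even t)
  have hlin := hP.2
  obtain ⟨D, hD, hD1, hD2⟩ := h2 (6 * t + 2) (by omega) (Ed 3 P)
    (Ed_sub (fun Y hY => (hP.1 Y hY).1))
    (final_deg (m := 68) (fun Y hY => (hP.1 Y hY).2.le) hlin (by omega) (by norm_num))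
    (div_even t P hP hPx hPc)
  have := closure (range (6 * t + 2)) P D ?_ ?_ ?_ ?_ (final_cov hlin hD1 hD2)
  · rwa [card_range] at this
  · rw [disjoint_left]
    intro Y hY hYD
    have a := (hP.1 Y hY).2
    have b := (hD Y hYD).2
    omega
  · intro Y hY
    refine ⟨(hP.1 Y hY).1, ?_⟩
    rw [(hP.1 Y hY).2]
    exact rdn_136
  · intro B hB
    refine ⟨(hD B hB).1, ?_⟩
    rw [(hD B hB).2]
    exact prdn_eight
  · intro Y hY Y' hY' hne
    have := hlin Y hY Y' hY' hne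
    omega

theorem large_odd : ∃ t0 : ℕ, ∀ t ≥ t0, RDn (2 * (6 * t + 5)) := by
  obtain ⟨n1, h1⟩ := lemmaG 23 140 (by norm_num) (by norm_num)
  obtain ⟨n2, h2⟩ := decomp_ext (q := 8) (r := 3) (by norm_num) (by norm_num)
    (ε := 1 / 4) (by norm_num)
  obtain ⟨n3, h3⟩ := decomp_ext (q := 5) (r := 2) (by norm_num) (by norm_num)
    (ε := 1 / 4) (by norm_num)
  refine ⟨n1 + n2 + n3 + 68 ^ 4, fun t ht => ?_⟩
  obtain ⟨P, hP, hPd, hPx, hPc⟩ := h1 (6 * t + 5) (by omega)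
    (fun _ => (3 * t + 2) * (45 * t + 56)) (67 * (6 * t + 5) * ((3 * t + 2) * (45 * t + 56)))
    (compat_odd t)
  obtain ⟨D5, hD5, hD51, hD52⟩ := h3 (6 * t + 5) (by omega) (Ed 2 P)
    (Ed_sub (fun Y hY => (hP.1 Y hY).1)) hPd (div_odd2 t P hP hPx hPc)
  -- every pair in exactly one member
  have hpair : ∀ e ∈ powersetCard 2 (range (6 * t + 5)), ∃! Q, Q ∈ P ∪ D5 ∧ e ⊆ Q := by
    intro e he
    have he2 := (mem_powersetCard.mp he).2
    by_cases hE : e ∈ Ed 2 P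
    · obtain ⟨Y, hY, heY⟩ := mem_biUnion.mp hE
      have heY' := (mem_powersetCard.mp heY).1
      refine ⟨Y, ⟨mem_union_left _ hY, heY'⟩, ?_⟩
      rintro M ⟨hM, heM⟩
      rcases mem_union.mp hM with hM | hM
      · by_contra hne
        have := hP.2 M hM Y hY hne
        have h3 := card_le_card (subset_inter heM heY')
        omega
      · exact absurd heM (hD52 M hM e hE)
    · obtain ⟨Q, ⟨hQ, heQ⟩, hQu⟩ := hD51 e (mem_sdiff.mpr ⟨he, hE⟩)
      refine ⟨Q, ⟨mem_union_right _ hQ, heQ⟩, ?_⟩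
      rintro M ⟨hM, heM⟩
      rcases mem_union.mp hM with hM | hM
      · exact absurd (mem_biUnion.mpr ⟨M, hM, mem_powersetCard.mpr ⟨heM, he2⟩⟩) hE
      · exact hQu M ⟨hM, heM⟩
  have hsub : ∀ Y ∈ P ∪ D5, Y ⊆ range (6 * t + 5) := by
    intro Y hY
    rcases mem_union.mp hY with hY | hY
    · exact (hP.1 Y hY).1
    · exact (hD5 Y hY).1
  have hsize : ∀ Y ∈ P ∪ D5, Y.card = 23 ∨ Y.card = 5 := by
    intro Y hY
    rcases mem_union.mp hY with hY | hY
    · exact Or.inl (hP.1 Y hY).2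
    · exact Or.inr (hD5 Y hY).2
  have hlin : ∀ Y ∈ P ∪ D5, ∀ Y' ∈ P ∪ D5, Y ≠ Y' → (Y ∩ Y').card < 2 := by
    intro Y hY Y' hY' hne
    by_contra hcon
    obtain ⟨e, he1, he2⟩ := exists_subset_card_eq (n := 2) (s := Y ∩ Y') (by omega)
    have heY := he1.trans inter_subset_left
    have heY' := he1.trans inter_subset_right
    obtain ⟨Q, _, hQ⟩ := hpair e (mem_powersetCard.mpr ⟨heY.trans (hsub Y hY), he2⟩)
    exact hne ((hQ Y ⟨hY, heY⟩).trans (hQ Y' ⟨hY', heY'⟩).symm)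
  obtain ⟨D, hD, hD1, hD2⟩ := h2 (6 * t + 5) (by omega) (Ed 3 (P ∪ D5)) (Ed_sub hsub)
    (final_deg (m := 68) (fun Y hY => by rcases hsize Y hY with h | h <;> omega) hlin
      (by omega) (by norm_num))
    (div_odd3 t P D5 hP hPx hPc hD5 hpair)
  have := closure (range (6 * t + 5)) (P ∪ D5) D ?_ ?_ ?_ ?_ (final_cov hlin hD1 hD2)
  · rwa [card_range] at this
  · rw [disjoint_left]
    intro Y hY hYD
    have b := (hD Y hYD).2
    rcases hsize Y hY with a | a <;> omega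
  · intro Y hY
    refine ⟨hsub Y hY, ?_⟩
    rcases hsize Y hY with a | a
    · rw [a]; exact rdn_46
    · rw [a]; exact rdn_ten
  · intro B hB
    refine ⟨(hD B hB).1, ?_⟩
    rw [(hD B hB).2]
    exact prdn_eight
  · intro Y hY Y' hY' hne
    have := hlin Y hY Y' hY' hne
    omega

theorem large : ∃ n0 : ℕ, ∀ n ≥ n0, n % 6 = 4 → RDn n := by
  obtain ⟨t0, h0⟩ := large_even
  obtain ⟨t1, h1⟩ := large_odd
  refine ⟨12 * (t0 + t1 + 2), fun n hn hn6 => ?_⟩
  have h12 : n % 12 = 4 ∨ n % 12 = 10 := by omega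
  rcases h12 with h | h
  · have : n = 2 * (6 * (n / 12) + 2) := by omega
    rw [this]
    exact h0 _ (by omega)
  · have : n = 2 * (6 * (n / 12) + 5) := by omega
    rw [this]
    exact h1 _ (by omega)

end Pool.Agent.RDS
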