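import Mathlib

set_option autoImplicit false

/-!
# Local system for the tripling construction

`SQS(10)` on `Option (Fin 3 × ZMod 3)`, together with a colouring of the blocks through each point.
-/

namespace Pool.Agent.RDS

open Finset

/-- local points. -/
abbrev LP : Type := Option (Fin 3 × ZMod 3)

def encR (r : Fin 3) (i : ZMod 3) : ℕ := 1 + 3 * r.val + (i : Fin 3).val

def enc : LP → ℕ
  | none => 0
  | some (r, i) => encR r i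

def locTab : List ℕ := [15, 113, 897, 147, 547, 323, 533, 293, 197, 281, 169, 585, 54, 90, 108, 390,
  650, 780, 432, 720, 864, 156, 298, 582, 226, 340, 568, 786, 676, 456]

def colTab : List (List ℕ) :=
  [[0, 0, 0, 1, 2, 3, 3, 1, 2, 2, 3, 1, 0, 0, 0, 0, 0, 0, 0, 0, 0, 0, 0, 0, 0, 0, 0, 0, 0, 0],
   [0, 0, 0, 1, 2, 3, 0, 0, 0, 0, 0, 0, 3, 2, 0, 2, 3, 0, 0, 0, 0, 0, 1, 1, 0, 0, 0, 0, 0, 0],
   [0, 0, 0, 0, 0, 0, 3, 1, 2, 0, 0, 0, 2, 0, 3, 3, 0, 2, 0, 0, 0, 1, 0, 1, 0, 0, 0, 0, 0, 0],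
   [0, 0, 0, 0, 0, 0, 0, 0, 0, 2, 3, 1, 0, 3, 2, 0, 2, 3, 0, 0, 0, 1, 1, 0, 0, 0, 0, 0, 0, 0],
   [0, 0, 0, 1, 0, 0, 2, 0, 0, 3, 0, 0, 3, 2, 0, 0, 0, 0, 2, 3, 0, 0, 0, 0, 0, 1, 1, 0, 0, 0],
   [0, 0, 0, 0, 3, 0, 0, 1, 0, 0, 2, 0, 2, 0, 3, 0, 0, 0, 3, 0, 2, 0, 0, 0, 1, 0, 1, 0, 0, 0],
   [0, 0, 0, 0, 0, 2, 0, 0, 3, 0, 0, 1, 0, 3, 2, 0, 0, 0, 0, 2, 3, 0, 0, 0, 1, 1, 0, 0, 0, 0],
   [0, 0, 0, 1, 0, 0, 0, 0, 2, 0, 3, 0, 0, 0, 0, 3, 2, 0, 2, 3, 0, 0, 0, 0, 0, 0, 0, 0, 1, 1],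
   [0, 0, 0, 0, 0, 3, 0, 1, 0, 2, 0, 0, 0, 0, 0, 2, 0, 3, 3, 0, 2, 0, 0, 0, 0, 0, 0, 1, 0, 1],
   [0, 0, 0, 0, 2, 0, 3, 0, 0, 0, 0, 1, 0, 0, 0, 0, 3, 2, 0, 2, 3, 0, 0, 0, 0, 0, 0, 1, 1, 0]]

/-- the local incidence. -/
def inc (b : Fin 30) (y : LP) : Bool := (locTab.getD b.val 0).testBit (enc y)

/-- the local block. -/
def loc (b : Fin 30) : Finset LP := univ.filter (fun y => inc b y = true)

/-- the local colour. -/
def kol (y : LP) (b : Fin 30) : ℕ := (colTab.getD (enc y) []).getD b.val 0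

theorem mem_loc (b : Fin 30) (y : LP) : y ∈ loc b ↔ inc b y = true := by
  simp [loc]

theorem loc_card : ∀ b : Fin 30, (loc b).card = 4 := by decide +kernel

theorem loc_cov : ∀ x y z : LP, x ≠ y → x ≠ z → y ≠ z →
    ∃ b : Fin 30, inc b x = true ∧ inc b y = true ∧ inc b z = true := by decide +kernel

theorem loc_uniq : ∀ b b' : Fin 30, b ≠ b' → ((loc b) ∩ (loc b')).card ≤ 2 := by decide +kernel

theorem loc_col : ∀ (r : Fin 3) (y : LP), inc (Fin.castLE (by norm_num) r) y = true ↔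
    y = none ∨ ∃ i, y = some (r, i) := by decide +kernel

theorem kol_lt : ∀ (y : LP) (b : Fin 30), kol y b < 4 := by decide +kernel

theorem kol_proper : ∀ (y : LP) (b b' : Fin 30), b ≠ b' → inc b y = true → inc b' y = true →
    kol y b = kol y b' → ∀ z, z ≠ y → ¬ (inc b z = true ∧ inc b' z = true) := by decide +kernel

theorem kol_none : ∀ b : Fin 30, inc b none = true → kol none b = 0 → b.val < 3 := by
  decide +kernel

theorem kol_some : ∀ (r : Fin 3) (i : ZMod 3) (b : Fin 30), inc b (some (r, i)) = true →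
    kol (some (r, i)) b = 0 → (inc b none = true ∨ ∃ j, j ≠ i ∧ inc b (some (r, j)) = true) →
    b = Fin.castLE (by norm_num) r := by decide +kernel

end Pool.Agent.RDS
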