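import Pool.Agent.Work.MP_5dff62_co.Defs
import Pool.Agent.Work.MP_5dff62_co.TripLoc

set_option autoImplicit false

/-!
# Tripling: blocks of the new system
-/

namespace Pool.Agent.RDS

open Finset

/-- new points -/
abbrev NP (w : ℕ) : Type := Option (Fin w × ZMod 3)

/-- embedding of the local points -/
def Em {w : ℕ} (e : Fin 3 → Fin w) : LP → NP w := Option.map (Prod.map e id)

theorem Em_inj {w : ℕ} {e : Fin 3 → Fin w} (he : Function.Injective e) :
    Function.Injective (Em e) :=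
  Option.map_injective (he.prodMap Function.injective_id)

theorem Em_none {w : ℕ} (e : Fin 3 → Fin w) : Em e none = none := rfl

theorem Em_some {w : ℕ} (e : Fin 3 → Fin w) (r : Fin 3) (i : ZMod 3) :
    Em e (some (r, i)) = some (e r, i) := rfl

/-- new block from a triple -/
def NB {w : ℕ} (e : Fin 3 → Fin w) (b : Fin 30) : Finset (NP w) := (loc b).image (Em e)

/-- column block -/
def colS {w : ℕ} (a : Fin w) : Finset (NP w) :=
  insert none ((univ : Finset (ZMod 3)).image (fun i => some (a, i)))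

/-- new block from an old block avoiding infinity -/
def B5 {w : ℕ} (Q : Finset (Fin w)) (l : Fin w → ZMod 3) : Finset (NP w) :=
  Q.image (fun x => some (x, l x))

/-- the old block through infinity -/
def OT {w : ℕ} (t : Finset (Fin w)) : Finset (Option (Fin w)) := insert none (t.image some)

theorem some_mem_OT {w : ℕ} {t : Finset (Fin w)} {a : Fin w} : some a ∈ OT t ↔ a ∈ t := by
  simp [OT]

theorem none_mem_OT {w : ℕ} {t : Finset (Fin w)} : none ∈ OT t := by simp [OT]

theorem OT_inj {w : ℕ} {t t' : Finset (Fin w)} (h : OT t = OT t') : t = t' := by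
  ext a
  rw [← some_mem_OT, h, some_mem_OT]

theorem OT_card {w : ℕ} (t : Finset (Fin w)) : (OT t).card = t.card + 1 := by
  rw [OT, card_insert_of_notMem (by simp), card_image_of_injective _ (Option.some_injective _)]

theorem some_mem_image {w : ℕ} {Q : Finset (Fin w)} {a : Fin w} :
    (some a : Option (Fin w)) ∈ Q.image some ↔ a ∈ Q := by
  simp

theorem none_notMem_image {w : ℕ} {Q : Finset (Fin w)} :
    (none : Option (Fin w)) ∉ Q.image some := by simp

theorem image_some_inj {w : ℕ} {t t' : Finset (Fin w)}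
    (h : (t.image some : Finset (Option (Fin w))) = t'.image some) : t = t' := by
  ext a
  rw [← some_mem_image, h, some_mem_image]

theorem mem_B5 {w : ℕ} {Q : Finset (Fin w)} {l : Fin w → ZMod 3} {a : Fin w} {i : ZMod 3} :
    (some (a, i) : NP w) ∈ B5 Q l ↔ a ∈ Q ∧ l a = i := by
  simp only [B5, mem_image, Option.some.injEq, Prod.mk.injEq]
  constructor
  · rintro ⟨x, hx, rfl, rfl⟩; exact ⟨hx, rfl⟩
  · rintro ⟨hx, rfl⟩; exact ⟨a, hx, rfl, rfl⟩

theorem none_notMem_B5 {w : ℕ} {Q : Finset (Fin w)} {l : Fin w → ZMod 3} :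
    (none : NP w) ∉ B5 Q l := by simp [B5]

theorem B5_card {w : ℕ} {Q : Finset (Fin w)} {l : Fin w → ZMod 3} : (B5 Q l).card = Q.card := by
  rw [B5, card_image_of_injective]
  intro x y hxy
  simp only [Option.some.injEq, Prod.mk.injEq] at hxy
  exact hxy.1

theorem B5_congr {w : ℕ} {Q : Finset (Fin w)} {l l' : Fin w → ZMod 3}
    (h : ∀ a ∈ Q, l a = l' a) : B5 Q l = B5 Q l' := by
  unfold B5
  refine image_congr ?_
  intro x hx
  have := h x (by exact_mod_cast hx)
  simp [this]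

theorem none_mem_colS {w : ℕ} {a : Fin w} : (none : NP w) ∈ colS a := by simp [colS]

theorem mem_colS {w : ℕ} {a c : Fin w} {k : ZMod 3} : (some (c, k) : NP w) ∈ colS a ↔ c = a := by
  simp only [colS, mem_insert, mem_image, mem_univ, true_and, Option.some.injEq, Prod.mk.injEq,
    reduceCtorEq, false_or]
  constructor
  · rintro ⟨i, rfl, -⟩; rfl
  · rintro rfl; exact ⟨k, rfl, rfl⟩

theorem none_mem_NB {w : ℕ} {e : Fin 3 → Fin w} (he : Function.Injective e) {b : Fin 30} :
    (none : NP w) ∈ NB e b ↔ inc b none = true := by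
  rw [← mem_loc, NB, ← Em_none e]
  exact (Em_inj he).mem_finset_image

theorem mem_NB {w : ℕ} {e : Fin 3 → Fin w} (he : Function.Injective e) {b : Fin 30} {r : Fin 3}
    {i : ZMod 3} : (some (e r, i) : NP w) ∈ NB e b ↔ inc b (some (r, i)) = true := by
  rw [← mem_loc, NB, ← Em_some e]
  exact (Em_inj he).mem_finset_image

theorem Em_mem_NB {w : ℕ} {e : Fin 3 → Fin w} (he : Function.Injective e) {b : Fin 30} {y : LP} :
    Em e y ∈ NB e b ↔ inc b y = true := by
  rw [← mem_loc, NB]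
  exact (Em_inj he).mem_finset_image

theorem NB_sub {w : ℕ} {e : Fin 3 → Fin w} {b : Fin 30} {c : Fin w} {k : ZMod 3}
    (h : (some (c, k) : NP w) ∈ NB e b) : ∃ r, e r = c := by
  obtain ⟨y, -, hy⟩ := mem_image.1 h
  rcases y with _ | ⟨r, i⟩
  · rw [Em_none] at hy; simp at hy
  · rw [Em_some] at hy
    simp only [Option.some.injEq, Prod.mk.injEq] at hy
    exact ⟨r, hy.1⟩

theorem NB_range {w : ℕ} {e : Fin 3 → Fin w} {b : Fin 30} {y : NP w}
    (h : y ∈ NB e b) : ∃ z, Em e z = y := by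
  obtain ⟨z, -, hz⟩ := mem_image.1 h
  exact ⟨z, hz⟩

theorem NB_card {w : ℕ} {e : Fin 3 → Fin w} (he : Function.Injective e) (b : Fin 30) :
    (NB e b).card = 4 := by
  rw [NB, card_image_of_injective _ (Em_inj he), loc_card]

/-- two different blocks from the same triple share at most two points. -/
theorem NB_uniq {w : ℕ} {e : Fin 3 → Fin w} (he : Function.Injective e) {b b' : Fin 30}
    {T : Finset (NP w)} (hT : T.card = 3) (h : T ⊆ NB e b) (h' : T ⊆ NB e b') : b = b' := by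
  by_contra hb
  have h1 := loc_uniq b b' hb
  have h2 : T ⊆ ((loc b) ∩ (loc b')).image (Em e) := by
    rw [image_inter _ _ (Em_inj he)]
    exact subset_inter h h'
  have h3 := (card_le_card h2).trans card_image_le
  omega

theorem NB_col {w : ℕ} {e : Fin 3 → Fin w} (he : Function.Injective e) (r : Fin 3) :
    NB e (Fin.castLE (by norm_num) r) = colS (e r) := by
  ext y
  rcases y with _ | ⟨c, k⟩
  · rw [none_mem_NB he, loc_col]
    simp [none_mem_colS]
  · rw [mem_colS]
    constructor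
    · intro h
      obtain ⟨s, rfl⟩ := NB_sub h
      rw [mem_NB he, loc_col] at h
      rcases h with h | ⟨i, hi⟩
      · simp at h
      · simp only [Option.some.injEq, Prod.mk.injEq] at hi
        rw [hi.1]
    · rintro rfl
      rw [mem_NB he, loc_col]
      exact Or.inr ⟨k, rfl⟩

theorem NB_eq_col {w : ℕ} {e : Fin 3 → Fin w} (he : Function.Injective e) {b : Fin 30} {a : Fin w}
    (ha : ∃ r, e r = a) {T : Finset (NP w)} (hT : T.card = 3) (h : T ⊆ NB e b) (h' : T ⊆ colS a) :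
    NB e b = colS a := by
  obtain ⟨r, rfl⟩ := ha
  rw [← NB_col he] at h' ⊢
  rw [NB_uniq he hT h h']

theorem NB_cov {w : ℕ} {e : Fin 3 → Fin w} (he : Function.Injective e) {T : Finset (NP w)}
    (hT : T.card = 3) (h : ∀ y ∈ T, ∃ z, Em e z = y) : ∃ b, T ⊆ NB e b := by
  obtain ⟨x, y, z, hxy, hxz, hyz, rfl⟩ := card_eq_three.1 hT
  obtain ⟨x', rfl⟩ := h x (by simp)
  obtain ⟨y', rfl⟩ := h y (by simp)
  obtain ⟨z', rfl⟩ := h z (by simp)
  obtain ⟨b, h1, h2, h3⟩ := loc_cov x' y' z' (fun h => hxy (by rw [h])) (fun h => hxz (by rw [h]))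
    (fun h => hyz (by rw [h]))
  refine ⟨b, ?_⟩
  intro u hu
  simp only [mem_insert, mem_singleton] at hu
  rcases hu with rfl | rfl | rfl
  · exact (Em_mem_NB he).2 h1
  · exact (Em_mem_NB he).2 h2
  · exact (Em_mem_NB he).2 h3

/-- properness of the local colouring, at any point of the block. -/
theorem NB_proper {w : ℕ} {e : Fin 3 → Fin w} (he : Function.Injective e) {b b' : Fin 30}
    {y : LP} {z : NP w} (hz : z ≠ Em e y) (h1 : Em e y ∈ NB e b) (h2 : Em e y ∈ NB e b')
    (h3 : z ∈ NB e b) (h4 : z ∈ NB e b') (hk : kol y b = kol y b') : b = b' := by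
  by_contra hb
  obtain ⟨z', rfl⟩ := NB_range h3
  exact kol_proper y b b' hb ((Em_mem_NB he).1 h1) ((Em_mem_NB he).1 h2) hk z'
    (fun h => hz (by rw [h])) ⟨(Em_mem_NB he).1 h3, (Em_mem_NB he).1 h4⟩

theorem exists_enum {w : ℕ} (hw : 3 ≤ w) : ∃ e : Finset (Fin w) → Fin 3 → Fin w,
    ∀ t, t.card = 3 → Function.Injective (e t) ∧ ∀ a, a ∈ t ↔ ∃ r, e t r = a := by
  have h : ∀ t : Finset (Fin w), ∃ e : Fin 3 → Fin w, t.card = 3 →
      Function.Injective e ∧ ∀ a, a ∈ t ↔ ∃ r, e r = a := by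
    intro t
    by_cases ht : t.card = 3
    · refine ⟨t.orderEmbOfFin ht, fun _ => ⟨(t.orderEmbOfFin ht).injective, ?_⟩⟩
      intro a
      have := Finset.range_orderEmbOfFin t ht
      rw [← Finset.mem_coe, ← this]
      rfl
    · exact ⟨fun _ => ⟨0, by omega⟩, fun h => absurd h ht⟩
  choose e he using h
  exact ⟨e, he⟩

theorem exists_two {w : ℕ} : ∃ g : Finset (Fin w) → Fin w → Fin w × Fin w,
    ∀ Q a, Q.card = 4 → a ∈ Q → (g Q a).1 ∈ Q ∧ (g Q a).2 ∈ Q ∧ (g Q a).1 ≠ a ∧ (g Q a).2 ≠ a ∧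
      (g Q a).1 ≠ (g Q a).2 := by
  have h : ∀ (Q : Finset (Fin w)) (a : Fin w), ∃ g : Fin w × Fin w, Q.card = 4 → a ∈ Q →
      g.1 ∈ Q ∧ g.2 ∈ Q ∧ g.1 ≠ a ∧ g.2 ≠ a ∧ g.1 ≠ g.2 := by
    intro Q a
    by_cases hQ : Q.card = 4 ∧ a ∈ Q
    · have h1 : (Q.erase a).card = 3 := by rw [card_erase_of_mem hQ.2, hQ.1]
      obtain ⟨x, y, z, hxy, -, -, hxyz⟩ := card_eq_three.1 h1
      have hx : x ∈ Q.erase a := by rw [hxyz]; simp
      have hy : y ∈ Q.erase a := by rw [hxyz]; simp
      rw [mem_erase] at hx hy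
      exact ⟨(x, y), fun _ _ => ⟨hx.2, hy.2, hx.1, hy.1, hxy⟩⟩
    · exact ⟨(a, a), fun h1 h2 => absurd ⟨h1, h2⟩ hQ⟩
  choose g hg using h
  exact ⟨g, hg⟩

end Pool.Agent.RDS
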