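import Pool.Agent.Work.MP_5dff62_co.TripInf

set_option autoImplicit false

/-!
# Module D, part 4: colours of the tripled system at a finite point
-/

namespace Pool.Agent.RDS

open Finset

/-- local colours at `(a,i)` seen from `(b,j)`; `0,1,2` stand for `a, b, c`, `none` for infinity -/
def K0 (e i j : ZMod 3) : Option (Fin 3 × ZMod 3) → Option (ZMod 3)
  | none => some (e * (j - i))
  | some (0, k) => some (if j = i ∨ j = k then e * (i - k) else 0)
  | some (1, k) => if i = j then some (e * (i - k)) else if i = k then some (e * (i - j)) else none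
  | some (2, k) => if i + j + k = 0 then some (e * (j - i)) else if j = k then some 0 else none

/-- local operation -/
def Q0 (i j : ZMod 3) : Option (Fin 3 × ZMod 3) → Option (Fin 3 × ZMod 3)
  | none => some (2, -i - j)
  | some (0, k) => if i = k then some (1, j) else if j = i then some (1, k)
      else if j = k then some (1, i) else some (2, j)
  | some (1, k) => if j = k then some (0, i) else if i = j then some (0, k)
      else if i = k then some (0, j) else some (2, i)
  | some (2, k) => if i + j + k = 0 then none else if i = j then some (2, -i - k)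
      else if i = k then some (1, -i - j) else some (0, -i - j)

theorem K0_Q0 : ∀ e i j : ZMod 3, ∀ t, t ≠ some (0, i) → t ≠ some (1, j) →
    K0 e i j (Q0 i j t) = K0 e i j t := by
  decide +kernel

set_option synthInstance.maxHeartbeats 400000 in
set_option synthInstance.maxSize 1000 in
theorem K0_inj_aux : ∀ e i j : ZMod 3, ∀ t t' : Option (Fin 3 × ZMod 3),
    (e ≠ 0 ∧ t ≠ some (0, i) ∧ t ≠ some (1, j) ∧
    t' ≠ some (0, i) ∧ t' ≠ some (1, j) ∧ K0 e i j t = K0 e i j t') →
    t' = t ∨ t' = Q0 i j t := by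
  decide +kernel

theorem K0_s1 : ∀ e i j k : ZMod 3, K0 e i j (some (1, k)) = K0 e i k (some (1, j)) := by
  decide +kernel

theorem K0_s2 : ∀ e i j k : ZMod 3, K0 e i j (some (2, k)) = K0 (-e) i k (some (2, j)) := by
  decide +kernel

theorem K0_i1 : ∀ e i j j' : ZMod 3, e ≠ 0 → K0 e i j none = K0 e i j' none → j = j' := by
  decide +kernel

theorem K0_i2 : ∀ e i j : ZMod 3, K0 e i j none = K0 (-e) i (-i - j) none := by
  decide +kernel

theorem K0_i3 : ∀ e i j k k' : ZMod 3, e ≠ 0 → i ≠ j →
    K0 e i k (some (0, j)) = K0 e i k' (some (0, j)) →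
    k' = k ∨ (k = i ∧ k' = j) ∨ (k = j ∧ k' = i) := by
  decide +kernel

theorem K0_i4 : ∀ e i j k k' : ZMod 3, e ≠ 0 → i ≠ j →
    K0 e i k (some (0, j)) = K0 (-e) i k' (some (0, j)) → k ≠ i ∧ k ≠ j ∧ k' = k := by
  decide +kernel

theorem K0_i5 : ∀ e i j k : ZMod 3, i ≠ j →
    (k = i → K0 e i k (some (0, j)) = K0 e i j (some (0, j))) ∧
    (k = j → K0 e i k (some (0, j)) = K0 e i i (some (0, j))) ∧
    (k ≠ i → k ≠ j → K0 e i k (some (0, j)) = K0 (-e) i k (some (0, j))) := by
  decide +kernel

section dl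

variable {W : Type} [LinearOrder W]

/-- sign -/
def dl (b c : W) : ZMod 3 := if b < c then 1 else 2

theorem dl_ne (b c : W) : dl b c ≠ 0 := by
  unfold dl
  split_ifs <;> decide

theorem dl_swap {b c : W} (h : b ≠ c) : dl c b = - dl b c := by
  unfold dl
  rcases lt_or_gt_of_ne h with g | g
  · rw [if_pos g, if_neg g.not_gt]; decide
  · rw [if_pos g, if_neg g.not_gt]; decide

end dl

/-- pairing with a fixed old colour -/
def cb {β : Type} (f : β) (o : Option (ZMod 3)) : Option (β × ZMod 3) := o.map (fun t => (f, t))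

theorem cb_mem {β : Type} {f : β} {C : Finset β} (h : f ∈ C) (o : Option (ZMod 3)) :
    cb f o ∈ insertNone (C ×ˢ (univ : Finset (ZMod 3))) := by
  cases o with
  | none => simp [cb]
  | some t => simp [cb, h]

theorem cb_inj {β : Type} {f : β} {o o' : Option (ZMod 3)} (h : cb f o = cb f o') : o = o' := by
  cases o <;> cases o' <;> simp_all [cb]

theorem cb_inj2 {β : Type} {f f' : β} {t : ZMod 3} {o' : Option (ZMod 3)}
    (h : cb f (some t) = cb f' o') : f = f' ∧ o' = some t := by
  cases o' with
  | none => simp [cb] at h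
  | some t' =>
    simp only [cb, Option.map_some, Option.some.injEq, Prod.mk.injEq] at h
    exact ⟨h.1, by rw [h.2]⟩

namespace TSkein

section fo

variable {W : Type} (S : TSkein (Option W))

/-- fourth point of a block missing infinity -/
def fo (a b c : W) : W := (S.q (some a) (some b) (some c)).getD a

theorem q_fo {a b c : W} (hab : a ≠ b) (h : c ≠ S.th a b) :
    S.q (some a) (some b) (some c) = some (S.fo a b c) := by
  have h1 : S.q (some a) (some b) (some c) ≠ none := fun e => h ((S.q_eq_none hab).1 e)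
  unfold fo
  obtain ⟨d, hd⟩ := Option.ne_none_iff_exists'.1 h1
  rw [hd]
  rfl

theorem fo_s1 {a b c : W} (hab : a ≠ b) (hac : a ≠ c) (h : c ≠ S.th a b) :
    S.fo a b c = S.fo a c b := by
  have h1 : b ≠ S.th a c := by
    rintro e
    apply h
    rw [e, S.th_th hac]
  have h2 := S.q_fo hab h
  have h3 := S.q_fo hac h1
  rw [S.s2, h3] at h2
  exact (Option.some.inj h2).symm

theorem fo_ne1 {a b c : W} (hab : a ≠ b) (hbc : b ≠ c) (h : c ≠ S.th a b) : S.fo a b c ≠ a := by
  intro e
  have h2 := S.q_fo hab h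
  rw [e] at h2
  exact S.ne1 (fun e => hbc (Option.some.inj e)) h2

theorem fo_ne2 {a b c : W} (hab : a ≠ b) (hac : a ≠ c) (h : c ≠ S.th a b) : S.fo a b c ≠ b := by
  intro e
  have h2 := S.q_fo hab h
  rw [e] at h2
  exact S.ne2 (fun e => hac (Option.some.inj e)) h2

theorem fo_ne3 {a b c : W} (hab : a ≠ b) (h : c ≠ S.th a b) : S.fo a b c ≠ c := by
  intro e
  have h2 := S.q_fo hab h
  rw [e] at h2
  exact S.ne3 (fun e => hab (Option.some.inj e)) h2

theorem fo_ne4 {a b c : W} (hab : a ≠ b) (h : c ≠ S.th a b) : S.fo a b c ≠ S.th a b := by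
  intro e
  have h2 := S.rot (S.q_fo hab h)
  rw [e, S.q_th hab] at h2
  exact absurd h2 (by simp)

theorem fo_fo {a b c : W} (hab : a ≠ b) (h : c ≠ S.th a b) :
    S.fo a b (S.fo a b c) = c := by
  have h2 := S.rot (S.q_fo hab h)
  rw [S.q_fo hab (S.fo_ne4 hab h)] at h2
  exact Option.some.inj h2

end fo

variable {W : Type} [LinearOrder W] (S : TSkein (Option W)) {β : Type}

/-- the colours at `(a,i)` -/
def GFin (F : Option W → Option W → β) (a : W) (i : ZMod 3) :
    Option (W × ZMod 3) → Option (W × ZMod 3) → Option (β × ZMod 3)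
  | none, none => none
  | none, some (b, j) =>
    if b = a then none else cb (F none (some b)) (K0 (dl b (S.th a b)) i j none)
  | some (b, j), none =>
    if b = a then none else cb (F none (some b)) (K0 (dl b (S.th a b)) i j none)
  | some (b, j), some (c, k) =>
    if b = a then
      (if c = a then none else cb (F none (some c)) (K0 (dl c (S.th a c)) i k (some (0, j))))
    else if c = a then cb (F none (some b)) (K0 (dl b (S.th a b)) i j (some (0, k)))
    else if c = b then cb (F none (some b)) (K0 (dl b (S.th a b)) i j (some (1, k)))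
    else if c = S.th a b then cb (F none (some b)) (K0 (dl b (S.th a b)) i j (some (2, k)))
    else some (F (some b) (some c), lin b c (S.fo a b c) j k (0 - i - j - k))

/-- embedding of the local model -/
def em (a b : W) : Option (Fin 3 × ZMod 3) → Option (W × ZMod 3)
  | none => none
  | some (0, k) => some (a, k)
  | some (1, k) => some (b, k)
  | some (2, k) => some (S.th a b, k)

theorem loc_q {a b : W} (hab : a ≠ b) (i j : ZMod 3) (t : Option (Fin 3 × ZMod 3)) :
    S.Q3 (some (a, i)) (some (b, j)) (S.em a b t) = S.em a b (Q0 i j t) := by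
  have h1 := S.th_ne1 hab
  have h2 := S.th_ne2 hab
  have h3 := S.q_th hab
  rcases t with _ | ⟨m, k⟩
  · simp [em, Q0, Q3, T3, hab]
  · fin_cases m
    · simp only [em, Q0, Q3, U3, if_neg hab, if_true]
      split_ifs <;> simp [em]
    · simp only [em, Q0, Q3, U3, if_neg hab, if_true]
      split_ifs <;> simp [em]
    · simp only [em, Q0, Q3, U3, if_neg hab, if_neg h1.symm, if_neg h2.symm, h3]
      split_ifs <;> simp [em]

theorem loc_G (F : Option W → Option W → β) {a b : W} (hba : b ≠ a) (i j : ZMod 3)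
    (t : Option (Fin 3 × ZMod 3)) :
    S.GFin F a i (some (b, j)) (S.em a b t) =
      cb (F none (some b)) (K0 (dl b (S.th a b)) i j t) := by
  have h1 := S.th_ne1 hba.symm
  have h2 := S.th_ne2 hba.symm
  rcases t with _ | ⟨m, k⟩
  · simp only [em, GFin, if_neg hba]
  · fin_cases m
    · simp [em, GFin, if_neg hba]
    · simp [em, GFin, if_neg hba]
    · simp [em, GFin, if_neg hba, h1, h2]

theorem loc_cases (a b : W) (z : Option (W × ZMod 3)) :
    (∃ t, z = S.em a b t) ∨ ∃ d k, d ≠ a ∧ d ≠ b ∧ d ≠ S.th a b ∧ z = some (d, k) := by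
  rcases z with _ | ⟨d, k⟩
  · exact Or.inl ⟨none, rfl⟩
  · by_cases h1 : d = a
    · exact Or.inl ⟨some (0, k), by rw [h1]; rfl⟩
    by_cases h2 : d = b
    · exact Or.inl ⟨some (1, k), by rw [h2]; rfl⟩
    by_cases h3 : d = S.th a b
    · exact Or.inl ⟨some (2, k), by rw [h3]; rfl⟩
    exact Or.inr ⟨d, k, h1, h2, h3, rfl⟩

theorem q_other {a b d : W} (hab : a ≠ b) (h1 : d ≠ a) (h2 : d ≠ b) (h3 : d ≠ S.th a b)
    (i j k : ZMod 3) : S.Q3 (some (a, i)) (some (b, j)) (some (d, k)) =
      some (S.fo a b d, -i - j - k) := by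
  simp only [Q3, U3, if_neg hab, if_neg h1.symm, if_neg h2.symm, S.q_fo hab h3]

theorem G_other (F : Option W → Option W → β) {a b d : W} (hba : b ≠ a) (h1 : d ≠ a) (h2 : d ≠ b)
    (h3 : d ≠ S.th a b) (i j k : ZMod 3) : S.GFin F a i (some (b, j)) (some (d, k)) =
      some (F (some b) (some d), lin b d (S.fo a b d) j k (0 - i - j - k)) := by
  simp only [GFin, if_neg hba, if_neg h1, if_neg h2, if_neg h3]

end TSkein

end Pool.Agent.RDS
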