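import Pool.Agent.Work.MP_5dff62_co.TripQ

set_option autoImplicit false

/-!
# Module D, part 3: colours of the tripled system at infinity
-/

namespace Pool.Agent.RDS

open Finset

section lin

variable {W : Type} [LinearOrder W]

/-- position coefficient -/
def coef (b c d : W) : ZMod 3 := if b < c ∧ b < d then 1 else if c < b ∧ d < b then 0 else 2

theorem coef_comm (b c d : W) : coef b c d = coef b d c := by
  unfold coef
  exact if_congr and_comm rfl (if_congr and_comm rfl rfl)

theorem coef_ne {b c d : W} (h1 : b ≠ c) (h2 : b ≠ d) (h3 : c ≠ d) : coef c b d ≠ coef d b c := by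
  unfold coef
  rcases lt_or_gt_of_ne h1 with g1 | g1 <;> rcases lt_or_gt_of_ne h2 with g2 | g2 <;>
    rcases lt_or_gt_of_ne h3 with g3 | g3 <;>
    simp (decide := true) [g1, g2, g3, g1.not_gt, g2.not_gt, g3.not_gt] <;>
    first
      | exact absurd (g1.trans g3) g2.not_gt
      | exact absurd (g3.trans g1) g2.not_gt

/-- the linear form of a triple of indexed points -/
def lin (b c d : W) (j k l : ZMod 3) : ZMod 3 := coef b c d * j + coef c b d * k + coef d b c * l

theorem lin_s1 (b c d : W) (j k l : ZMod 3) : lin b c d j k l = lin c b d k j l := by
  unfold lin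
  rw [coef_comm d b c]
  ring

theorem lin_s2 (b c d : W) (j k l : ZMod 3) : lin b c d j k l = lin b d c j l k := by
  unfold lin
  rw [coef_comm b c d]
  ring

theorem lin_inj {b c d : W} (h1 : b ≠ c) (h2 : b ≠ d) (h3 : c ≠ d) {j k k' m : ZMod 3}
    (h : lin b c d j k (m - j - k) = lin b c d j k' (m - j - k')) : k = k' := by
  have h4 := coef_ne h1 h2 h3
  unfold lin at h
  generalize coef c b d = y at h h4
  generalize coef d b c = z at h h4
  generalize coef b c d = x at h
  have h5 : (y - z) * k = (y - z) * k' := by linear_combination h
  clear h
  revert h4 h5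
  revert y z k k'
  decide

end lin

namespace TSkein

variable {W : Type} [LinearOrder W] (S : TSkein (Option W)) {β : Type}

/-- the colours at infinity -/
def GInf (F : Option W → Option W → β) :
    Option (W × ZMod 3) → Option (W × ZMod 3) → Option (β × ZMod 3)
  | some (a, i), some (b, j) =>
    if a = b then none
    else some (F (some a) (some b), lin a b (S.th a b) i j (0 - i - j))
  | _, _ => none

theorem funCol_inf {C : Finset β} {F : Option W → Option W → β} (h : S.FunCol none C F) :
    S.trip.FunCol none (insertNone (C ×ˢ (univ : Finset (ZMod 3)))) (S.GInf F) := by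
  obtain ⟨h1, h2, h3, h4⟩ := h
  have g3 : ∀ a b i j, a ≠ b → S.GInf F (some (a, i)) (some (b, j)) =
      S.GInf F (some (a, i)) (some (S.th a b, - i - j)) := by
    intro a b i j hab
    simp only [GInf, if_neg hab, if_neg (S.th_ne1 hab).symm]
    rw [h3 (some a) (some b) (by simp) (by simp) (fun e => hab (Option.some.inj e)), S.q_none hab,
      S.th_th hab, lin_s2, show 0 - i - (-i - j) = j by ring, show 0 - i - j = - i - j by ring]
  refine ⟨?_, ?_, ?_, ?_⟩
  · rintro (_ | ⟨a, i⟩) (_ | ⟨b, j⟩) hy hz hyz
    · exact absurd rfl hy
    · exact absurd rfl hy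
    · exact absurd rfl hz
    · by_cases hab : a = b
      · simp [GInf, hab]
      · simp only [GInf, if_neg hab, some_mem_insertNone, mem_product, mem_univ, and_true]
        exact h1 _ _ (by simp) (by simp) (fun e => hab (Option.some.inj e))
  · rintro (_ | ⟨a, i⟩) (_ | ⟨b, j⟩) hy hz hyz
    · exact absurd rfl hy
    · exact absurd rfl hy
    · exact absurd rfl hz
    · by_cases hab : a = b
      · simp [GInf, hab]
      · simp only [GInf, if_neg hab, if_neg (Ne.symm hab)]
        rw [h2 (some a) (some b) (by simp) (by simp) (fun e => hab (Option.some.inj e)),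
          lin_s1, S.th_comm a b hab, show 0 - i - j = 0 - j - i by ring]
  · rintro (_ | ⟨a, i⟩) (_ | ⟨b, j⟩) hy hz hyz
    · exact absurd rfl hy
    · exact absurd rfl hy
    · exact absurd rfl hz
    · by_cases hab : a = b
      · subst hab
        have hij : i ≠ j := fun e => hyz (by rw [e])
        simp only [trip, Q3, T3, if_true, if_neg hij, GInf]
      · rw [g3 a b i j hab]
        simp only [trip, Q3, T3, if_neg hab]
  · rintro (_ | ⟨a, i⟩) (_ | ⟨b, j⟩) (_ | ⟨b', j'⟩) hy hz hyz hz' hyz' he
    · exact absurd rfl hy
    · exact absurd rfl hy
    · exact absurd rfl hy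
    · exact absurd rfl hy
    · exact absurd rfl hz
    · exact absurd rfl hz
    · exact absurd rfl hz'
    · by_cases hab : a = b
      · subst hab
        have hij : i ≠ j := fun e => hyz (by rw [e])
        by_cases hab' : a = b'
        · subst hab'
          have hij' : i ≠ j' := fun e => hyz' (by rw [e])
          simp only [trip, Q3, T3, if_true, if_neg hij, Option.some.injEq, Prod.mk.injEq, true_and]
          revert hij hij'
          clear he hyz hyz' hz' hz hy
          revert i j j'
          decide
        · simp [GInf, hab'] at he
      · by_cases hab' : a = b'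
        · subst hab'
          simp [GInf, hab] at he
        · have he2 := he
          simp only [GInf, if_neg hab, if_neg hab', Option.some.injEq, Prod.mk.injEq] at he2
          have h5 := h4 (some a) (some b) (some b') (by simp) (by simp)
            (fun e => hab (Option.some.inj e)) (by simp) (fun e => hab' (Option.some.inj e)) he2.1
          rw [S.q_none hab] at h5
          rcases h5 with h5 | h5
          · left
            have h6 := Option.some.inj h5
            subst h6
            rw [lin_inj hab (S.th_ne1 hab).symm (S.th_ne2 hab).symm he2.2]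
          · right
            have h6 := Option.some.inj h5
            subst h6
            simp only [trip, Q3, T3, if_neg hab]
            rw [g3 a b i j hab] at he
            simp only [GInf, if_neg hab', Option.some.injEq, Prod.mk.injEq] at he
            rw [lin_inj hab' (S.th_ne1 hab').symm (S.th_ne2 hab').symm he.2]

end TSkein

end Pool.Agent.RDS
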