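import Pool.Agent.Work.MP_5dff62_co.TripSkein

set_option autoImplicit false

/-!
# Module D, part 2: the tripled quadruple system
-/

namespace Pool.Agent.RDS

open Finset

namespace TSkein

variable {W : Type} (S : TSkein (Option W))

/-- the third point of the triple through `a` and `b` of the derived system at infinity -/
def th (a b : W) : W := (S.q none (some a) (some b)).getD a

theorem q_none {a b : W} (h : a ≠ b) : S.q none (some a) (some b) = some (S.th a b) := by
  have h1 : S.q none (some a) (some b) ≠ none := S.ne1 (fun e => h (Option.some.inj e))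
  unfold th
  obtain ⟨c, hc⟩ := Option.ne_none_iff_exists'.1 h1
  rw [hc]
  rfl

theorem th_comm (a b : W) (h : a ≠ b) : S.th a b = S.th b a := by
  have h1 := S.q_none h
  have h2 := S.q_none h.symm
  rw [S.s2] at h1
  rw [h1] at h2
  exact Option.some.inj h2

theorem th_ne1 {a b : W} (h : a ≠ b) : S.th a b ≠ a := by
  intro e
  have h1 := S.q_none h
  rw [e] at h1
  exact S.ne2 (by simp) h1

theorem th_ne2 {a b : W} (h : a ≠ b) : S.th a b ≠ b := by
  rw [S.th_comm a b h]
  exact S.th_ne1 h.symm

theorem th_th {a b : W} (h : a ≠ b) : S.th a (S.th a b) = b := by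
  have h1 := S.rot (S.q_none h)
  have h2 := S.q_none (S.th_ne1 h).symm
  rw [h1] at h2
  exact (Option.some.inj h2).symm

theorem th_th2 {a b : W} (h : a ≠ b) : S.th (S.th a b) b = a := by
  rw [S.th_comm _ _ (S.th_ne2 h), S.th_comm a b h, S.th_th h.symm]

theorem th_th3 {a b : W} (h : a ≠ b) : S.th b (S.th a b) = a := by
  rw [S.th_comm a b h, S.th_th h.symm]

theorem th_th4 {a b : W} (h : a ≠ b) : S.th (S.th a b) a = b := by
  rw [S.th_comm _ _ (S.th_ne1 h), S.th_th h]

theorem q_th {a b : W} (h : a ≠ b) : S.q (some a) (some b) (some (S.th a b)) = none := by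
  have h1 := S.q_none h
  exact S.rot (S.sw2 (S.sw1 h1))

theorem q_eq_none {a b c : W} (h : a ≠ b) : S.q (some a) (some b) (some c) = none ↔
    c = S.th a b := by
  constructor
  · intro e
    have h1 := S.sw1 (S.sw2 (S.rot e))
    rw [S.q_none h] at h1
    exact (Option.some.inj h1).symm
  · rintro rfl
    exact S.q_th h

variable [DecidableEq W]

/-- fourth point of the block through infinity, `(a,i)`, `(b,j)` -/
def T3 (a : W) (i : ZMod 3) (b : W) (j : ZMod 3) : Option (W × ZMod 3) :=
  if a = b then (if i = j then none else some (a, -i - j)) else some (S.th a b, -i - j)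

/-- fourth point of the block through three finite points -/
def U3 (a : W) (i : ZMod 3) (b : W) (j : ZMod 3) (c : W) (k : ZMod 3) : Option (W × ZMod 3) :=
  if a = b then
    (if i = j then some (c, k)
    else if a = c then (if k = i then some (a, j) else if k = j then some (a, i) else none)
    else (if k = i then some (c, j) else if k = j then some (c, i) else some (S.th a c, k)))
  else if a = c then
    (if i = k then some (b, j) else if j = i then some (b, k) else if j = k then some (b, i)
    else some (S.th a b, j))
  else if b = c then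
    (if j = k then some (a, i) else if i = j then some (a, k) else if i = k then some (a, j)
    else some (S.th a b, i))
  else match S.q (some a) (some b) (some c) with
    | none => if i + j + k = 0 then none else if i = j then some (c, -i - k)
        else if i = k then some (b, -i - j) else some (a, -i - j)
    | some d => some (d, -i - j - k)

/-- the operation of the tripled system -/
def Q3 : Option (W × ZMod 3) → Option (W × ZMod 3) → Option (W × ZMod 3) → Option (W × ZMod 3)
  | none, none, z => z
  | none, some y, none => some y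
  | some x, none, none => some x
  | none, some (a, i), some (b, j) => S.T3 a i b j
  | some (a, i), none, some (b, j) => S.T3 a i b j
  | some (a, i), some (b, j), none => S.T3 a i b j
  | some (a, i), some (b, j), some (c, k) => S.U3 a i b j c k

theorem z3 (i : ZMod 3) : i = 0 ∨ i = 1 ∨ i = 2 := by
  revert i; decide

theorem T3_comm (a : W) (i : ZMod 3) (b : W) (j : ZMod 3) : S.T3 a i b j = S.T3 b j a i := by
  unfold T3
  by_cases h : a = b
  · subst h
    simp only [if_true, eq_comm (a := i) (b := j)]
    rw [show -i - j = -j - i by ring]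
  · rw [if_neg h, if_neg (Ne.symm h), S.th_comm a b h, show -i - j = -j - i by ring]

theorem Q3_idem (x z : Option (W × ZMod 3)) : S.Q3 x x z = z := by
  rcases x with _ | ⟨a, i⟩ <;> rcases z with _ | ⟨b, j⟩ <;> simp [Q3, T3, U3]

theorem U3_s1 (a : W) (i : ZMod 3) (b : W) (j : ZMod 3) (c : W) (k : ZMod 3) :
    S.U3 a i b j c k = S.U3 b j a i c k := by
  unfold U3
  by_cases hab : a = b
  · subst hab
    rcases z3 i with rfl | rfl | rfl <;> rcases z3 j with rfl | rfl | rfl <;>
      rcases z3 k with rfl | rfl | rfl <;> simp (decide := true)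
  · by_cases hac : a = c
    · subst hac
      rw [S.th_comm a b hab]
      rcases z3 i with rfl | rfl | rfl <;> rcases z3 j with rfl | rfl | rfl <;>
        rcases z3 k with rfl | rfl | rfl <;> simp (decide := true) [hab, Ne.symm hab]
    · by_cases hbc : b = c
      · subst hbc
        rw [S.th_comm a b hab]
        rcases z3 i with rfl | rfl | rfl <;> rcases z3 j with rfl | rfl | rfl <;>
          rcases z3 k with rfl | rfl | rfl <;> simp (decide := true) [hab, Ne.symm hab]
      · rw [S.s1 (some b) (some a) (some c)]
        simp only [if_neg hab, if_neg (Ne.symm hab), if_neg hac, if_neg hbc]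
        rcases S.q (some a) (some b) (some c) with _ | d
        · rcases z3 i with rfl | rfl | rfl <;> rcases z3 j with rfl | rfl | rfl <;>
            rcases z3 k with rfl | rfl | rfl <;> simp (decide := true)
        · simp only [show -i - j - k = -j - i - k by ring]

theorem U3_s2 (a : W) (i : ZMod 3) (b : W) (j : ZMod 3) (c : W) (k : ZMod 3) :
    S.U3 a i b j c k = S.U3 a i c k b j := by
  unfold U3
  by_cases hab : a = b
  · subst hab
    by_cases hac : a = c
    · subst hac
      rcases z3 i with rfl | rfl | rfl <;> rcases z3 j with rfl | rfl | rfl <;>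
        rcases z3 k with rfl | rfl | rfl <;> simp (decide := true)
    · rcases z3 i with rfl | rfl | rfl <;> rcases z3 j with rfl | rfl | rfl <;>
        rcases z3 k with rfl | rfl | rfl <;> simp (decide := true) [hac, Ne.symm hac]
  · by_cases hac : a = c
    · subst hac
      rcases z3 i with rfl | rfl | rfl <;> rcases z3 j with rfl | rfl | rfl <;>
        rcases z3 k with rfl | rfl | rfl <;> simp (decide := true) [hab, Ne.symm hab]
    · by_cases hbc : b = c
      · subst hbc
        rcases z3 i with rfl | rfl | rfl <;> rcases z3 j with rfl | rfl | rfl <;>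
          rcases z3 k with rfl | rfl | rfl <;> simp (decide := true) [hab, Ne.symm hab]
      · rw [S.s2 (some a) (some c) (some b)]
        simp only [if_neg hab, if_neg (Ne.symm hbc), if_neg hac, if_neg hbc]
        rcases S.q (some a) (some b) (some c) with _ | d
        · rcases z3 i with rfl | rfl | rfl <;> rcases z3 j with rfl | rfl | rfl <;>
            rcases z3 k with rfl | rfl | rfl <;> simp (decide := true)
        · simp only [show -i - j - k = -i - k - j by ring]

theorem Q3_s1 (x y z : Option (W × ZMod 3)) : S.Q3 x y z = S.Q3 y x z := by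
  rcases x with _ | ⟨a, i⟩ <;> rcases y with _ | ⟨b, j⟩ <;> rcases z with _ | ⟨c, k⟩ <;>
    simp only [Q3]
  · exact S.T3_comm _ _ _ _
  · exact S.U3_s1 _ _ _ _ _ _

theorem Q3_s2 (x y z : Option (W × ZMod 3)) : S.Q3 x y z = S.Q3 x z y := by
  rcases x with _ | ⟨a, i⟩ <;> rcases y with _ | ⟨b, j⟩ <;> rcases z with _ | ⟨c, k⟩ <;>
    simp only [Q3]
  · exact S.T3_comm _ _ _ _
  · exact S.U3_s2 _ _ _ _ _ _

theorem inv_aux1 (b : W) (j : ZMod 3) (z : Option (W × ZMod 3)) :
    S.Q3 none (some (b, j)) (S.Q3 none (some (b, j)) z) = z := by
  rcases z with _ | ⟨c, k⟩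
  · simp [Q3, T3]
  · by_cases hbc : b = c
    · subst hbc
      simp only [Q3, T3, if_true]
      rcases z3 j with rfl | rfl | rfl <;> rcases z3 k with rfl | rfl | rfl <;>
        simp (decide := true) [Q3, T3]
    · simp only [Q3, T3, if_neg hbc, if_neg (S.th_ne1 hbc).symm, S.th_th hbc]
      rw [show -j - (-j - k) = k by ring]

theorem inv_aux2 (a : W) (i : ZMod 3) (b : W) (j : ZMod 3) :
    S.Q3 (some (a, i)) (some (b, j)) (S.Q3 (some (a, i)) (some (b, j)) none) = none := by
  by_cases hab : a = b
  · subst hab
    simp only [Q3, T3, if_true]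
    rcases z3 i with rfl | rfl | rfl <;> rcases z3 j with rfl | rfl | rfl <;>
      simp (decide := true) [Q3, T3, U3]
  · simp only [Q3, T3, if_neg hab, U3, if_neg (S.th_ne1 hab).symm, if_neg (S.th_ne2 hab).symm,
      S.q_th hab]
    rw [if_pos (by ring)]

theorem inv_aux3 (a : W) (i : ZMod 3) (b : W) (j : ZMod 3) (c : W) (k : ZMod 3) :
    S.Q3 (some (a, i)) (some (b, j)) (S.U3 a i b j c k) = some (c, k) := by
  by_cases hab : a = b
  · subst hab
    by_cases hac : a = c
    · subst hac
      simp only [U3, if_true]
      rcases z3 i with rfl | rfl | rfl <;> rcases z3 j with rfl | rfl | rfl <;>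
        rcases z3 k with rfl | rfl | rfl <;> simp (decide := true) [Q3, T3, U3]
    · have h1 := S.th_ne1 hac
      have h2 := S.th_th hac
      simp only [U3, if_true, if_neg hac]
      rcases z3 i with rfl | rfl | rfl <;> rcases z3 j with rfl | rfl | rfl <;>
        rcases z3 k with rfl | rfl | rfl <;>
        simp (decide := true) [Q3, T3, U3, hac, h1.symm, h2]
  · have h1 := S.th_ne1 hab
    have h2 := S.th_ne2 hab
    have h3 := S.q_th hab
    have h4 := S.th_comm a b hab
    by_cases hac : a = c
    · subst hac
      simp only [U3, if_neg hab]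
      rcases z3 i with rfl | rfl | rfl <;> rcases z3 j with rfl | rfl | rfl <;>
        rcases z3 k with rfl | rfl | rfl <;>
        simp (decide := true) [Q3, T3, U3, hab, h1.symm, h2.symm, h3]
    · by_cases hbc : b = c
      · subst hbc
        simp only [U3, if_neg hab]
        rcases z3 i with rfl | rfl | rfl <;> rcases z3 j with rfl | rfl | rfl <;>
          rcases z3 k with rfl | rfl | rfl <;>
          simp (decide := true) [Q3, T3, U3, hab, h1.symm, h2.symm, h3]
      · simp only [U3, if_neg hab, if_neg hac, if_neg hbc]
        rcases hq : S.q (some a) (some b) (some c) with _ | d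
        · have h5 := (S.q_eq_none hab).1 hq
          subst h5
          rcases z3 i with rfl | rfl | rfl <;> rcases z3 j with rfl | rfl | rfl <;>
            rcases z3 k with rfl | rfl | rfl <;>
            simp (decide := true) [Q3, T3, U3, hab, h1.symm, h2.symm, h3]
        · have h5 := S.rot hq
          have h6 : a ≠ d := by
            rintro rfl
            exact S.ne1 (fun e => hbc (Option.some.inj e)) hq
          have h7 : b ≠ d := by
            rintro rfl
            exact S.ne2 (fun e => hac (Option.some.inj e)) hq
          simp only [Q3, U3, if_neg hab, if_neg h6, if_neg h7, h5]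
          rw [show -i - j - (-i - j - k) = k by ring]

theorem Q3_inv (x y z : Option (W × ZMod 3)) : S.Q3 x y (S.Q3 x y z) = z := by
  rcases x with _ | ⟨a, i⟩
  · rcases y with _ | ⟨b, j⟩
    · simp [Q3]
    · exact S.inv_aux1 b j z
  · rcases y with _ | ⟨b, j⟩
    · rw [S.Q3_s1 (some (a, i)) none, S.Q3_s1 (some (a, i)) none]
      exact S.inv_aux1 a i z
    · rcases z with _ | ⟨c, k⟩
      · exact S.inv_aux2 a i b j
      · exact S.inv_aux3 a i b j c k

/-- the tripled system -/
def trip : TSkein (Option (W × ZMod 3)) where
  q := S.Q3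
  s1 := S.Q3_s1
  s2 := S.Q3_s2
  idem := S.Q3_idem
  inv := S.Q3_inv

end TSkein

end Pool.Agent.RDS
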