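import Pool.Agent.Work.MP_5dff62_co.TripBase

set_option autoImplicit false

/-!
# Tripling: the new system is a Steiner quadruple system
-/

namespace Pool.Agent.RDS

open Finset

/-- the blocks of the new system -/
def IsNew {w : ℕ} (e : Finset (Fin w) → Fin 3 → Fin w) (𝓞 : Finset (Finset (Option (Fin w))))
    (B : Finset (NP w)) : Prop :=
  (∃ t b, OT t ∈ 𝓞 ∧ B = NB (e t) b) ∨
    ∃ (Q : Finset (Fin w)) (l : Fin w → ZMod 3), Q.image some ∈ 𝓞 ∧ ∑ x ∈ Q, l x = 0 ∧ B = B5 Q l

section

variable {w : ℕ} {𝓞 : Finset (Finset (Option (Fin w)))} (hO : SQSOn univ 𝓞)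
include hO

theorem S_card {t : Finset (Fin w)} (ht : OT t ∈ 𝓞) : t.card = 3 := by
  have := (hO.1 _ ht).2
  rw [OT_card] at this; omega

theorem Q_card {Q : Finset (Fin w)} (hQ : Q.image some ∈ 𝓞) : Q.card = 4 := by
  have := (hO.1 _ hQ).2
  rwa [card_image_of_injective _ (Option.some_injective _)] at this

theorem O_uniq {B B' : Finset (Option (Fin w))} (hB : B ∈ 𝓞) (hB' : B' ∈ 𝓞)
    {x y z : Option (Fin w)} (hxy : x ≠ y) (hxz : x ≠ z) (hyz : y ≠ z)
    (h1 : x ∈ B ∧ y ∈ B ∧ z ∈ B) (h2 : x ∈ B' ∧ y ∈ B' ∧ z ∈ B') : B = B' := by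
  have hc : ({x, y, z} : Finset (Option (Fin w))).card = 3 := card_eq_three.2 ⟨x, y, z, hxy, hxz, hyz, rfl⟩
  obtain ⟨B0, -, hu⟩ := hO.2 {x, y, z} (subset_univ _) hc
  have e1 := hu B ⟨hB, by
    intro u hu; simp only [mem_insert, mem_singleton] at hu
    rcases hu with rfl | rfl | rfl
    · exact h1.1
    · exact h1.2.1
    · exact h1.2.2⟩
  have e2 := hu B' ⟨hB', by
    intro u hu; simp only [mem_insert, mem_singleton] at hu
    rcases hu with rfl | rfl | rfl
    · exact h2.1
    · exact h2.2.1
    · exact h2.2.2⟩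
  rw [e1, e2]

theorem S_uniq {t t' : Finset (Fin w)} (ht : OT t ∈ 𝓞) (ht' : OT t' ∈ 𝓞) {a b : Fin w}
    (hab : a ≠ b) (h1 : a ∈ t) (h2 : b ∈ t) (h3 : a ∈ t') (h4 : b ∈ t') : t = t' := by
  apply OT_inj
  exact O_uniq hO ht ht' (x := none) (y := some a) (z := some b) (by simp) (by simp)
    (by simpa using hab) ⟨none_mem_OT, some_mem_OT.2 h1, some_mem_OT.2 h2⟩
    ⟨none_mem_OT, some_mem_OT.2 h3, some_mem_OT.2 h4⟩

theorem S_pair (hw : 3 ≤ w) (a b : Fin w) : ∃ t, OT t ∈ 𝓞 ∧ a ∈ t ∧ b ∈ t := by
  have key : ∀ a b : Fin w, a ≠ b → ∃ t, OT t ∈ 𝓞 ∧ a ∈ t ∧ b ∈ t := by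
    intro a b hab
    have hc : ({none, some a, some b} : Finset (Option (Fin w))).card = 3 :=
      card_eq_three.2 ⟨none, some a, some b, by simp, by simp, by simpa using hab, rfl⟩
    obtain ⟨B, ⟨hB, hT⟩, -⟩ := hO.2 {none, some a, some b} (subset_univ _) hc
    refine ⟨univ.filter (fun c => some c ∈ B), ?_, ?_, ?_⟩
    · have : OT (univ.filter (fun c => some c ∈ B)) = B := by
        ext y
        rcases y with _ | y
        · simp only [none_mem_OT, true_iff]
          exact hT (by simp)
        · rw [some_mem_OT]; simp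
      rwa [this]
    · simp only [mem_filter, mem_univ, true_and]; exact hT (by simp)
    · simp only [mem_filter, mem_univ, true_and]; exact hT (by simp)
  by_cases hab : a = b
  · subst hab
    have : Nontrivial (Fin w) := Fin.nontrivial_iff_two_le.2 (by omega)
    obtain ⟨c, hc⟩ := exists_ne a
    obtain ⟨t, h1, h2, -⟩ := key a c hc.symm
    exact ⟨t, h1, h2, h2⟩
  · exact key a b hab

theorem new_sqs (hw : 3 ≤ w) {e : Finset (Fin w) → Fin 3 → Fin w}
    (he : ∀ t, t.card = 3 → Function.Injective (e t) ∧ ∀ a, a ∈ t ↔ ∃ r, e t r = a)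
    {𝓑 : Finset (Finset (NP w))} (h𝓑 : ∀ B, B ∈ 𝓑 ↔ IsNew e 𝓞 B) : SQSOn univ 𝓑 := by
  have hcard : ∀ B ∈ 𝓑, B.card = 4 := by
    intro B hB
    rw [h𝓑] at hB
    rcases hB with ⟨t, b, ht, rfl⟩ | ⟨Q, l, hQ, -, rfl⟩
    · exact NB_card (he t (S_card hO ht)).1 b
    · rw [B5_card, Q_card hO hQ]
  refine ⟨fun B hB => ⟨subset_univ _, hcard B hB⟩, ?_⟩
  intro T _ hT
  -- two cases
  have hcase : (∃ t, OT t ∈ 𝓞 ∧ ∀ a i, (some (a, i) : NP w) ∈ T → a ∈ t) ∨
      ∃ (a b c : Fin w) (i j k : ZMod 3), a ≠ b ∧ a ≠ c ∧ b ≠ c ∧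
        T = {some (a, i), some (b, j), some (c, k)} ∧ OT {a, b, c} ∉ 𝓞 := by
    obtain ⟨x, y, z, hxy, hxz, hyz, rfl⟩ := card_eq_three.1 hT
    have hfin : ∀ (a b : Fin w) (T : Finset (NP w)),
        (∀ c k, (some (c, k) : NP w) ∈ T → c = a ∨ c = b) →
        ∃ t, OT t ∈ 𝓞 ∧ ∀ a i, (some (a, i) : NP w) ∈ T → a ∈ t := by
      intro a b T h
      obtain ⟨t, h1, h2, h3⟩ := S_pair hO hw a b
      refine ⟨t, h1, fun c i hc => ?_⟩
      rcases h c i hc with rfl | rfl
      · exact h2
      · exact h3
    rcases x with _ | ⟨a, i⟩ <;> rcases y with _ | ⟨b, j⟩ <;> rcases z with _ | ⟨c, k⟩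
    · exact absurd rfl hxy
    · exact absurd rfl hxy
    · exact absurd rfl hxz
    · left; apply hfin b c
      intro d m hd
      simp only [mem_insert, mem_singleton, Option.some.injEq, Prod.mk.injEq, reduceCtorEq] at hd
      tauto
    · exact absurd rfl hyz
    · left; apply hfin a c
      intro d m hd
      simp only [mem_insert, mem_singleton, Option.some.injEq, Prod.mk.injEq, reduceCtorEq] at hd
      tauto
    · left; apply hfin a b
      intro d m hd
      simp only [mem_insert, mem_singleton, Option.some.injEq, Prod.mk.injEq, reduceCtorEq] at hd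
      tauto
    · by_cases hab : a = b
      · left; apply hfin a c
        intro d m hd
        simp only [mem_insert, mem_singleton, Option.some.injEq, Prod.mk.injEq] at hd
        subst hab; tauto
      · by_cases hac : a = c
        · left; apply hfin a b
          intro d m hd
          simp only [mem_insert, mem_singleton, Option.some.injEq, Prod.mk.injEq] at hd
          subst hac; tauto
        · by_cases hbc : b = c
          · left; apply hfin a b
            intro d m hd
            simp only [mem_insert, mem_singleton, Option.some.injEq, Prod.mk.injEq] at hd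
            subst hbc; tauto
          · by_cases hS : OT {a, b, c} ∈ 𝓞
            · left
              refine ⟨{a, b, c}, hS, ?_⟩
              intro d m hd
              simp only [mem_insert, mem_singleton, Option.some.injEq, Prod.mk.injEq] at hd ⊢
              tauto
            · right
              exact ⟨a, b, c, i, j, k, hab, hac, hbc, rfl, hS⟩
  rcases hcase with ⟨t, ht, hTt⟩ | ⟨a, b, c, i, j, k, hab, hac, hbc, rfl, hS⟩
  · -- case I
    obtain ⟨hinj, hmem⟩ := he t (S_card hO ht)
    obtain ⟨b, hb⟩ : ∃ b, T ⊆ NB (e t) b := by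
      apply NB_cov hinj hT
      intro y hy
      rcases y with _ | ⟨a, i⟩
      · exact ⟨none, rfl⟩
      · obtain ⟨r, rfl⟩ := (hmem a).1 (hTt a i hy)
        exact ⟨some (r, i), rfl⟩
    refine ⟨NB (e t) b, ⟨(h𝓑 _).2 (Or.inl ⟨t, b, ht, rfl⟩), hb⟩, ?_⟩
    rintro B ⟨hB, hTB⟩
    rcases (h𝓑 _).1 hB with ⟨t', b', ht', rfl⟩ | ⟨Q, l, hQ, hl, rfl⟩
    · by_cases htt : t' = t
      · subst htt
        rw [NB_uniq hinj hT hTB hb]
      · obtain ⟨hinj', hmem'⟩ := he t' (S_card hO ht')
        -- all first coordinates are equal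
        have hTt' : ∀ a i, (some (a, i) : NP w) ∈ T → a ∈ t' := by
          intro a i ha
          exact (hmem' a).2 (NB_sub (hTB ha))
        obtain ⟨a, i, hai⟩ : ∃ a i, (some (a, i) : NP w) ∈ T := by
          by_contra hno
          push Not at hno
          have : T ⊆ {none} := by
            intro y hy
            rcases y with _ | ⟨a, i⟩
            · simp
            · exact absurd hy (hno a i)
          have := card_le_card this
          rw [card_singleton, hT] at this
          omega
        have hTa : T ⊆ colS a := by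
          intro y hy
          rcases y with _ | ⟨c, k⟩
          · exact none_mem_colS
          · rw [mem_colS]
            by_contra hca
            exact htt (S_uniq hO ht' ht hca (hTt' c k hy) (hTt' a i hai) (hTt c k hy) (hTt a i hai))
        rw [NB_eq_col hinj ((hmem a).1 (hTt a i hai)) hT hb hTa,
          NB_eq_col hinj' ((hmem' a).1 (hTt' a i hai)) hT hTB hTa]
    · exfalso
      obtain ⟨x, y, z, hxy, hxz, hyz, rfl⟩ := card_eq_three.1 hT
      have hx := hTB (show x ∈ ({x, y, z} : Finset (NP w)) by simp)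
      have hy := hTB (show y ∈ ({x, y, z} : Finset (NP w)) by simp)
      have hz := hTB (show z ∈ ({x, y, z} : Finset (NP w)) by simp)
      rcases x with _ | ⟨a, i⟩
      · exact none_notMem_B5 hx
      rcases y with _ | ⟨b1, j⟩
      · exact none_notMem_B5 hy
      rcases z with _ | ⟨c, k⟩
      · exact none_notMem_B5 hz
      rw [mem_B5] at hx hy hz
      obtain ⟨hx, rfl⟩ := hx
      obtain ⟨hy, rfl⟩ := hy
      obtain ⟨hz, rfl⟩ := hz
      have h1 : a ≠ b1 := fun h => hxy (by rw [h])
      have h2 : a ≠ c := fun h => hxz (by rw [h])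
      have h3 : b1 ≠ c := fun h => hyz (by rw [h])
      have := O_uniq hO ht hQ (x := some a) (y := some b1) (z := some c) (by simpa using h1)
        (by simpa using h2) (by simpa using h3)
        ⟨some_mem_OT.2 (hTt a (l a) (by simp)), some_mem_OT.2 (hTt b1 (l b1) (by simp)),
          some_mem_OT.2 (hTt c (l c) (by simp))⟩
        ⟨some_mem_image.2 hx, some_mem_image.2 hy, some_mem_image.2 hz⟩
      exact none_notMem_image (this ▸ none_mem_OT)
  · -- case II
    have h1' : (some a : Option (Fin w)) ≠ some b := by simpa using hab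
    have h2' : (some a : Option (Fin w)) ≠ some c := by simpa using hac
    have h3' : (some b : Option (Fin w)) ≠ some c := by simpa using hbc
    have hc3 : ({some a, some b, some c} : Finset (Option (Fin w))).card = 3 :=
      card_eq_three.2 ⟨some a, some b, some c, h1', h2', h3', rfl⟩
    have habc : ({a, b, c} : Finset (Fin w)).card = 3 := card_eq_three.2 ⟨a, b, c, hab, hac, hbc, rfl⟩
    obtain ⟨B0, ⟨hB0, hT0⟩, -⟩ := hO.2 {some a, some b, some c} (subset_univ _) hc3
    have ha0 : some a ∈ B0 := hT0 (by simp)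
    have hb0 : some b ∈ B0 := hT0 (by simp)
    have hc0 : some c ∈ B0 := hT0 (by simp)
    have hnone : none ∉ B0 := by
      intro hn
      have hsub : OT {a, b, c} ⊆ B0 := by
        intro y hy
        rcases y with _ | y
        · exact hn
        · rw [some_mem_OT] at hy
          simp only [mem_insert, mem_singleton] at hy
          rcases hy with rfl | rfl | rfl
          · exact ha0
          · exact hb0
          · exact hc0
      have := eq_of_subset_of_card_le hsub (by rw [(hO.1 _ hB0).2, OT_card, habc])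
      exact hS (this ▸ hB0)
    obtain ⟨Q, hQ0⟩ : ∃ Q : Finset (Fin w), Q.image some = B0 := by
      refine ⟨univ.filter (fun c => some c ∈ B0), ?_⟩
      ext y
      rcases y with _ | y
      · simp [hnone]
      · rw [some_mem_image]; simp
    subst hQ0
    rw [some_mem_image] at ha0 hb0 hc0
    have hQ4 := Q_card hO hB0
    have hsub : ({a, b, c} : Finset (Fin w)) ⊆ Q := by
      intro y hy
      simp only [mem_insert, mem_singleton] at hy
      rcases hy with rfl | rfl | rfl
      · exact ha0
      · exact hb0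
      · exact hc0
    obtain ⟨d, hd⟩ : ∃ d, Q \ {a, b, c} = {d} := by
      apply card_eq_one.1
      rw [card_sdiff_of_subset hsub, hQ4, habc]
    have hdm : d ∈ Q \ {a, b, c} := by rw [hd]; simp
    simp only [mem_sdiff, mem_insert, mem_singleton, not_or] at hdm
    obtain ⟨hdQ, hda, hdb, hdc⟩ := hdm
    have hQeq : ∀ x, x ∈ Q ↔ x = a ∨ x = b ∨ x = c ∨ x = d := by
      intro x
      constructor
      · intro hx
        by_cases hx' : x ∈ ({a, b, c} : Finset (Fin w))
        · simp only [mem_insert, mem_singleton] at hx'; tauto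
        · have : x ∈ Q \ {a, b, c} := mem_sdiff.2 ⟨hx, hx'⟩
          rw [hd, mem_singleton] at this
          tauto
      · rintro (rfl | rfl | rfl | rfl)
        · exact ha0
        · exact hb0
        · exact hc0
        · exact hdQ
    have hQe : Q = insert a (insert b (insert c {d})) := by
      ext x; rw [hQeq]; simp
    have hsum : ∀ l : Fin w → ZMod 3, ∑ x ∈ Q, l x = l a + (l b + (l c + l d)) := by
      intro l
      rw [hQe, sum_insert, sum_insert, sum_insert, sum_singleton]
      · simp only [mem_singleton]; exact fun h => hdc h.symm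
      · simp only [mem_insert, mem_singleton, not_or]; exact ⟨hbc, fun h => hdb h.symm⟩
      · simp only [mem_insert, mem_singleton, not_or]; exact ⟨hab, hac, fun h => hda h.symm⟩
    obtain ⟨l, hla, hlb, hlc, hld⟩ : ∃ l : Fin w → ZMod 3, l a = i ∧ l b = j ∧ l c = k ∧
        l d = -(i + j + k) := by
      refine ⟨fun x => if x = a then i else if x = b then j else if x = c then k else -(i + j + k),
        ?_, ?_, ?_, ?_⟩
      · simp
      · simp [hab.symm]
      · simp [hac.symm, hbc.symm]
      · simp [hda, hdb, hdc]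
    refine ⟨B5 Q l, ⟨(h𝓑 _).2 (Or.inr ⟨Q, l, hB0, ?_, rfl⟩), ?_⟩, ?_⟩
    · rw [hsum, hla, hlb, hlc, hld]; ring
    · intro y hy
      simp only [mem_insert, mem_singleton] at hy
      rcases hy with rfl | rfl | rfl
      · exact mem_B5.2 ⟨ha0, hla⟩
      · exact mem_B5.2 ⟨hb0, hlb⟩
      · exact mem_B5.2 ⟨hc0, hlc⟩
    · rintro B ⟨hB, hTB⟩
      have hA := hTB (show (some (a, i) : NP w) ∈ ({some (a, i), some (b, j), some (c, k)} :
        Finset (NP w)) by simp)
      have hBb := hTB (show (some (b, j) : NP w) ∈ ({some (a, i), some (b, j), some (c, k)} :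
        Finset (NP w)) by simp)
      have hC := hTB (show (some (c, k) : NP w) ∈ ({some (a, i), some (b, j), some (c, k)} :
        Finset (NP w)) by simp)
      rcases (h𝓑 _).1 hB with ⟨t', b', ht', rfl⟩ | ⟨Q', l', hQ', hl', rfl⟩
      · exfalso
        obtain ⟨hinj', hmem'⟩ := he t' (S_card hO ht')
        have hsub' : ({a, b, c} : Finset (Fin w)) ⊆ t' := by
          intro y hy
          simp only [mem_insert, mem_singleton] at hy
          rcases hy with rfl | rfl | rfl
          · exact (hmem' _).2 (NB_sub hA)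
          · exact (hmem' _).2 (NB_sub hBb)
          · exact (hmem' _).2 (NB_sub hC)
        have := eq_of_subset_of_card_le hsub' (by rw [S_card hO ht', habc])
        exact hS (this ▸ ht')
      · rw [mem_B5] at hA hBb hC
        have hQQ : Q' = Q := by
          apply image_some_inj
          exact O_uniq hO hQ' hB0 h1' h2' h3'
            ⟨some_mem_image.2 hA.1, some_mem_image.2 hBb.1, some_mem_image.2 hC.1⟩
            ⟨some_mem_image.2 ha0, some_mem_image.2 hb0, some_mem_image.2 hc0⟩
        subst hQQ
        apply B5_congr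
        intro x hx
        rw [hsum, hA.2, hBb.2, hC.2] at hl'
        have hl'd : l' d = -(i + j + k) := by linear_combination hl'
        rcases (hQeq x).1 hx with rfl | rfl | rfl | rfl
        · rw [hA.2, hla]
        · rw [hBb.2, hlb]
        · rw [hC.2, hlc]
        · rw [hl'd, hld]

end

end Pool.Agent.RDS
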