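import Pool.Agent.Work.MP_5dff62_co.Defs

set_option autoImplicit false

/-!
# Module D, part 1: Steiner quadruple systems as ternary operations
-/

namespace Pool.Agent.RDS

open Finset

/-- a Steiner quadruple system as a ternary operation -/
structure TSkein (α : Type) where
  q : α → α → α → α
  s1 : ∀ x y z, q x y z = q y x z
  s2 : ∀ x y z, q x y z = q x z y
  idem : ∀ x z, q x x z = z
  inv : ∀ x y z, q x y (q x y z) = z

namespace TSkein

variable {α : Type} (S : TSkein α)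

theorem idem2 (x z : α) : S.q x z x = z := by rw [S.s2, S.idem]

theorem idem3 (x z : α) : S.q z x x = z := by rw [S.s1, S.idem2]

theorem rot {x y z u : α} (h : S.q x y z = u) : S.q x y u = z := by rw [← h, S.inv]

theorem sw1 {x y z u : α} (h : S.q x y z = u) : S.q y x z = u := by rw [← S.s1, h]

theorem sw2 {x y z u : α} (h : S.q x y z = u) : S.q x z y = u := by rw [← S.s2, h]

theorem ne3 {x y z : α} (h : x ≠ y) : S.q x y z ≠ z := by
  intro e
  have h1 := S.rot (S.sw2 e)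
  rw [S.idem3] at h1
  exact h h1

theorem ne1 {x y z : α} (h : y ≠ z) : S.q x y z ≠ x := by
  intro e
  exact S.ne3 h (z := x) (S.sw2 (S.sw1 e))

theorem ne2 {x y z : α} (h : x ≠ z) : S.q x y z ≠ y := by
  intro e
  exact S.ne3 h (z := y) (S.sw2 e)

variable [DecidableEq α]

/-- a four-element block is closed under the operation -/
theorem closed {x y z u : α} (h : S.q x y z = u) {a b c : α}
    (ha : a ∈ ({x, y, z, u} : Finset α)) (hb : b ∈ ({x, y, z, u} : Finset α))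
    (hc : c ∈ ({x, y, z, u} : Finset α)) : S.q a b c ∈ ({x, y, z, u} : Finset α) := by
  have h1 := S.sw1 h
  have h2 := S.sw2 h
  have h3 := S.sw1 h2
  have h4 := S.sw2 h1
  have h5 := S.sw2 h3
  have k0 := S.rot h
  have k1 := S.sw1 k0
  have k2 := S.sw2 k0
  have k3 := S.sw1 k2
  have k4 := S.sw2 k1
  have k5 := S.sw2 k3
  have l0 := S.rot h2
  have l1 := S.sw1 l0
  have l2 := S.sw2 l0
  have l3 := S.sw1 l2
  have l4 := S.sw2 l1
  have l5 := S.sw2 l3
  have m0 := S.rot h4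
  have m1 := S.sw1 m0
  have m2 := S.sw2 m0
  have m3 := S.sw1 m2
  have m4 := S.sw2 m1
  have m5 := S.sw2 m3
  simp only [mem_insert, mem_singleton] at ha hb hc ⊢
  rcases ha with rfl | rfl | rfl | rfl <;> rcases hb with rfl | rfl | rfl | rfl <;>
    rcases hc with rfl | rfl | rfl | rfl <;>
    simp only [S.idem, S.idem2, S.idem3, h, h1, h2, h3, h4, h5, k0, k1, k2, k3, k4, k5, l0, l1,
      l2, l3, l4, l5, m0, m1, m2, m3, m4, m5, true_or, or_true]

theorem card_block {x y z : α} (hxy : x ≠ y) (hxz : x ≠ z) (hyz : y ≠ z) :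
    ({x, y, z, S.q x y z} : Finset α).card = 4 := by
  have h1 := S.ne1 (x := x) hyz
  have h2 := S.ne2 (y := y) hxz
  have h3 := S.ne3 (z := z) hxy
  rw [card_insert_of_notMem, card_insert_of_notMem, card_insert_of_notMem, card_singleton]
  · simp only [mem_singleton]
    exact h3.symm
  · simp only [mem_insert, mem_singleton, not_or]
    exact ⟨hyz, h2.symm⟩
  · simp only [mem_insert, mem_singleton, not_or]
    exact ⟨hxy, hxz, h1.symm⟩

/-- if `a,b,c` are distinct points of a block then the block is `{a,b,c,q a b c}` -/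
theorem block_eq {x y z : α} (hxy : x ≠ y) (hxz : x ≠ z) (hyz : y ≠ z) {a b c : α}
    (ha : a ∈ ({x, y, z, S.q x y z} : Finset α)) (hb : b ∈ ({x, y, z, S.q x y z} : Finset α))
    (hc : c ∈ ({x, y, z, S.q x y z} : Finset α)) (hab : a ≠ b) (hac : a ≠ c) (hbc : b ≠ c) :
    ({x, y, z, S.q x y z} : Finset α) = {a, b, c, S.q a b c} := by
  symm
  apply eq_of_subset_of_card_le
  · intro t ht
    simp only [mem_insert, mem_singleton] at ht
    rcases ht with rfl | rfl | rfl | rfl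
    · exact ha
    · exact hb
    · exact hc
    · exact S.closed rfl ha hb hc
  · rw [S.card_block hxy hxz hyz, S.card_block hab hac hbc]

variable [Fintype α]

/-- the blocks of a skein -/
def blocks : Finset (Finset α) :=
  univ.filter (fun B => ∃ x y z, x ≠ y ∧ x ≠ z ∧ y ≠ z ∧ B = {x, y, z, S.q x y z})

theorem mem_blocks {B : Finset α} :
    B ∈ S.blocks ↔ ∃ x y z, x ≠ y ∧ x ≠ z ∧ y ≠ z ∧ B = {x, y, z, S.q x y z} := by
  simp only [blocks, mem_filter, mem_univ, true_and]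

theorem blocks_eq {B : Finset α} (hB : B ∈ S.blocks) {a b c : α} (ha : a ∈ B) (hb : b ∈ B)
    (hc : c ∈ B) (hab : a ≠ b) (hac : a ≠ c) (hbc : b ≠ c) : B = {a, b, c, S.q a b c} := by
  obtain ⟨x, y, z, h1, h2, h3, rfl⟩ := S.mem_blocks.1 hB
  exact S.block_eq h1 h2 h3 ha hb hc hab hac hbc

theorem sqs : SQSOn univ S.blocks := by
  constructor
  · intro B hB
    obtain ⟨x, y, z, h1, h2, h3, rfl⟩ := S.mem_blocks.1 hB
    exact ⟨subset_univ _, S.card_block h1 h2 h3⟩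
  · intro T _ hT
    obtain ⟨x, y, z, h1, h2, h3, rfl⟩ := card_eq_three.1 hT
    refine ⟨{x, y, z, S.q x y z}, ⟨S.mem_blocks.2 ⟨x, y, z, h1, h2, h3, rfl⟩, ?_⟩, ?_⟩
    · intro t ht
      simp only [mem_insert, mem_singleton] at ht ⊢
      tauto
    · rintro B ⟨hB, hTB⟩
      exact S.blocks_eq hB (hTB (by simp)) (hTB (by simp)) (hTB (by simp)) h1 h2 h3

/-- functional form of a colouring of the blocks through `x` -/
def FunCol {β : Type} (x : α) (C : Finset β) (F : α → α → β) : Prop :=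
  (∀ y z, y ≠ x → z ≠ x → y ≠ z → F y z ∈ C) ∧
  (∀ y z, y ≠ x → z ≠ x → y ≠ z → F y z = F z y) ∧
  (∀ y z, y ≠ x → z ≠ x → y ≠ z → F y z = F y (S.q x y z)) ∧
  ∀ y z z', y ≠ x → z ≠ x → y ≠ z → z' ≠ x → y ≠ z' → F y z = F y z' →
    z' = z ∨ z' = S.q x y z

theorem funCol_of_colAt {x : α} (h : ColAt univ S.blocks x) :
    ∃ (β : Type) (C : Finset β) (F : α → α → β), 2 * C.card + 2 ≤ Fintype.card α ∧
      S.FunCol x C F := by
  classical
  obtain ⟨β, C, P, hC, hP, hinj⟩ := h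
  have key : ∀ y z, y ≠ x → z ≠ x → y ≠ z → ({x, y, z, S.q x y z} : Finset α) ∈ S.blocks :=
    fun y z hy hz hyz => S.mem_blocks.2 ⟨x, y, z, hy.symm, hz.symm, hyz, rfl⟩
  obtain ⟨g, hg⟩ : ∃ g : Finset α → Option β, ∀ B ∈ S.blocks, x ∈ B →
      ∃ e ∈ C, P B e ∧ g B = some e := by
    refine ⟨fun B => if h : B ∈ S.blocks ∧ x ∈ B then some (Classical.choose (hP B h.1 h.2))
      else none, ?_⟩
    intro B hB hx
    have h1 := Classical.choose_spec (hP B hB hx)
    exact ⟨_, h1.1, h1.2, dif_pos ⟨hB, hx⟩⟩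
  refine ⟨Option β, C.map Function.Embedding.some, fun y z => g {x, y, z, S.q x y z}, ?_, ?_, ?_,
    ?_, ?_⟩
  · rw [card_map]
    simpa using hC
  · intro y z hy hz hyz
    obtain ⟨e, he, -, h2⟩ := hg _ (key y z hy hz hyz) (by simp)
    show g _ ∈ _
    rw [h2]
    simpa using he
  · intro y z hy hz hyz
    show g _ = g _
    congr 1
    exact S.blocks_eq (key y z hy hz hyz) (by simp) (by simp) (by simp) hz.symm hy.symm hyz.symm
  · intro y z hy hz hyz
    show g _ = g _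
    congr 1
    exact S.blocks_eq (key y z hy hz hyz) (by simp) (by simp) (by simp) hy.symm
      (S.ne1 hyz).symm (S.ne2 hz.symm).symm
  · intro y z z' hy hz hyz hz' hyz' he
    obtain ⟨e, heC, h1, h2⟩ := hg _ (key y z hy hz hyz) (by simp)
    obtain ⟨e', -, h1', h2'⟩ := hg _ (key y z' hy hz' hyz') (by simp)
    have he2 : e = e' := by
      have h3 : some e = some e' := by rw [← h2, ← h2']; exact he
      exact Option.some.inj h3
    rw [← he2] at h1'
    have h4 := hinj _ (key y z hy hz hyz) _ (key y z' hy hz' hyz') e heC y hy (by simp) (by simp)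
      (by simp) (by simp) h1 h1'
    have h5 : z' ∈ ({x, y, z, S.q x y z} : Finset α) := by
      rw [h4]; simp
    simp only [mem_insert, mem_singleton] at h5
    rcases h5 with h5 | h5 | h5 | h5
    · exact absurd h5 hz'
    · exact absurd h5.symm hyz'
    · exact Or.inl h5
    · exact Or.inr h5

theorem colAt_of_funCol {β : Type} {x : α} {C : Finset β} {F : α → α → β}
    (hC : 2 * C.card + 2 ≤ Fintype.card α) (h : S.FunCol x C F) : ColAt univ S.blocks x := by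
  obtain ⟨h1, h2, h3, h4⟩ := h
  refine ⟨β, C, fun B e => ∃ y z, y ≠ x ∧ z ≠ x ∧ y ≠ z ∧ B = {x, y, z, S.q x y z} ∧ F y z = e,
    by simpa using hC, ?_, ?_⟩
  · intro B hB hx
    have hc : 1 < (B.erase x).card := by
      rw [card_erase_of_mem hx, (S.sqs.1 B hB).2]
      norm_num
    obtain ⟨y, hy, z, hz, hyz⟩ := one_lt_card.1 hc
    rw [mem_erase] at hy hz
    exact ⟨F y z, h1 y z hy.1 hz.1 hyz, y, z, hy.1, hz.1, hyz,
      S.blocks_eq hB hx hy.2 hz.2 hy.1.symm hz.1.symm hyz, rfl⟩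
  · intro B hB B' hB' e he y hy hxB hxB' hyB hyB' hP hP'
    have key : ∀ B : Finset α, y ∈ B →
        (∃ y z, y ≠ x ∧ z ≠ x ∧ y ≠ z ∧ B = {x, y, z, S.q x y z} ∧ F y z = e) →
        ∃ z, z ≠ x ∧ y ≠ z ∧ z ∈ B ∧ F y z = e := by
      rintro B hyB ⟨y1, z1, hy1, hz1, hyz1, rfl, hF⟩
      simp only [mem_insert, mem_singleton] at hyB
      rcases hyB with rfl | rfl | rfl | rfl
      · exact absurd rfl hy
      · exact ⟨z1, hz1, hyz1, by simp, hF⟩
      · exact ⟨y1, hy1, hyz1.symm, by simp, by rw [← h2 y1 y hy1 hz1 hyz1, hF]⟩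
      · refine ⟨y1, hy1, S.ne2 hz1.symm, by simp, ?_⟩
        rw [← h2 y1 _ hy1 hy (S.ne2 hz1.symm).symm, ← h3 y1 z1 hy1 hz1 hyz1, hF]
    obtain ⟨z, hz, hyz, hzB, hF⟩ := key B hyB hP
    obtain ⟨z', hz', hyz', hzB', hF'⟩ := key B' hyB' hP'
    have e1 := S.blocks_eq hB hxB hyB hzB hy.symm hz.symm hyz
    have e2 := S.blocks_eq hB' hxB' hyB' hzB' hy.symm hz'.symm hyz'
    have h5 := h4 y z z' hy hz hyz hz' hyz' (hF.trans hF'.symm)
    have h6 : z' ∈ B := by
      rcases h5 with rfl | rfl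
      · exact hzB
      · rw [e1]; simp
    rw [e2]
    exact S.blocks_eq hB hxB hyB h6 hy.symm hz'.symm hyz'

end TSkein

section ofSQS

variable {α : Type} [DecidableEq α] [Fintype α] (𝓑 : Finset (Finset α))

/-- the graph of the skein of a quadruple system -/
def SkR (x y z u : α) : Prop :=
  (x ≠ y ∧ x ≠ z ∧ y ≠ z ∧ u ≠ x ∧ u ≠ y ∧ u ≠ z ∧ ({x, y, z, u} : Finset α) ∈ 𝓑) ∨
    (x = y ∧ u = z) ∨ (x = z ∧ u = y) ∨ (y = z ∧ u = x)

variable {𝓑}

omit [Fintype α] in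
theorem SkR.s1 {x y z u : α} (h : SkR 𝓑 x y z u) : SkR 𝓑 y x z u := by
  rcases h with ⟨h1, h2, h3, h4, h5, h6, h7⟩ | ⟨h1, h2⟩ | ⟨h1, h2⟩ | ⟨h1, h2⟩
  · left
    refine ⟨h1.symm, h3, h2, h5, h4, h6, ?_⟩
    rw [Finset.insert_comm]; exact h7
  · right; left; exact ⟨h1.symm, h2⟩
  · right; right; right; exact ⟨h1, h2⟩
  · right; right; left; exact ⟨h1, h2⟩

omit [Fintype α] in
theorem SkR.s2 {x y z u : α} (h : SkR 𝓑 x y z u) : SkR 𝓑 x z y u := by
  rcases h with ⟨h1, h2, h3, h4, h5, h6, h7⟩ | ⟨h1, h2⟩ | ⟨h1, h2⟩ | ⟨h1, h2⟩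
  · left
    refine ⟨h2, h1, h3.symm, h4, h6, h5, ?_⟩
    rw [Finset.insert_comm z y]; exact h7
  · right; right; left; exact ⟨h1, h2⟩
  · right; left; exact ⟨h1, h2⟩
  · right; right; right; exact ⟨h1.symm, h2⟩

omit [Fintype α] in
theorem SkR.inv {x y z u : α} (h : SkR 𝓑 x y z u) : SkR 𝓑 x y u z := by
  rcases h with ⟨h1, h2, h3, h4, h5, h6, h7⟩ | ⟨h1, h2⟩ | ⟨h1, h2⟩ | ⟨h1, h2⟩
  · left
    refine ⟨h1, h4.symm, h5.symm, h2.symm, h3.symm, h6.symm, ?_⟩
    have e : ({x, y, u, z} : Finset α) = {x, y, z, u} := by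
      ext t; simp only [mem_insert, mem_singleton]; tauto
    rw [e]; exact h7
  · right; left; exact ⟨h1, h2.symm⟩
  · right; right; right; exact ⟨h2.symm, h1.symm⟩
  · right; right; left; exact ⟨h2.symm, h1.symm⟩

theorem SkR.exists_unique (h : SQSOn univ 𝓑) (x y z : α) : ∃! u, SkR 𝓑 x y z u := by
  by_cases h1 : x = y
  · refine ⟨z, Or.inr (Or.inl ⟨h1, rfl⟩), ?_⟩
    rintro u (⟨g1, -⟩ | ⟨-, g⟩ | ⟨g1, g2⟩ | ⟨g1, g2⟩)
    · exact absurd h1 g1
    · exact g
    · rw [g2, ← h1, g1]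
    · rw [g2, h1, g1]
  by_cases h2 : x = z
  · refine ⟨y, Or.inr (Or.inr (Or.inl ⟨h2, rfl⟩)), ?_⟩
    rintro u (⟨-, g1, -⟩ | ⟨g1, -⟩ | ⟨-, g⟩ | ⟨g1, g2⟩)
    · exact absurd h2 g1
    · exact absurd g1 h1
    · exact g
    · rw [g2, h2, g1]
  by_cases h3 : y = z
  · refine ⟨x, Or.inr (Or.inr (Or.inr ⟨h3, rfl⟩)), ?_⟩
    rintro u (⟨-, -, g1, -⟩ | ⟨g1, -⟩ | ⟨g1, -⟩ | ⟨-, g⟩)
    · exact absurd h3 g1
    · exact absurd g1 h1
    · exact absurd g1 h2
    · exact g
  have hT : ({x, y, z} : Finset α).card = 3 := card_eq_three.2 ⟨x, y, z, h1, h2, h3, rfl⟩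
  obtain ⟨B, ⟨hB, hTB⟩, huniq⟩ := h.2 {x, y, z} (subset_univ _) hT
  have hBc := (h.1 B hB).2
  have hd : (B \ {x, y, z}).card = 1 := by
    rw [card_sdiff_of_subset hTB, hBc, hT]
  obtain ⟨u, hu⟩ := card_eq_one.1 hd
  have hu1 : u ∈ B \ {x, y, z} := by rw [hu]; simp
  rw [mem_sdiff] at hu1
  have hu2 := hu1.2
  simp only [mem_insert, mem_singleton, not_or] at hu2
  have hBe : B = {x, y, z, u} := by
    have e1 : B = (B \ {x, y, z}) ∪ {x, y, z} := (sdiff_union_of_subset hTB).symm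
    rw [e1, hu]
    ext t; simp only [mem_insert, mem_singleton, mem_union]; tauto
  refine ⟨u, Or.inl ⟨h1, h2, h3, hu2.1, hu2.2.1, hu2.2.2, hBe ▸ hB⟩, ?_⟩
  rintro v (⟨-, -, -, g1, g2, g3, g4⟩ | ⟨g1, -⟩ | ⟨g1, -⟩ | ⟨g1, -⟩)
  · have e2 := huniq {x, y, z, v} ⟨g4, by
      intro t ht; simp only [mem_insert, mem_singleton] at ht ⊢; tauto⟩
    have h5 : v ∈ B := by rw [← e2]; simp
    rw [hBe] at h5
    simp only [mem_insert, mem_singleton] at h5
    tauto
  · exact absurd g1 h1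
  · exact absurd g1 h2
  · exact absurd g1 h3

theorem exists_skein (h : SQSOn univ 𝓑) : ∃ S : TSkein α, S.blocks = 𝓑 := by
  classical
  choose q hq huq using fun x y z => SkR.exists_unique h x y z
  let S : TSkein α :=
    { q := q
      s1 := fun x y z => (huq y x z _ (hq x y z).s1)
      s2 := fun x y z => (huq x z y _ (hq x y z).s2)
      idem := fun x z => (huq x x z z (Or.inr (Or.inl ⟨rfl, rfl⟩))).symm
      inv := fun x y z => (huq x y _ z (hq x y z).inv).symm }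
  refine ⟨S, ?_⟩
  have key : ∀ x y z, x ≠ y → x ≠ z → y ≠ z → ({x, y, z, q x y z} : Finset α) ∈ 𝓑 := by
    intro x y z h1 h2 h3
    rcases hq x y z with ⟨-, -, -, -, -, -, g⟩ | ⟨g, -⟩ | ⟨g, -⟩ | ⟨g, -⟩
    · exact g
    · exact absurd g h1
    · exact absurd g h2
    · exact absurd g h3
  ext B
  rw [S.mem_blocks]
  constructor
  · rintro ⟨x, y, z, h1, h2, h3, rfl⟩
    exact key x y z h1 h2 h3
  · intro hB
    have hBc := (h.1 B hB).2
    obtain ⟨x, t, hx, rfl, ht⟩ := card_eq_succ.1 hBc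
    obtain ⟨y, z, u, h1, h2, h3, rfl⟩ := card_eq_three.1 ht
    simp only [mem_insert, mem_singleton, not_or] at hx
    refine ⟨x, y, z, hx.1, hx.2.1, h1, ?_⟩
    have h4 := huq x y z u (Or.inl ⟨hx.1, hx.2.1, h1, Ne.symm hx.2.2, h2.symm, h3.symm, hB⟩)
    show _ = ({x, y, z, q x y z} : Finset α)
    rw [← h4]

end ofSQS

end Pool.Agent.RDS
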